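import Mathlib

/-!
# Hyperplane arrangements, chambers, tope graphs and magnitude
-/

set_option linter.unusedSectionVars false

namespace Pool.Agent.Q243.ArrMag

open Matrix

/-- A central arrangement of hyperplanes in `ℝ^κ`, indexed by `ι`: hyperplane number `i` is the set of
vectors orthogonal to `normal i`, and different indices give different hyperplanes. -/
structure Arr (κ ι : Type) [Fintype κ] where
  normal : ι → (κ → ℝ)
  ne_zero : ∀ i, normal i ≠ 0
  inj : Function.Injective fun i => {x : κ → ℝ | normal i ⬝ᵥ x = 0}

variable {κ ι : Type} [Fintype κ] [Fintype ι] (A : Arr κ ι)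

/-- The intersection of all hyperplanes. -/
def center : Submodule ℝ (κ → ℝ) where
  carrier := {x | ∀ i, A.normal i ⬝ᵥ x = 0}
  add_mem' := by
    intro x y hx hy i
    rw [dotProduct_add, hx i, hy i, add_zero]
  zero_mem' := by
    intro i
    exact dotProduct_zero _
  smul_mem' := by
    intro c x hx i
    rw [dotProduct_smul, hx i, smul_zero]

/-- The rank is the codimension of the intersection of all hyperplanes. -/
noncomputable def rank : ℕ := Fintype.card κ - Module.finrank ℝ (center A)

/-- The complement of the union of all hyperplanes. -/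
def compl : Set (κ → ℝ) := {x | ∀ i, A.normal i ⬝ᵥ x ≠ 0}

/-- The chambers are the connected components of the complement. -/
abbrev Chamber := ConnectedComponents (compl A)

/-- Hyperplane number `i` separates the chambers `C` and `D`. -/
def Sep (i : ι) (C D : Chamber A) : Prop :=
  ∃ x y : compl A, (ConnectedComponents.mk x : Chamber A) = C ∧
    (ConnectedComponents.mk y : Chamber A) = D ∧
    (A.normal i ⬝ᵥ (x : κ → ℝ)) * (A.normal i ⬝ᵥ (y : κ → ℝ)) < 0

/-- The number of hyperplanes separating two chambers. -/
noncomputable def dist (C D : Chamber A) : ℕ := Nat.card {i : ι // Sep A i C D}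

/-- The tope graph: two chambers are adjacent if exactly one hyperplane separates them. -/
def tope : SimpleGraph (Chamber A) := SimpleGraph.fromRel fun C D => dist A C D = 1

/-- A graph is vertex-transitive if its automorphism group is transitive on the vertices. -/
def VertexTransitive {V : Type} (G : SimpleGraph V) : Prop := ∀ u v : V, ∃ φ : G ≃g G, φ u = v

/-! ### Sign vectors -/

open Classical in
/-- The sign vector of a point of the complement. -/
noncomputable def pos (x : compl A) : ι → Bool := fun i => decide (0 < A.normal i ⬝ᵥ (x : κ → ℝ))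

lemma pos_eq_true (x : compl A) (i : ι) :
    pos A x i = true ↔ 0 < A.normal i ⬝ᵥ (x : κ → ℝ) := by
  simp [pos]

lemma pos_eq_false (x : compl A) (i : ι) :
    pos A x i = false ↔ A.normal i ⬝ᵥ (x : κ → ℝ) < 0 := by
  have h := x.2 i
  simp only [pos, decide_eq_false_iff_not, not_lt]
  constructor
  · intro h1
    exact lt_of_le_of_ne h1 h
  · exact le_of_lt

lemma continuous_dot (v : κ → ℝ) : Continuous fun x : compl A => v ⬝ᵥ (x : κ → ℝ) := by
  unfold dotProduct
  exact continuous_finsetSum _ fun i _ =>
    continuous_const.mul ((continuous_apply i).comp continuous_subtype_val)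

lemma continuous_pos : Continuous (pos A) := by
  rw [continuous_pi_iff]
  intro i
  rw [continuous_bool_rng true]
  have h1 : (fun x : compl A => pos A x i) ⁻¹' {true}
      = {x : compl A | 0 < A.normal i ⬝ᵥ (x : κ → ℝ)} := by
    ext x
    exact pos_eq_true A x i
  rw [h1]
  constructor
  · have h2 : {x : compl A | 0 < A.normal i ⬝ᵥ (x : κ → ℝ)}
        = {x : compl A | 0 ≤ A.normal i ⬝ᵥ (x : κ → ℝ)} := by
      ext x
      constructor
      · intro h
        exact le_of_lt (show 0 < A.normal i ⬝ᵥ (x : κ → ℝ) from h)
      · intro h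
        exact lt_of_le_of_ne (show 0 ≤ A.normal i ⬝ᵥ (x : κ → ℝ) from h) (x.2 i).symm
    rw [h2]
    exact isClosed_le continuous_const (continuous_dot A _)
  · exact isOpen_lt continuous_const (continuous_dot A _)

/-- The sign vector of a chamber. -/
noncomputable def sgn : Chamber A → (ι → Bool) := (continuous_pos A).connectedComponentsLift

lemma sgn_mk (x : compl A) : sgn A (ConnectedComponents.mk x) = pos A x := rfl

/-- Points with the same sign vector lie in the same chamber. -/
lemma mk_eq_of_pos (x y : compl A) (h : pos A x = pos A y) :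
    (ConnectedComponents.mk x : Chamber A) = ConnectedComponents.mk y := by
  have hmem : ∀ t : unitInterval,
      ((1 - (t : ℝ)) • (x : κ → ℝ) + (t : ℝ) • (y : κ → ℝ)) ∈ compl A := by
    intro t i
    rw [dotProduct_add, dotProduct_smul, dotProduct_smul, smul_eq_mul, smul_eq_mul]
    have ht0 : (0 : ℝ) ≤ t := t.2.1
    have ht1 : (t : ℝ) ≤ 1 := t.2.2
    have hi := congrFun h i
    cases hx : pos A x i
    · have h1 := (pos_eq_false A x i).1 hx
      have h2 := (pos_eq_false A y i).1 (hi ▸ hx)
      apply ne_of_lt
      rcases eq_or_lt_of_le ht0 with h0 | h0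
      · rw [← h0]
        linarith
      · have := mul_neg_of_pos_of_neg h0 h2
        have h3 : (1 - (t : ℝ)) * (A.normal i ⬝ᵥ (x : κ → ℝ)) ≤ 0 :=
          mul_nonpos_of_nonneg_of_nonpos (by linarith) h1.le
        linarith
    · have h1 := (pos_eq_true A x i).1 hx
      have h2 := (pos_eq_true A y i).1 (hi ▸ hx)
      apply ne_of_gt
      rcases eq_or_lt_of_le ht0 with h0 | h0
      · rw [← h0]
        linarith
      · have := mul_pos h0 h2
        have h3 : 0 ≤ (1 - (t : ℝ)) * (A.normal i ⬝ᵥ (x : κ → ℝ)) :=
          mul_nonneg (by linarith) h1.le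
        linarith
  let g : unitInterval → compl A := fun t => ⟨_, hmem t⟩
  have hg : Continuous g := by
    apply Continuous.subtype_mk
    fun_prop
  have hpre : IsPreconnected (Set.range g) := isPreconnected_range hg
  have hx : x ∈ Set.range g := ⟨0, by apply Subtype.ext; simp [g]⟩
  have hy : y ∈ Set.range g := ⟨1, by apply Subtype.ext; simp [g]⟩
  rw [ConnectedComponents.coe_eq_coe']
  exact hpre.subset_connectedComponent hy hx

lemma sgn_injective : Function.Injective (sgn A) := by
  intro C D h
  obtain ⟨x, rfl⟩ := ConnectedComponents.surjective_coe C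
  obtain ⟨y, rfl⟩ := ConnectedComponents.surjective_coe D
  exact mk_eq_of_pos A x y h

instance : Finite (Chamber A) := Finite.of_injective _ (sgn_injective A)

noncomputable instance : Fintype (Chamber A) := Fintype.ofFinite _

noncomputable instance : DecidableEq (Chamber A) := Classical.decEq _

lemma sep_iff (i : ι) (C D : Chamber A) : Sep A i C D ↔ sgn A C i ≠ sgn A D i := by
  constructor
  · rintro ⟨x, y, rfl, rfl, h⟩
    rw [sgn_mk, sgn_mk]
    cases hx : pos A x i
    · have h1 := (pos_eq_false A x i).1 hx
      cases hy : pos A y i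
      · have h2 := (pos_eq_false A y i).1 hy
        exact absurd h (not_lt.2 (mul_nonneg_of_nonpos_of_nonpos h1.le h2.le))
      · simp
    · have h1 := (pos_eq_true A x i).1 hx
      cases hy : pos A y i
      · simp
      · have h2 := (pos_eq_true A y i).1 hy
        exact absurd h (not_lt.2 (mul_pos h1 h2).le)
  · intro h
    obtain ⟨x, rfl⟩ := ConnectedComponents.surjective_coe C
    obtain ⟨y, rfl⟩ := ConnectedComponents.surjective_coe D
    refine ⟨x, y, rfl, rfl, ?_⟩
    rw [sgn_mk, sgn_mk] at h
    cases hx : pos A x i
    · have h1 := (pos_eq_false A x i).1 hx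
      cases hy : pos A y i
      · exact absurd (hx.trans hy.symm) h
      · have h2 := (pos_eq_true A y i).1 hy
        exact mul_neg_of_neg_of_pos h1 h2
    · have h1 := (pos_eq_true A x i).1 hx
      cases hy : pos A y i
      · have h2 := (pos_eq_false A y i).1 hy
        exact mul_neg_of_pos_of_neg h1 h2
      · exact absurd (hx.trans hy.symm) h

/-- The number of differing entries. -/
def hd {ι : Type} [Fintype ι] (σ τ : ι → Bool) : ℕ := (Finset.univ.filter fun i => σ i ≠ τ i).card

lemma dist_eq (C D : Chamber A) : dist A C D = hd (sgn A C) (sgn A D) := by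
  classical
  unfold dist hd
  rw [Nat.card_congr (Equiv.subtypeEquivRight (fun i => sep_iff A i C D)), Nat.card_eq_fintype_card,
    Fintype.card_subtype]

/-! ### Magnitude -/

/-- The matrix with entries `q ^ d(C, D)` over the field of rational functions. -/
noncomputable def zmat : Matrix (Chamber A) (Chamber A) (RatFunc ℚ) :=
  fun C D => RatFunc.X ^ dist A C D

/-- The magnitude of the tope graph: the sum of all entries of the inverse of `zmat A`. -/
noncomputable def mag : RatFunc ℚ := ∑ C, ∑ D, (zmat A)⁻¹ C D

lemma zmat_det_ne_zero : (zmat A).det ≠ 0 := by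
  let Zp : Matrix (Chamber A) (Chamber A) (Polynomial ℚ) := fun C D => Polynomial.X ^ dist A C D
  have h1 : zmat A = Zp.map (algebraMap (Polynomial ℚ) (RatFunc ℚ)) := by
    ext C D
    change RatFunc.X ^ dist A C D = algebraMap (Polynomial ℚ) (RatFunc ℚ)
      (Polynomial.X ^ dist A C D)
    rw [map_pow, RatFunc.algebraMap_X]
  have h2 : Zp.map (Polynomial.evalRingHom (0 : ℚ)) = 1 := by
    ext C D
    change Polynomial.eval 0 (Polynomial.X ^ dist A C D) = _
    rw [Polynomial.eval_pow, Polynomial.eval_X]
    by_cases hCD : C = D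
    · subst hCD
      rw [Matrix.one_apply_eq, dist_eq]
      simp [hd]
    · rw [Matrix.one_apply_ne hCD]
      apply zero_pow
      rw [dist_eq]
      intro h0
      apply hCD
      apply sgn_injective A
      funext i
      unfold hd at h0
      rw [Finset.card_eq_zero, Finset.filter_eq_empty_iff] at h0
      exact not_not.1 (h0 (Finset.mem_univ i))
  intro h0
  rw [h1, ← RingHom.mapMatrix_apply, ← RingHom.map_det] at h0
  have h3 : Zp.det = 0 := by
    have := (map_eq_zero_iff _ (IsFractionRing.injective (Polynomial ℚ) (RatFunc ℚ))).1 h0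
    exact this
  have h4 : (Zp.map (Polynomial.evalRingHom (0 : ℚ))).det = 0 := by
    rw [← RingHom.mapMatrix_apply, ← RingHom.map_det, h3, map_zero]
  rw [h2, Matrix.det_one] at h4
  exact one_ne_zero h4

/-- The magnitude is the total weight of a weighting. -/
lemma mag_eq (w : Chamber A → RatFunc ℚ)
    (hw : ∀ C, ∑ D, RatFunc.X ^ dist A C D * w D = 1) : mag A = ∑ C, w C := by
  have hdet : IsUnit (zmat A).det := (zmat_det_ne_zero A).isUnit
  have h1 : zmat A *ᵥ w = fun _ => 1 := by
    funext C
    exact hw C
  have h2 : (zmat A)⁻¹ *ᵥ (fun _ => (1 : RatFunc ℚ)) = w := by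
    rw [← h1, Matrix.mulVec_mulVec, Matrix.nonsing_inv_mul _ hdet, Matrix.one_mulVec]
  unfold mag
  apply Finset.sum_congr rfl
  intro C _
  have := congrFun h2 C
  rw [← this]
  simp [Matrix.mulVec, dotProduct]

end Pool.Agent.Q243.ArrMag
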