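import Mathlib
import Pool.Agent.Q243.ArrMag

/-!
# The arrangement of four generic planes in `ℝ³` times a Boolean arrangement of rank `k`
-/

set_option linter.unusedSectionVars false

namespace Pool.Agent.Q243.ArrMag

open Matrix

/-- The normal vectors. -/
def nrm (k : ℕ) : Fin 4 ⊕ Fin k → (Fin 3 ⊕ Fin k → ℝ)
  | Sum.inl i => fun x => match x with
    | Sum.inl j => if i.val = 3 then 1 else if i.val = j.val then 1 else 0
    | Sum.inr _ => 0
  | Sum.inr i => fun x => match x with
    | Sum.inl _ => 0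
    | Sum.inr j => if i = j then 1 else 0

/-- The values of the linear forms. -/
def vl (k : ℕ) (x : Fin 3 ⊕ Fin k → ℝ) : Fin 4 ⊕ Fin k → ℝ
  | Sum.inl i => ![x (Sum.inl 0), x (Sum.inl 1), x (Sum.inl 2),
      x (Sum.inl 0) + x (Sum.inl 1) + x (Sum.inl 2)] i
  | Sum.inr i => x (Sum.inr i)

lemma nrm_dot (k : ℕ) (i : Fin 4 ⊕ Fin k) (x : Fin 3 ⊕ Fin k → ℝ) :
    nrm k i ⬝ᵥ x = vl k x i := by
  rcases i with i | i
  · fin_cases i <;> simp [dotProduct, nrm, vl, Fintype.sum_sum_type, Fin.sum_univ_three]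
  · simp [dotProduct, nrm, vl, Fintype.sum_sum_type]

/-- The arrangement. -/
def ex (k : ℕ) : Arr (Fin 3 ⊕ Fin k) (Fin 4 ⊕ Fin k) where
  normal := nrm k
  ne_zero := by
    rintro (i | i) h
    · have h0 := congrFun h (Sum.inl 0)
      have h1 := congrFun h (Sum.inl 1)
      have h2 := congrFun h (Sum.inl 2)
      fin_cases i <;> simp [nrm] at h0 h1 h2
    · have h0 := congrFun h (Sum.inr i)
      simp [nrm] at h0
  inj := by
    intro i j hij
    by_contra hne
    have key : ∀ i j : Fin 4 ⊕ Fin k, i ≠ j → ∃ x, vl k x i = 0 ∧ vl k x j ≠ 0 := by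
      rintro (i | i) (j | j) hne
      · have hne' : i ≠ j := fun h => hne (by rw [h])
        fin_cases i <;> fin_cases j <;> first
          | exact absurd rfl hne'
          | (refine ⟨Sum.elim ![0, 1, 0] 0, ?_, ?_⟩ <;> simp [vl]; done)
          | (refine ⟨Sum.elim ![0, 0, 1] 0, ?_, ?_⟩ <;> simp [vl]; done)
          | (refine ⟨Sum.elim ![1, 0, 0] 0, ?_, ?_⟩ <;> simp [vl]; done)
          | (refine ⟨Sum.elim ![1, -1, 0] 0, ?_, ?_⟩ <;> simp [vl]; done)
          | (refine ⟨Sum.elim ![0, 1, -1] 0, ?_, ?_⟩ <;> simp [vl]; done)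
      · refine ⟨Sum.elim 0 1, ?_, ?_⟩
        · fin_cases i <;> simp [vl]
        · simp [vl]
      · refine ⟨Sum.elim ![1, 1, 1] 0, ?_, ?_⟩
        · simp [vl]
        · fin_cases j <;> simp [vl]
          norm_num
      · have hne' : i ≠ j := fun h => hne (by rw [h])
        refine ⟨Sum.elim 0 (fun t => if t = j then 1 else 0), ?_, ?_⟩
        · simp [vl, hne']
        · simp [vl]
    obtain ⟨x, hx, hx'⟩ := key i j hne
    have h1 : x ∈ {x : Fin 3 ⊕ Fin k → ℝ | nrm k i ⬝ᵥ x = 0} := by
      change nrm k i ⬝ᵥ x = 0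
      rw [nrm_dot]
      exact hx
    have h2 : x ∈ {x : Fin 3 ⊕ Fin k → ℝ | nrm k j ⬝ᵥ x = 0} := by
      have h3 : {x : Fin 3 ⊕ Fin k → ℝ | nrm k i ⬝ᵥ x = 0}
        = {x : Fin 3 ⊕ Fin k → ℝ | nrm k j ⬝ᵥ x = 0} := hij
      rw [← h3]
      exact h1
    have h3 : nrm k j ⬝ᵥ x = 0 := h2
    rw [nrm_dot] at h3
    exact hx' h3

lemma ex_dot (k : ℕ) (i : Fin 4 ⊕ Fin k) (x : Fin 3 ⊕ Fin k → ℝ) :
    (ex k).normal i ⬝ᵥ x = vl k x i := nrm_dot k i x

lemma rank_ex (k : ℕ) : rank (ex k) = 3 + k := by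
  have h : center (ex k) = ⊥ := by
    rw [eq_bot_iff]
    intro x hx
    have hx' : ∀ i, vl k x i = 0 := by
      intro i
      rw [← ex_dot]
      exact hx i
    rw [Submodule.mem_bot]
    funext j
    rcases j with j | j
    · have h0 := hx' (Sum.inl 0)
      have h1 := hx' (Sum.inl 1)
      have h2 := hx' (Sum.inl 2)
      simp only [vl] at h0 h1 h2
      fin_cases j
      · exact h0
      · exact h1
      · exact h2
    · exact hx' (Sum.inr j)
  unfold rank
  rw [h, finrank_bot]
  simp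

/-- Validity of a sign vector of the rank three part. -/
def V (t : Fin 4 → Bool) : Bool := !(t 0 == t 1 && t 1 == t 2 && t 2 != t 3)

/-- The sign vectors of the chambers with four walls. -/
def Sq (t : Fin 4 → Bool) : Bool :=
  (t 0).toNat + (t 1).toNat + (t 2).toNat + (!(t 3)).toNat == 2

lemma sgn_valid (k : ℕ) (C : Chamber (ex k)) : V (sgn (ex k) C ∘ Sum.inl) = true := by
  obtain ⟨x, rfl⟩ := ConnectedComponents.surjective_coe C
  have hp : ∀ i, sgn (ex k) (ConnectedComponents.mk x) i = pos (ex k) x i := fun _ => rfl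
  have ht : ∀ i, pos (ex k) x i = true ↔ 0 < vl k x i := by
    intro i
    rw [pos_eq_true, ex_dot]
  have hf : ∀ i, pos (ex k) x i = false ↔ vl k x i < 0 := by
    intro i
    rw [pos_eq_false, ex_dot]
  by_contra hne
  simp only [V, Function.comp, hp, Bool.not_eq_true, Bool.not_eq_false', Bool.and_eq_true,
    beq_iff_eq, bne_iff_ne, ne_eq] at hne
  obtain ⟨⟨h01, h12⟩, h23⟩ := hne
  have e3 : vl k x (Sum.inl 3) = vl k x (Sum.inl 0) + vl k x (Sum.inl 1) + vl k x (Sum.inl 2) := by
    simp [vl]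
  cases h0 : pos (ex k) x (Sum.inl 0)
  · have h1 : pos (ex k) x (Sum.inl 1) = false := by rw [← h01, h0]
    have h2 : pos (ex k) x (Sum.inl 2) = false := by rw [← h12, h1]
    have h3 : pos (ex k) x (Sum.inl 3) = true := by
      rw [h2] at h23
      cases h : pos (ex k) x (Sum.inl 3)
      · exact absurd h.symm h23
      · rfl
    rw [hf] at h0 h1 h2
    rw [ht, e3] at h3
    linarith
  · have h1 : pos (ex k) x (Sum.inl 1) = true := by rw [← h01, h0]
    have h2 : pos (ex k) x (Sum.inl 2) = true := by rw [← h12, h1]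
    have h3 : pos (ex k) x (Sum.inl 3) = false := by
      rw [h2] at h23
      cases h : pos (ex k) x (Sum.inl 3)
      · rfl
      · exact absurd h.symm h23
    rw [ht] at h0 h1 h2
    rw [hf, e3] at h3
    linarith

/-- A point with a given sign vector. -/
def pnt (k : ℕ) (σ : Fin 4 ⊕ Fin k → Bool) : Fin 3 ⊕ Fin k → ℝ
  | Sum.inl j => if σ (Sum.inl 3) then (if σ (Sum.inl j.castSucc) then 3 else -1)
      else (if σ (Sum.inl j.castSucc) then 1 else -3)
  | Sum.inr j => if σ (Sum.inr j) then 1 else -1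

lemma pnt_sign (k : ℕ) (σ : Fin 4 ⊕ Fin k → Bool) (hV : V (σ ∘ Sum.inl) = true)
    (i : Fin 4 ⊕ Fin k) :
    (σ i = true → 0 < vl k (pnt k σ) i) ∧ (σ i = false → vl k (pnt k σ) i < 0) := by
  rcases i with i | i
  · simp only [V, Function.comp] at hV
    have c0 : (0 : Fin 3).castSucc = 0 := rfl
    have c1 : (1 : Fin 3).castSucc = 1 := rfl
    have c2 : (2 : Fin 3).castSucc = 2 := rfl
    generalize h0 : σ (Sum.inl 0) = s0 at hV
    generalize h1 : σ (Sum.inl 1) = s1 at hV
    generalize h2 : σ (Sum.inl 2) = s2 at hV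
    generalize h3 : σ (Sum.inl 3) = s3 at hV
    fin_cases i <;> simp only [vl, pnt, c0, c1, c2, h0, h1, h2, h3, Fin.zero_eta, Fin.mk_one,
      Fin.reduceFinMk, Matrix.cons_val_zero, Matrix.cons_val_one, Matrix.cons_val] <;>
      revert hV <;> cases s0 <;> cases s1 <;> cases s2 <;> cases s3 <;> simp <;> norm_num
  · constructor
    · intro h
      simp [vl, pnt, h]
    · intro h
      simp [vl, pnt, h]

lemma exists_chamber (k : ℕ) (σ : Fin 4 ⊕ Fin k → Bool) (hV : V (σ ∘ Sum.inl) = true) :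
    ∃ C, sgn (ex k) C = σ := by
  have hmem : pnt k σ ∈ compl (ex k) := by
    intro i
    rw [ex_dot]
    have h := pnt_sign k σ hV i
    cases hi : σ i
    · exact (h.2 hi).ne
    · exact (h.1 hi).ne'
  refine ⟨ConnectedComponents.mk ⟨pnt k σ, hmem⟩, ?_⟩
  rw [sgn_mk]
  funext i
  have h := pnt_sign k σ hV i
  cases hi : σ i
  · rw [pos_eq_false, ex_dot]
    exact h.2 hi
  · rw [pos_eq_true, ex_dot]
    exact h.1 hi

/-! ### The magnitude -/

/-- Sums over chambers. -/
lemma sum_chamber (k : ℕ) {R : Type*} [AddCommMonoid R] (F : (Fin 4 ⊕ Fin k → Bool) → R) :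
    ∑ C, F (sgn (ex k) C) = ∑ σ, if V (σ ∘ Sum.inl) = true then F σ else 0 := by
  classical
  rw [← Finset.sum_filter]
  have himg : Finset.univ.filter (fun σ : Fin 4 ⊕ Fin k → Bool => V (σ ∘ Sum.inl) = true)
      = Finset.univ.image (sgn (ex k)) := by
    ext σ
    simp only [Finset.mem_filter, Finset.mem_univ, true_and, Finset.mem_image]
    constructor
    · exact exists_chamber k σ
    · rintro ⟨C, rfl⟩
      exact sgn_valid k C
  rw [himg, Finset.sum_image]
  intro C _ D _ h
  exact sgn_injective _ h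

lemma sum_split (k : ℕ) {R : Type*} [AddCommMonoid R] (F : (Fin 4 ⊕ Fin k → Bool) → R) :
    ∑ σ, F σ = ∑ t : Fin 4 → Bool, ∑ u : Fin k → Bool, F (Sum.elim t u) := by
  rw [← (Equiv.sumArrowEquivProdArrow (Fin 4) (Fin k) Bool).symm.sum_comp,
    Fintype.sum_prod_type]
  rfl

lemma hd_split (k : ℕ) (σ : Fin 4 ⊕ Fin k → Bool) (t : Fin 4 → Bool) (u : Fin k → Bool) :
    hd σ (Sum.elim t u) = hd (σ ∘ Sum.inl) t + hd (σ ∘ Sum.inr) u := by
  unfold hd
  simp only [Finset.card_filter, Fintype.sum_sum_type, Sum.elim_inl, Sum.elim_inr, Function.comp]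
  rfl

lemma sum_cube {R : Type*} [CommRing R] (k : ℕ) (x : R) (u₀ : Fin k → Bool) :
    ∑ u : Fin k → Bool, x ^ hd u₀ u = (1 + x) ^ k := by
  have h1 : ∀ u : Fin k → Bool, x ^ hd u₀ u = ∏ i, if u₀ i ≠ u i then x else 1 := by
    intro u
    rw [Finset.prod_ite, Finset.prod_const, Finset.prod_const_one, mul_one]
    rfl
  simp only [h1]
  have h2 := Finset.prod_univ_sum (fun _ : Fin k => (Finset.univ : Finset Bool))
    (fun (i : Fin k) (b : Bool) => if u₀ i ≠ b then x else 1)
  rw [Fintype.piFinset_univ] at h2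
  rw [← h2]
  have h3 : ∀ i : Fin k, (∑ b : Bool, if u₀ i ≠ b then x else 1) = 1 + x := by
    intro i
    cases u₀ i <;> simp [add_comm]
  simp only [h3, Finset.prod_const, Finset.card_univ, Fintype.card_fin]

lemma sum_four {R : Type*} [AddCommMonoid R] (F : (Fin 4 → Bool) → R) :
    ∑ t, F t = ∑ a : Bool, ∑ b : Bool, ∑ c : Bool, ∑ d : Bool, F ![a, b, c, d] := by
  let e : (Bool × Bool × Bool × Bool) ≃ (Fin 4 → Bool) :=
    { toFun := fun p => ![p.1, p.2.1, p.2.2.1, p.2.2.2]
      invFun := fun t => (t 0, t 1, t 2, t 3)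
      left_inv := fun p => rfl
      right_inv := fun t => by
        funext i
        fin_cases i <;> rfl }
  rw [← e.sum_comp]
  simp only [Fintype.sum_prod_type]
  rfl

/-- The weights of the rank three part. -/
noncomputable def w4 (t : Fin 4 → Bool) : RatFunc ℚ :=
  if Sq t = true then (1 - RatFunc.X) ^ 2 / ((1 + RatFunc.X) ^ 2 * (1 + RatFunc.X ^ 4))
  else (1 - RatFunc.X + RatFunc.X ^ 2) / ((1 + RatFunc.X) ^ 2 * (1 + RatFunc.X ^ 4))

lemma one_add_X_ne : (1 + RatFunc.X : RatFunc ℚ) ≠ 0 := by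
  have h : (1 + RatFunc.X : RatFunc ℚ) = algebraMap (Polynomial ℚ) (RatFunc ℚ)
      (1 + Polynomial.X) := by
    rw [map_add, map_one, RatFunc.algebraMap_X]
  rw [h]
  intro h0
  have h1 := (map_eq_zero_iff _ (IsFractionRing.injective (Polynomial ℚ) (RatFunc ℚ))).1 h0
  have h2 := congrArg (Polynomial.eval 0) h1
  simp at h2

lemma one_add_X4_ne : (1 + RatFunc.X ^ 4 : RatFunc ℚ) ≠ 0 := by
  have h : (1 + RatFunc.X ^ 4 : RatFunc ℚ) = algebraMap (Polynomial ℚ) (RatFunc ℚ)
      (1 + Polynomial.X ^ 4) := by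
    rw [map_add, map_one, map_pow, RatFunc.algebraMap_X]
  rw [h]
  intro h0
  have h1 := (map_eq_zero_iff _ (IsFractionRing.injective (Polynomial ℚ) (RatFunc ℚ))).1 h0
  have h2 := congrArg (Polynomial.eval 0) h1
  simp at h2

lemma hd_four (a b c d a' b' c' d' : Bool) : hd ![a, b, c, d] ![a', b', c', d']
    = (if a ≠ a' then 1 else 0) + (if b ≠ b' then 1 else 0) + (if c ≠ c' then 1 else 0)
      + (if d ≠ d' then 1 else 0) := by
  unfold hd
  rw [Finset.card_filter, Fin.sum_univ_four]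
  rfl

lemma V_four (a b c d : Bool) : V ![a, b, c, d] = !(a == b && b == c && c != d) := rfl

lemma Sq_four (a b c d : Bool) : Sq ![a, b, c, d]
    = (a.toNat + b.toNat + c.toNat + (!d).toNat == 2) := rfl

lemma weight_four (t₀ : Fin 4 → Bool) (h : V t₀ = true) :
    (∑ t : Fin 4 → Bool, if V t = true then RatFunc.X ^ hd t₀ t * w4 t else 0) = 1 := by
  have e : t₀ = ![t₀ 0, t₀ 1, t₀ 2, t₀ 3] := by
    funext i
    fin_cases i <;> rfl
  have h1 := one_add_X_ne
  have h2 := one_add_X4_ne
  rw [e] at h ⊢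
  generalize t₀ 0 = a at h ⊢
  generalize t₀ 1 = b at h ⊢
  generalize t₀ 2 = c at h ⊢
  generalize t₀ 3 = d at h ⊢
  rw [V_four] at h
  rw [sum_four]
  simp only [V_four, hd_four, w4, Sq_four]
  revert h
  cases a <;> cases b <;> cases c <;> cases d <;> intro h <;>
    first
      | (exfalso; revert h; decide)
      | (simp only [Fintype.sum_bool]
         simp
         field_simp
         ring)

/-- The weights of the chambers. -/
noncomputable def wt (k : ℕ) (σ : Fin 4 ⊕ Fin k → Bool) : RatFunc ℚ :=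
  w4 (σ ∘ Sum.inl) * ((1 + RatFunc.X) ^ k)⁻¹

lemma weighting (k : ℕ) (C : Chamber (ex k)) :
    ∑ D, RatFunc.X ^ dist (ex k) C D * wt k (sgn (ex k) D) = 1 := by
  simp only [dist_eq]
  rw [sum_chamber k fun σ => RatFunc.X ^ hd (sgn (ex k) C) σ * wt k σ, sum_split]
  have hV := sgn_valid k C
  generalize sgn (ex k) C = σ₀ at hV
  have h1 : ∀ (t : Fin 4 → Bool) (u : Fin k → Bool),
      (if V (Sum.elim t u ∘ Sum.inl) = true then
        RatFunc.X ^ hd σ₀ (Sum.elim t u) * wt k (Sum.elim t u) else 0)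
      = (if V t = true then RatFunc.X ^ hd (σ₀ ∘ Sum.inl) t * w4 t else 0) *
        (RatFunc.X ^ hd (σ₀ ∘ Sum.inr) u * ((1 + RatFunc.X) ^ k)⁻¹) := by
    intro t u
    have e : Sum.elim t u ∘ Sum.inl = t := rfl
    rw [e, hd_split, wt, e]
    split_ifs
    · rw [pow_add]
      ring
    · rw [zero_mul]
  simp only [h1, ← Finset.mul_sum, ← Finset.sum_mul]
  rw [sum_cube, mul_inv_cancel₀ (pow_ne_zero _ one_add_X_ne), mul_one]
  exact weight_four _ hV

lemma total_four : (∑ t : Fin 4 → Bool, if V t = true then w4 t else 0)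
    = (14 - 20 * RatFunc.X + 14 * RatFunc.X ^ 2) / ((1 + RatFunc.X) ^ 2 * (1 + RatFunc.X ^ 4)) := by
  have h1 := one_add_X_ne
  have h2 := one_add_X4_ne
  rw [sum_four]
  simp only [V_four, w4, Sq_four, Fintype.sum_bool]
  simp
  field_simp
  ring

/-- The magnitude of the tope graph. -/
lemma mag_ex (k : ℕ) : mag (ex k)
    = algebraMap (Polynomial ℚ) (RatFunc ℚ)
        ((14 - 20 * Polynomial.X + 14 * Polynomial.X ^ 2) * 2 ^ k) /
      algebraMap (Polynomial ℚ) (RatFunc ℚ)
        ((1 + Polynomial.X) ^ (2 + k) * (1 + Polynomial.X ^ 4)) := by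
  rw [mag_eq (ex k) (fun C => wt k (sgn (ex k) C)) (weighting k)]
  rw [sum_chamber k (wt k), sum_split]
  have h1 : ∀ (t : Fin 4 → Bool) (u : Fin k → Bool),
      (if V (Sum.elim t u ∘ Sum.inl) = true then wt k (Sum.elim t u) else 0)
      = (if V t = true then w4 t else 0) * ((1 + RatFunc.X) ^ k)⁻¹ := by
    intro t u
    have e : Sum.elim t u ∘ Sum.inl = t := rfl
    rw [e, wt, e]
    split_ifs
    · rfl
    · rw [zero_mul]
  simp only [h1, Finset.sum_const, ← Finset.smul_sum, ← Finset.sum_mul]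
  rw [total_four]
  have h2 := one_add_X_ne
  have h3 := one_add_X4_ne
  simp only [map_mul, map_add, map_sub, map_pow, map_one, map_ofNat, RatFunc.algebraMap_X]
  rw [nsmul_eq_mul, pow_add]
  simp only [Finset.card_univ, Fintype.card_fun, Fintype.card_bool, Fintype.card_fin]
  push_cast
  field_simp

/-- A cyclotomic polynomial which divides the denominator has index dividing `8`. -/
lemma dvd_eight (k N : ℕ) (hN : 0 < N) (h : Polynomial.cyclotomic N ℚ ∣ (mag (ex k)).denom) :
    N ∣ 8 := by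
  have hden : (mag (ex k)).denom ∣ (1 + Polynomial.X) ^ (2 + k) * (1 + Polynomial.X ^ 4) := by
    have hne : ((1 + Polynomial.X) ^ (2 + k) * (1 + Polynomial.X ^ 4) : Polynomial ℚ) ≠ 0 := by
      intro h0
      have := congrArg (Polynomial.eval 0) h0
      simp at this
    rw [RatFunc.denom_dvd hne]
    exact ⟨_, mag_ex k⟩
  have hdvd := h.trans hden
  obtain ⟨z, hz⟩ : ∃ z : ℂ, IsPrimitiveRoot z N := ⟨_, Complex.isPrimitiveRoot_exp N hN.ne'⟩
  have hroot : Polynomial.aeval z (Polynomial.cyclotomic N ℚ) = 0 := by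
    have h1 := hz.isRoot_cyclotomic hN
    rw [Polynomial.aeval_def, Polynomial.eval₂_eq_eval_map, Polynomial.map_cyclotomic]
    exact h1
  obtain ⟨p, hp⟩ := hdvd
  have h2 := congrArg (Polynomial.aeval z) hp
  rw [map_mul (Polynomial.aeval z) (Polynomial.cyclotomic N ℚ) p, hroot, zero_mul] at h2
  simp only [map_mul, map_pow, map_add, map_one, Polynomial.aeval_X] at h2
  have h8 : z ^ 8 = 1 := by
    rcases mul_eq_zero.1 h2 with h3 | h3
    · have h4 : z = -1 := by
        have := pow_eq_zero_iff (by omega) |>.1 h3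
        linear_combination this
      rw [h4]
      norm_num
    · linear_combination (z ^ 4 - 1) * h3
  exact hz.dvd_of_pow_eq_one 8 h8

/-! ### The degrees -/

/-- Flipping one sign. -/
def flip {ι : Type} [DecidableEq ι] (σ : ι → Bool) (i : ι) : ι → Bool :=
  Function.update σ i (!(σ i))

lemma flip_self {ι : Type} [DecidableEq ι] (σ : ι → Bool) (i : ι) : flip σ i i = !(σ i) :=
  Function.update_self _ _ _

lemma flip_ne {ι : Type} [DecidableEq ι] (σ : ι → Bool) (i j : ι) (h : j ≠ i) :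
    flip σ i j = σ j := Function.update_of_ne h _ _

lemma hd_eq_one {ι : Type} [Fintype ι] [DecidableEq ι] (σ τ : ι → Bool) :
    hd σ τ = 1 ↔ ∃ i, τ = flip σ i := by
  unfold hd
  rw [Finset.card_eq_one]
  constructor
  · rintro ⟨i, hi⟩
    refine ⟨i, ?_⟩
    funext j
    have hj := Finset.ext_iff.1 hi j
    simp only [Finset.mem_filter, Finset.mem_univ, true_and, Finset.mem_singleton] at hj
    unfold flip
    by_cases hji : j = i
    · subst hji
      rw [Function.update_self]
      have := hj.2 rfl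
      cases h1 : σ j <;> cases h2 : τ j <;> simp_all
    · rw [Function.update_of_ne hji]
      by_contra hne
      exact hji (hj.1 fun h => hne h.symm)
  · rintro ⟨i, rfl⟩
    refine ⟨i, ?_⟩
    ext j
    rw [Finset.mem_filter, Finset.mem_singleton]
    by_cases hji : j = i
    · subst hji
      rw [flip_self]
      simp
    · rw [flip_ne _ _ _ hji]
      simp [hji]

lemma adj_iff (k : ℕ) (C D : Chamber (ex k)) :
    (tope (ex k)).Adj C D ↔ ∃ i, sgn (ex k) D = flip (sgn (ex k) C) i := by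
  unfold tope
  rw [SimpleGraph.fromRel_adj]
  have hsymm : ∀ C D, dist (ex k) C D = dist (ex k) D C := by
    intro C D
    rw [dist_eq, dist_eq]
    unfold hd
    congr 1
    ext i
    simp [ne_comm]
  rw [hsymm D C, or_self, dist_eq, hd_eq_one]
  constructor
  · exact fun h => h.2
  · intro h
    refine ⟨?_, h⟩
    rintro rfl
    obtain ⟨i, hi⟩ := h
    have := congrFun hi i
    simp [flip] at this

lemma flip_inj {ι : Type} [DecidableEq ι] (σ : ι → Bool) : Function.Injective (flip σ) := by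
  intro i j h
  by_contra hne
  have := congrFun h i
  unfold flip at this
  rw [Function.update_self, Function.update_of_ne hne] at this
  simp at this

/-- The tope graph is not vertex-transitive, since its vertices do not all have the same degree. -/
lemma not_vt (k : ℕ) : ¬ VertexTransitive (tope (ex k)) := by
  intro hvt
  -- two chambers
  obtain ⟨C, hC⟩ := exists_chamber k (Sum.elim ![true, false, false, true] fun _ => true) rfl
  obtain ⟨D, hD⟩ := exists_chamber k (Sum.elim ![true, true, false, true] fun _ => true) rfl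
  obtain ⟨φ, hφ⟩ := hvt D C
  -- all neighbours of `D`
  have hnb : ∀ i, ∃ E, sgn (ex k) E = flip (sgn (ex k) D) i := by
    intro i
    apply exists_chamber
    rw [hD]
    rcases i with i | i
    · fin_cases i <;> rfl
    · rfl
  choose E hE using hnb
  have hEadj : ∀ i, (tope (ex k)).Adj C (φ (E i)) := by
    intro i
    have h1 : (tope (ex k)).Adj D (E i) := (adj_iff k _ _).2 ⟨i, hE i⟩
    rw [← hφ]
    exact φ.map_rel_iff.2 h1
  -- the separating hyperplanes
  have hch : ∀ i, ∃ j, sgn (ex k) (φ (E i)) = flip (sgn (ex k) C) j := fun i =>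
    (adj_iff k _ _).1 (hEadj i)
  choose f hf using hch
  have hfinj : Function.Injective f := by
    intro i i' h
    have h1 : sgn (ex k) (φ (E i)) = sgn (ex k) (φ (E i')) := by rw [hf, hf, h]
    have h2 := φ.injective (sgn_injective _ h1)
    have h3 : flip (sgn (ex k) D) i = flip (sgn (ex k) D) i' := by rw [← hE, ← hE, h2]
    exact flip_inj _ h3
  have hfsurj : Function.Surjective f := Finite.injective_iff_surjective.1 hfinj
  obtain ⟨i, hi⟩ := hfsurj (Sum.inl 0)
  have h1 := hf i
  rw [hi, hC] at h1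
  have h2 := sgn_valid k (φ (E i))
  rw [h1] at h2
  have e : flip (Sum.elim ![true, false, false, true] fun _ : Fin k => true) (Sum.inl 0) ∘ Sum.inl
      = flip ![true, false, false, true] (0 : Fin 4) := by
    funext j
    by_cases hj : j = 0
    · subst hj
      rw [Function.comp, flip_self, flip_self]
      rfl
    · have hj' : (Sum.inl j : Fin 4 ⊕ Fin k) ≠ Sum.inl 0 := fun h => hj (Sum.inl_injective h)
      rw [Function.comp, flip_ne _ _ _ hj, flip_ne _ _ _ hj']
      rfl
  rw [e] at h2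
  revert h2
  decide

end Pool.Agent.Q243.ArrMag
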