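import Mathlib

/-!
Cover bound: if boxes cover a large part of `Ω^ℓ`, their number is exponentially large.
-/

namespace CovEnt

open MeasureTheory ENNReal Filter Topology

variable {Ω : Type*} [MeasurableSpace Ω]

lemma lint_prod {n : ℕ} (μ : Fin n → Measure Ω) [∀ i, SigmaFinite (μ i)]
    (f : Fin n → Ω → ℝ≥0∞) (hf : ∀ i, Measurable (f i)) :
    ∫⁻ x : Fin n → Ω, ∏ i, f i (x i) ∂(Measure.pi μ) = ∏ i, ∫⁻ x, f i x ∂(μ i) := by
  induction n with
  | zero => simp
  | succ n n_ih =>
      have hm : Measurable (fun x : Fin (n + 1) → Ω => ∏ i, f i (x i)) := by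
        refine Finset.measurable_prod _ (fun i _ => (hf i).comp (measurable_pi_apply i))
      calc
        _ = ∫⁻ x : Ω × (Fin n → Ω), f 0 x.1 * ∏ i : Fin n, f (Fin.succ i) (x.2 i)
            ∂((μ 0).prod (Measure.pi (fun i ↦ μ i.succ))) := by
          rw [← ((measurePreserving_piFinSuccAbove μ 0).symm).lintegral_comp hm]
          simp_rw [MeasurableEquiv.piFinSuccAbove_symm_apply, Fin.insertNthEquiv,
            Fin.prod_univ_succ, Fin.insertNth_zero, Equiv.coe_fn_mk, Fin.cons_succ,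
            Fin.zero_succAbove, Fin.cons_zero]
          rfl
        _ = (∫⁻ x, f 0 x ∂μ 0)
            * ∏ i : Fin n, ∫⁻ x, f (Fin.succ i) x ∂(μ i.succ) := by
          rw [← n_ih _ _ (fun i => hf _), ← lintegral_prod_mul (hf 0).aemeasurable]
          exact (Finset.measurable_prod _
            (fun i _ => (hf _).comp (measurable_pi_apply i))).aemeasurable
        _ = ∏ i, ∫⁻ x, f i x ∂(μ i) := by rw [Fin.prod_univ_succ]

lemma one_le_exp_add (t G : ℝ) (ht : 0 < t) : 1 ≤ Real.exp (t * G) + Real.exp (-G) := by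
  rcases le_total 0 G with h | h
  · have h1 : 1 ≤ Real.exp (t * G) := Real.one_le_exp (by positivity)
    linarith [Real.exp_pos (-G)]
  · have h1 : 1 ≤ Real.exp (-G) := Real.one_le_exp (by linarith)
    linarith [Real.exp_pos (t * G)]

/-- the basic inequality -/
lemma cover_ineq (π : Measure Ω) [IsProbabilityMeasure π] (𝓘 : Set (Set Ω))
    (g : Ω → ℝ) (hg : Measurable g) (t : ℝ) (ht : 0 < t) (q κ lam : ℝ)
    (h1 : ∫⁻ x, ENNReal.ofReal (Real.exp (t * g x)) ∂π ≤ ENNReal.ofReal q)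
    (h2 : ∀ J ∈ 𝓘, ∫⁻ x in J, ENNReal.ofReal (Real.exp (-(g x))) ∂π
      ≤ ENNReal.ofReal (Real.exp (-κ)))
    (ℓ N : ℕ) (B : Fin N → Fin ℓ → Set Ω) (hB : ∀ i j, B i j ∈ 𝓘)
    (hc : ENNReal.ofReal (1 - lam) ≤
      Measure.pi (fun _ : Fin ℓ => π) (⋃ i, Set.univ.pi (B i))) :
    ENNReal.ofReal (1 - lam) ≤
      ENNReal.ofReal q ^ ℓ + N * ENNReal.ofReal (Real.exp (-κ)) ^ ℓ := by
  have hm1 : Measurable (fun x => ENNReal.ofReal (Real.exp (t * g x))) :=
    (Real.measurable_exp.comp (hg.const_mul t)).ennreal_ofReal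
  have hm2 : Measurable (fun x => ENNReal.ofReal (Real.exp (-(g x)))) :=
    (Real.measurable_exp.comp hg.neg).ennreal_ofReal
  set R : Set (Fin ℓ → Ω) := ⋃ i, Set.univ.pi (B i) with hR
  set μ := Measure.pi (fun _ : Fin ℓ => π) with hμ
  have hM1 : Measurable (fun x : Fin ℓ → Ω => ∏ i, ENNReal.ofReal (Real.exp (t * g (x i)))) :=
    Finset.measurable_prod _ (fun i _ => hm1.comp (measurable_pi_apply i))
  have hM2 : Measurable (fun x : Fin ℓ → Ω => ∏ i, ENNReal.ofReal (Real.exp (-(g (x i))))) :=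
    Finset.measurable_prod _ (fun i _ => hm2.comp (measurable_pi_apply i))
  have hpt : ∀ x : Fin ℓ → Ω, (1 : ℝ≥0∞) ≤
      (∏ i, ENNReal.ofReal (Real.exp (t * g (x i)))) +
        ∏ i, ENNReal.ofReal (Real.exp (-(g (x i)))) := by
    intro x
    rw [← ENNReal.ofReal_prod_of_nonneg (fun i _ => (Real.exp_pos _).le),
      ← ENNReal.ofReal_prod_of_nonneg (fun i _ => (Real.exp_pos _).le),
      ← ENNReal.ofReal_add (Finset.prod_nonneg (fun i _ => (Real.exp_pos _).le))
        (Finset.prod_nonneg (fun i _ => (Real.exp_pos _).le)),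
      ← Real.exp_sum, ← Real.exp_sum, ← Finset.mul_sum, Finset.sum_neg_distrib]
    rw [← ENNReal.ofReal_one]
    exact ENNReal.ofReal_le_ofReal (one_le_exp_add t _ ht)
  calc ENNReal.ofReal (1 - lam) ≤ μ R := hc
    _ = ∫⁻ x in R, 1 ∂μ := by simp
    _ ≤ ∫⁻ x in R, ((∏ i, ENNReal.ofReal (Real.exp (t * g (x i)))) +
        ∏ i, ENNReal.ofReal (Real.exp (-(g (x i))))) ∂μ := lintegral_mono hpt
    _ = (∫⁻ x in R, (∏ i, ENNReal.ofReal (Real.exp (t * g (x i)))) ∂μ) +
        ∫⁻ x in R, (∏ i, ENNReal.ofReal (Real.exp (-(g (x i))))) ∂μ :=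
        lintegral_add_left hM1 _
    _ ≤ (∫⁻ x, (∏ i, ENNReal.ofReal (Real.exp (t * g (x i)))) ∂μ) +
        ∑' i, ∫⁻ x in Set.univ.pi (B i), (∏ i, ENNReal.ofReal (Real.exp (-(g (x i))))) ∂μ :=
        add_le_add (setLIntegral_le_lintegral _ _) (lintegral_iUnion_le _ _)
    _ ≤ ENNReal.ofReal q ^ ℓ + N * ENNReal.ofReal (Real.exp (-κ)) ^ ℓ := by
        refine add_le_add ?_ ?_
        · rw [hμ, lint_prod _ (fun _ x => ENNReal.ofReal (Real.exp (t * g x))) (fun _ => hm1)]
          rw [Finset.prod_const, Finset.card_univ, Fintype.card_fin]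
          exact pow_le_pow_left' h1 ℓ
        · rw [tsum_fintype]
          calc ∑ i : Fin N, ∫⁻ x in Set.univ.pi (B i),
                (∏ i, ENNReal.ofReal (Real.exp (-(g (x i))))) ∂μ
              ≤ ∑ i : Fin N, ENNReal.ofReal (Real.exp (-κ)) ^ ℓ := by
                refine Finset.sum_le_sum (fun i _ => ?_)
                rw [hμ, Measure.restrict_pi_pi,
                  lint_prod _ (fun _ x => ENNReal.ofReal (Real.exp (-(g x)))) (fun _ => hm2)]
                calc ∏ j : Fin ℓ, ∫⁻ x in B i j, ENNReal.ofReal (Real.exp (-(g x))) ∂π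
                    ≤ ∏ j : Fin ℓ, ENNReal.ofReal (Real.exp (-κ)) :=
                      Finset.prod_le_prod' (fun j _ => h2 _ (hB i j))
                  _ = _ := by rw [Finset.prod_const, Finset.card_univ, Fintype.card_fin]
            _ = N * ENNReal.ofReal (Real.exp (-κ)) ^ ℓ := by
                rw [Finset.sum_const, Finset.card_univ, Fintype.card_fin, nsmul_eq_mul]

/-- for a bounded `g` with negative mean, a small exponential moment is less than one -/
lemma exists_exp_moment (π : Measure Ω) [IsProbabilityMeasure π]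
    (g : Ω → ℝ) (hg : Measurable g) (M : ℝ) (hM : ∀ x, |g x| ≤ M) (hneg : ∫ x, g x ∂π < 0) :
    ∃ t : ℝ, 0 < t ∧ ∃ q : ℝ, 0 ≤ q ∧ q < 1 ∧
      ∫⁻ x, ENNReal.ofReal (Real.exp (t * g x)) ∂π ≤ ENNReal.ofReal q := by
  set M' := max M 1 with hM'
  have hM1 : 1 ≤ M' := le_max_right _ _
  have hMM : ∀ x, |g x| ≤ M' := fun x => (hM x).trans (le_max_left _ _)
  set γ := -(∫ x, g x ∂π) with hγ
  have hγ0 : 0 < γ := by rw [hγ]; linarith
  have hint : Integrable g π := by
    refine Integrable.of_bound hg.aestronglyMeasurable M' (ae_of_all _ (fun x => ?_))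
    rw [Real.norm_eq_abs]; exact hMM x
  have hγM : γ ≤ M' := by
    have h1 : |∫ x, g x ∂π| ≤ M' := by
      have := norm_integral_le_of_norm_le_const (μ := π) (f := g) (C := M')
        (ae_of_all _ (fun x => by rw [Real.norm_eq_abs]; exact hMM x))
      simpa using this
    rw [hγ]
    linarith [neg_abs_le (∫ x, g x ∂π)]
  set t := γ / (2 * M' ^ 2) with ht
  have ht0 : 0 < t := by positivity
  have htM : t * M' ≤ 1 := by
    rw [ht, div_mul_eq_mul_div, div_le_one (by positivity)]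
    nlinarith
  refine ⟨t, ht0, 1 - t * γ + t ^ 2 * M' ^ 2, ?_, ?_, ?_⟩
  · nlinarith [sq_nonneg (t * M'), mul_le_mul_of_nonneg_left hγM ht0.le]
  · have : t ^ 2 * M' ^ 2 = t * γ / 2 := by
      rw [ht]; field_simp
    rw [this]
    have : 0 < t * γ := by positivity
    linarith
  · have hb : ∀ x, Real.exp (t * g x) ≤ 1 + t * g x + t ^ 2 * M' ^ 2 := by
      intro x
      have habs : |t * g x| ≤ 1 := by
        rw [abs_mul, abs_of_pos ht0]
        exact (mul_le_mul_of_nonneg_left (hMM x) ht0.le).trans htM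
      have h1 := Real.abs_exp_sub_one_sub_id_le habs
      have h2 := (abs_le.mp h1).2
      have h3 : (t * g x) ^ 2 ≤ t ^ 2 * M' ^ 2 := by
        rw [mul_pow]
        refine mul_le_mul_of_nonneg_left ?_ (by positivity)
        rw [← sq_abs]
        exact pow_le_pow_left₀ (abs_nonneg _) (hMM x) 2
      linarith
    calc ∫⁻ x, ENNReal.ofReal (Real.exp (t * g x)) ∂π
        ≤ ∫⁻ x, ENNReal.ofReal (1 + t * g x + t ^ 2 * M' ^ 2) ∂π :=
          lintegral_mono (fun x => ENNReal.ofReal_le_ofReal (hb x))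
      _ = ENNReal.ofReal (∫ x, (1 + t * g x + t ^ 2 * M' ^ 2) ∂π) := by
          rw [ofReal_integral_eq_lintegral_ofReal]
          · exact ((integrable_const _).add (hint.const_mul t)).add (integrable_const _)
          · exact ae_of_all _ (fun x => (Real.exp_pos _).le.trans (hb x))
      _ = ENNReal.ofReal (1 - t * γ + t ^ 2 * M' ^ 2) := by
          congr 1
          have i1 : Integrable (fun x => 1 + t * g x) π :=
            (integrable_const (1 : ℝ)).add (hint.const_mul t)
          have e1 : ∫ x, (1 + t * g x + t ^ 2 * M' ^ 2) ∂π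
              = (∫ x, (1 + t * g x) ∂π) + ∫ _, t ^ 2 * M' ^ 2 ∂π :=
            integral_add i1 (integrable_const _)
          have e2 : ∫ x, (1 + t * g x) ∂π = (∫ _, (1 : ℝ) ∂π) + ∫ x, t * g x ∂π :=
            integral_add (integrable_const _) (hint.const_mul t)
          rw [e1, e2, integral_const_mul]
          simp [hγ]

end CovEnt
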