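import Mathlib

/-!
Smoothed concave maximisation over a σ-convex family of functions.
-/

namespace CovEnt

open MeasureTheory ENNReal Filter Topology

variable {Ω : Type*} [MeasurableSpace Ω]

/-- a σ-convex family of measurable functions with values in `[0,1]` -/
structure Good (𝓒 : Set (Ω → ℝ)) : Prop where
  meas : ∀ f ∈ 𝓒, Measurable f
  nonneg : ∀ f ∈ 𝓒, ∀ x, 0 ≤ f x
  le_one : ∀ f ∈ 𝓒, ∀ x, f x ≤ 1
  ne : 𝓒.Nonempty
  conv : ∀ (f : ℕ → Ω → ℝ) (w : ℕ → ℝ), (∀ n, f n ∈ 𝓒) → (∀ n, 0 ≤ w n) → HasSum w 1 →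
    (fun x => ∑' n, w n * f n x) ∈ 𝓒

lemma Good.mix {𝓒 : Set (Ω → ℝ)} (h : Good 𝓒) {f g : Ω → ℝ} (hf : f ∈ 𝓒) (hg : g ∈ 𝓒) {t : ℝ}
    (ht0 : 0 ≤ t) (ht1 : t ≤ 1) : (fun x => (1 - t) * f x + t * g x) ∈ 𝓒 := by
  have key := h.conv (fun n => if n = 0 then f else g)
    (fun n => if n = 0 then 1 - t else if n = 1 then t else 0)
    (fun n => by by_cases hn : n = 0 <;> simp [hn, hf, hg])
    (fun n => by
      by_cases hn : n = 0
      · simp [hn, ht1]
      · by_cases hn1 : n = 1 <;> simp [hn, hn1, ht0])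
    (by
      have : HasSum (fun n : ℕ => if n = 0 then 1 - t else if n = 1 then t else 0)
          (∑ n ∈ Finset.range 2, if n = 0 then 1 - t else if n = 1 then t else 0) :=
        hasSum_sum_of_ne_finset_zero (by
          intro b hb
          simp only [Finset.mem_range, not_lt] at hb
          have h0 : b ≠ 0 := by omega
          have h1 : b ≠ 1 := by omega
          simp [h0, h1])
      simpa [Finset.sum_range_succ] using this)
  have e : (fun x => ∑' n : ℕ, (if n = 0 then 1 - t else if n = 1 then t else 0) *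
      (if n = 0 then f else g) x) = (fun x => (1 - t) * f x + t * g x) := by
    funext x
    rw [tsum_eq_sum (s := Finset.range 2)
      (by
        intro b hb
        simp only [Finset.mem_range, not_lt] at hb
        have h0 : b ≠ 0 := by omega
        have h1 : b ≠ 1 := by omega
        simp [h0, h1])]
    simp [Finset.sum_range_succ]
  rw [← e]
  exact key

/-- smoothing towards one -/
def sm (ε : ℝ) (f : Ω → ℝ) (x : Ω) : ℝ := (1 - ε) * f x + ε

/-- the smoothed functional -/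
noncomputable def FF (π : Measure Ω) (ε : ℝ) (f : Ω → ℝ) : ℝ := ∫ x, Real.log (sm ε f x) ∂π

/-- its supremum over the family -/
noncomputable def SS (π : Measure Ω) (𝓒 : Set (Ω → ℝ)) (ε : ℝ) : ℝ := sSup (FF π ε '' 𝓒)

section
variable {𝓒 : Set (Ω → ℝ)} (h : Good 𝓒)
include h

lemma sm_ge {ε : ℝ} (h1 : ε ≤ 1) {f : Ω → ℝ} (hf : f ∈ 𝓒) (x : Ω) : ε ≤ sm ε f x := by
  have := mul_nonneg (by linarith : 0 ≤ 1 - ε) (h.nonneg f hf x)
  unfold sm; linarith

lemma sm_le {ε : ℝ} (h1 : ε ≤ 1) {f : Ω → ℝ} (hf : f ∈ 𝓒) (x : Ω) : sm ε f x ≤ 1 := by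
  have := mul_le_mul_of_nonneg_left (h.le_one f hf x) (by linarith : 0 ≤ 1 - ε)
  unfold sm; linarith

lemma sm_meas {ε : ℝ} {f : Ω → ℝ} (hf : f ∈ 𝓒) : Measurable (sm ε f) :=
  ((h.meas f hf).const_mul _).add_const _

lemma sm_mono {ε ε' : ℝ} (hεε : ε ≤ ε') {f : Ω → ℝ} (hf : f ∈ 𝓒) (x : Ω) :
    sm ε f x ≤ sm ε' f x := by
  have := mul_le_mul_of_nonneg_left (h.le_one f hf x) (by linarith : 0 ≤ ε' - ε)
  unfold sm; linarith

lemma log_bd {ε : ℝ} (h0 : 0 < ε) (h1 : ε ≤ 1) {f : Ω → ℝ} (hf : f ∈ 𝓒) (x : Ω) :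
    |Real.log (sm ε f x)| ≤ -Real.log ε := by
  have h2 := sm_ge h h1 hf x
  have h3 := sm_le h h1 hf x
  rw [abs_le]
  constructor
  · rw [neg_neg]; exact Real.log_le_log h0 h2
  · have := Real.log_nonpos (by linarith) h3
    have := Real.log_nonpos h0.le h1
    linarith

variable (π : Measure Ω) [IsProbabilityMeasure π]

set_option linter.unusedSectionVars false

lemma log_int {ε : ℝ} (h0 : 0 < ε) (h1 : ε ≤ 1) {f : Ω → ℝ} (hf : f ∈ 𝓒) :
    Integrable (fun x => Real.log (sm ε f x)) π := by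
  refine Integrable.of_bound (Real.measurable_log.comp (sm_meas h hf)).aestronglyMeasurable
    (-Real.log ε) (ae_of_all _ (fun x => ?_))
  rw [Real.norm_eq_abs]; exact log_bd h h0 h1 hf x

lemma FF_le_zero {ε : ℝ} (h0 : 0 < ε) (h1 : ε ≤ 1) {f : Ω → ℝ} (hf : f ∈ 𝓒) :
    FF π ε f ≤ 0 := by
  unfold FF
  refine integral_nonpos (fun x => ?_)
  exact Real.log_nonpos (h0.le.trans (sm_ge h h1 hf x)) (sm_le h h1 hf x)

lemma bdd {ε : ℝ} (h0 : 0 < ε) (h1 : ε ≤ 1) : BddAbove (FF π ε '' 𝓒) := by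
  refine ⟨0, ?_⟩
  rintro _ ⟨f, hf, rfl⟩
  exact FF_le_zero h π h0 h1 hf

lemma FF_le_SS {ε : ℝ} (h0 : 0 < ε) (h1 : ε ≤ 1) {f : Ω → ℝ} (hf : f ∈ 𝓒) :
    FF π ε f ≤ SS π 𝓒 ε := le_csSup (bdd h π h0 h1) ⟨f, hf, rfl⟩

lemma SS_le_zero {ε : ℝ} (h0 : 0 < ε) (h1 : ε ≤ 1) : SS π 𝓒 ε ≤ 0 := by
  refine csSup_le (h.ne.image _) ?_
  rintro _ ⟨f, hf, rfl⟩
  exact FF_le_zero h π h0 h1 hf

omit [IsProbabilityMeasure π] in
lemma exists_near {ε γ : ℝ} (hγ : 0 < γ) : ∃ f ∈ 𝓒, SS π 𝓒 ε - γ ≤ FF π ε f := by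
  obtain ⟨_, ⟨f, hf, rfl⟩, h2⟩ := exists_lt_of_lt_csSup (h.ne.image (FF π ε))
    (show SS π 𝓒 ε - γ < sSup (FF π ε '' 𝓒) by unfold SS; linarith)
  exact ⟨f, hf, h2.le⟩

lemma FF_mono {ε ε' : ℝ} (h0 : 0 < ε) (hεε : ε ≤ ε') (h1 : ε' ≤ 1) {f : Ω → ℝ} (hf : f ∈ 𝓒) :
    FF π ε f ≤ FF π ε' f := by
  unfold FF
  refine integral_mono (log_int h π h0 (hεε.trans h1) hf) (log_int h π (h0.trans_le hεε) h1 hf)
    (fun x => ?_)
  exact Real.log_le_log (h0.trans_le (sm_ge h (hεε.trans h1) hf x)) (sm_mono h hεε hf x)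

lemma SS_mono {ε ε' : ℝ} (h0 : 0 < ε) (hεε : ε ≤ ε') (h1 : ε' ≤ 1) :
    SS π 𝓒 ε ≤ SS π 𝓒 ε' := by
  refine csSup_le (h.ne.image _) ?_
  rintro _ ⟨f, hf, rfl⟩
  exact (FF_mono h π h0 hεε h1 hf).trans (FF_le_SS h π (h0.trans_le hεε) h1 hf)

omit h [IsProbabilityMeasure π] in
lemma log_one_add_ge {u : ℝ} (hu : |u| ≤ 1 / 2) : u - 2 * u ^ 2 ≤ Real.log (1 + u) := by
  have h1 := (abs_le.mp hu).1
  have h2 : (0 : ℝ) < 1 + u := by linarith
  have h3 := Real.one_sub_inv_le_log_of_pos h2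
  have h4 : u - 2 * u ^ 2 ≤ 1 - (1 + u)⁻¹ := by
    have h5 : 1 - (1 + u)⁻¹ = u / (1 + u) := by field_simp; ring
    rw [h5, le_div_iff₀ h2]
    nlinarith [sq_nonneg u, mul_nonneg (sq_nonneg u) (by linarith : (0 : ℝ) ≤ 1 + 2 * u)]
  linarith

/-- approximate optimality condition -/
lemma near_opt {ε δ : ℝ} (h0 : 0 < ε) (h1 : ε < 1) (hδ0 : 0 < δ) (hδ : δ ≤ ε / 2)
    {a : Ω → ℝ} (ha : a ∈ 𝓒) (hopt : SS π 𝓒 ε - δ ^ 2 ≤ FF π ε a)
    {f : Ω → ℝ} (hf : f ∈ 𝓒) :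
    ∫ x, f x / sm ε a x ∂π ≤ 1 + δ * (1 + 2 / ε ^ 2) / (1 - ε) := by
  have h1' : 0 < 1 - ε := by linarith
  have hbpos : ∀ x, 0 < sm ε a x := fun x => h0.trans_le (sm_ge h h1.le ha x)
  have hbm : Measurable (sm ε a) := sm_meas h ha
  have hfm := h.meas f hf
  have ham := h.meas a ha
  set u : Ω → ℝ := fun x => δ * (1 - ε) * ((f x - a x) / sm ε a x) with hu
  have hum : Measurable u := ((hfm.sub ham).div hbm).const_mul _
  have hδ1 : δ ≤ 1 := by linarith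
  have hmem : (fun x => (1 - δ) * a x + δ * f x) ∈ 𝓒 := h.mix ha hf hδ0.le hδ1
  have hsm : ∀ x, sm ε (fun x => (1 - δ) * a x + δ * f x) x = sm ε a x * (1 + u x) := by
    intro x
    have := (hbpos x).ne'
    simp only [hu]
    rw [mul_add, mul_one, ← mul_assoc, mul_comm (sm ε a x) (δ * (1 - ε)), mul_assoc,
      mul_div_cancel₀ _ this]
    unfold sm; ring
  have hfa : ∀ x, |f x - a x| ≤ 1 := by
    intro x
    rw [abs_le]
    constructor <;> linarith [h.nonneg f hf x, h.nonneg a ha x, h.le_one f hf x, h.le_one a ha x]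
  have hub : ∀ x, |u x| ≤ δ / ε := by
    intro x
    simp only [hu]
    rw [abs_mul, abs_div, abs_of_pos (hbpos x), abs_of_pos (mul_pos hδ0 h1')]
    have h3 : |f x - a x| / sm ε a x ≤ 1 / ε :=
      div_le_div₀ zero_le_one (hfa x) h0 (sm_ge h h1.le ha x)
    calc δ * (1 - ε) * (|f x - a x| / sm ε a x) ≤ δ * 1 * (1 / ε) := by
          refine mul_le_mul (mul_le_mul_of_nonneg_left (by linarith) hδ0.le) h3
            (div_nonneg (abs_nonneg _) (hbpos x).le) (by linarith)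
      _ = δ / ε := by ring
  have hδε : δ / ε ≤ 1 / 2 := by
    rw [div_le_iff₀ h0]; linarith
  have hpt : ∀ x, Real.log (sm ε a x) + (u x - 2 * (δ / ε) ^ 2)
      ≤ Real.log (sm ε (fun x => (1 - δ) * a x + δ * f x) x) := by
    intro x
    have hux := (hub x).trans hδε
    have h2 : 0 < 1 + u x := by linarith [(abs_le.mp hux).1]
    rw [hsm x, Real.log_mul (hbpos x).ne' h2.ne']
    have h3 := log_one_add_ge hux
    have h4 : (u x) ^ 2 ≤ (δ / ε) ^ 2 := by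
      rw [← sq_abs]; exact pow_le_pow_left₀ (abs_nonneg _) (hub x) 2
    linarith
  have hui : Integrable u π := Integrable.of_bound hum.aestronglyMeasurable (δ / ε)
    (ae_of_all _ (fun x => by rw [Real.norm_eq_abs]; exact hub x))
  have hli := log_int h π h0 h1.le ha
  have hint : (FF π ε a) + ((∫ x, u x ∂π) - 2 * (δ / ε) ^ 2) ≤ SS π 𝓒 ε := by
    have e1 : ∫ x, (u x - 2 * (δ / ε) ^ 2) ∂π = (∫ x, u x ∂π) - 2 * (δ / ε) ^ 2 := by
      rw [integral_sub hui (integrable_const _)]; simp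
    have e2 : ∫ x, (Real.log (sm ε a x) + (u x - 2 * (δ / ε) ^ 2)) ∂π
        = FF π ε a + ((∫ x, u x ∂π) - 2 * (δ / ε) ^ 2) := by
      rw [← e1]
      exact integral_add hli (hui.sub (integrable_const _))
    rw [← e2]
    exact (integral_mono (hli.add (hui.sub (integrable_const _)))
      (log_int h π h0 h1.le hmem) hpt).trans (FF_le_SS h π h0 h1.le hmem)
  have hfb : Integrable (fun x => f x / sm ε a x) π := by
    refine Integrable.of_bound (hfm.div hbm).aestronglyMeasurable (1 / ε)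
      (ae_of_all _ (fun x => ?_))
    rw [Real.norm_eq_abs, abs_div, abs_of_pos (hbpos x), abs_of_nonneg (h.nonneg f hf x)]
    exact div_le_div₀ zero_le_one (h.le_one f hf x) h0 (sm_ge h h1.le ha x)
  have hab : Integrable (fun x => a x / sm ε a x) π := by
    refine Integrable.of_bound (ham.div hbm).aestronglyMeasurable (1 / ε)
      (ae_of_all _ (fun x => ?_))
    rw [Real.norm_eq_abs, abs_div, abs_of_pos (hbpos x), abs_of_nonneg (h.nonneg a ha x)]
    exact div_le_div₀ zero_le_one (h.le_one a ha x) h0 (sm_ge h h1.le ha x)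
  have hueq : ∫ x, u x ∂π = δ * (1 - ε) *
      ((∫ x, f x / sm ε a x ∂π) - ∫ x, a x / sm ε a x ∂π) := by
    rw [← integral_sub hfb hab, ← integral_const_mul]
    refine integral_congr_ae (ae_of_all _ (fun x => ?_))
    simp only [hu, sub_div]
  have ha1 : ∫ x, a x / sm ε a x ∂π ≤ 1 := by
    have : ∫ x, a x / sm ε a x ∂π ≤ ∫ _, (1 : ℝ) ∂π := by
      refine integral_mono hab (integrable_const _) (fun x => ?_)
      simp only
      rw [div_le_one (hbpos x)]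
      have := mul_le_mul_of_nonneg_left (h.le_one a ha x) h0.le
      unfold sm; linarith
    simpa using this
  have h5 : δ * (1 - ε) * ((∫ x, f x / sm ε a x ∂π) - ∫ x, a x / sm ε a x ∂π)
      ≤ δ ^ 2 * (1 + 2 / ε ^ 2) := by
    rw [← hueq]
    have : δ ^ 2 * (1 + 2 / ε ^ 2) = δ ^ 2 + 2 * (δ / ε) ^ 2 := by
      rw [div_pow]; ring
    rw [this]
    linarith
  have h6 : (∫ x, f x / sm ε a x ∂π) - ∫ x, a x / sm ε a x ∂π
      ≤ δ * (1 + 2 / ε ^ 2) / (1 - ε) := by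
    rw [le_div_iff₀ h1']
    have h7 : δ * (((∫ x, f x / sm ε a x ∂π) - ∫ x, a x / sm ε a x ∂π) * (1 - ε))
        ≤ δ * (δ * (1 + 2 / ε ^ 2)) := by
      calc _ = δ * (1 - ε) * ((∫ x, f x / sm ε a x ∂π) - ∫ x, a x / sm ε a x ∂π) := by ring
        _ ≤ _ := h5
        _ = _ := by ring
    exact le_of_mul_le_mul_left h7 hδ0
  linarith

end

end CovEnt
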