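import Mathlib
import Pool.Agent.Q243.CESmooth

/-!
From smoothed near-maximisers to one countable mixture with nearly optimal `-log` integral.
-/

namespace CovEnt

open MeasureTheory ENNReal Filter Topology

/-- `-log y` with values in `[0,∞]` (equal to `∞` at `0`, truncated at `0` for `y > 1`) -/
noncomputable def negLog (y : ℝ≥0∞) : ℝ≥0∞ := (-(ENNReal.log y)).toENNReal

lemma negLog_anti {x y : ℝ≥0∞} (h : x ≤ y) : negLog y ≤ negLog x :=
  EReal.toENNReal_le_toENNReal (EReal.neg_le_neg_iff.mpr (ENNReal.log_monotone h))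

lemma negLog_cont : Continuous negLog :=
  EReal.continuous_toENNReal.comp (continuous_neg.comp ENNReal.continuous_log)

lemma negLog_ofReal {y : ℝ} (hy : 0 < y) :
    negLog (ENNReal.ofReal y) = ENNReal.ofReal (-Real.log y) := by
  unfold negLog
  rw [ENNReal.log_ofReal_of_pos hy, ← EReal.coe_neg, EReal.toENNReal_of_ne_top (EReal.coe_ne_top _),
    EReal.toReal_coe]

lemma negLog_zero : negLog 0 = ⊤ := by
  unfold negLog
  simp

lemma log_mid {x y : ℝ} (hx : 0 < x) (hy : 0 < y) (hx1 : x ≤ 1) (hy1 : y ≤ 1) :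
    1 / 2 * Real.log x + 1 / 2 * Real.log y + (x - y) ^ 2 / 8 ≤ Real.log ((x + y) / 2) := by
  have hs : 0 < (x + y) / 2 := by linarith
  have hs1 : (x + y) / 2 ≤ 1 := by linarith
  have hz : 0 < x * y / ((x + y) / 2) ^ 2 := by positivity
  have h1 := Real.log_le_sub_one_of_pos hz
  rw [Real.log_div (by positivity) (by positivity), Real.log_mul hx.ne' hy.ne', Real.log_pow] at h1
  have h2 : x * y / ((x + y) / 2) ^ 2 - 1 ≤ -((x - y) ^ 2 / 4) := by
    rw [sub_le_iff_le_add, div_le_iff₀ (by positivity)]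
    have h3 : ((x + y) / 2) ^ 2 ≤ 1 := by nlinarith
    nlinarith [mul_nonneg (sq_nonneg (x - y)) (sub_nonneg.mpr h3)]
  push_cast at h1
  linarith

variable {Ω : Type*} [MeasurableSpace Ω] {𝓒 : Set (Ω → ℝ)} (h : Good 𝓒)
  (π : Measure Ω) [IsProbabilityMeasure π]

include h

lemma mid_le {e e' : ℝ} (he0 : 0 < e) (he1 : e < 1) (he0' : 0 < e') (he1' : e' < 1)
    {a a' : Ω → ℝ} (ha : a ∈ 𝓒) (ha' : a' ∈ 𝓒) :
    1 / 2 * FF π e a + 1 / 2 * FF π e' a' + (∫ x, (sm e a x - sm e' a' x) ^ 2 ∂π) / 8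
      ≤ SS π 𝓒 (max e e') := by
  set E := max e e' with hE
  have hE0 : 0 < E := lt_max_of_lt_left he0
  have hE1 : E < 1 := max_lt he1 he1'
  have hmem : (fun x => (1 - 1 / 2) * a x + 1 / 2 * a' x) ∈ 𝓒 :=
    h.mix ha ha' (by norm_num) (by norm_num)
  have hpt : ∀ x, 1 / 2 * Real.log (sm e a x) + 1 / 2 * Real.log (sm e' a' x)
      + (sm e a x - sm e' a' x) ^ 2 / 8
      ≤ Real.log (sm E (fun x => (1 - 1 / 2) * a x + 1 / 2 * a' x) x) := by
    intro x
    have p1 := sm_ge h he1.le ha x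
    have p2 := sm_ge h he1'.le ha' x
    refine (log_mid (he0.trans_le p1) (he0'.trans_le p2) (sm_le h he1.le ha x)
      (sm_le h he1'.le ha' x)).trans ?_
    refine Real.log_le_log (by linarith) ?_
    have q1 := sm_mono h (le_max_left e e') ha x
    have q2 := sm_mono h (le_max_right e e') ha' x
    rw [← hE] at q1 q2
    have q3 : sm E (fun x => (1 - 1 / 2) * a x + 1 / 2 * a' x) x
        = (sm E a x + sm E a' x) / 2 := by
      unfold sm; ring
    rw [q3]; linarith
  have i1 := (log_int h π he0 he1.le ha).const_mul (1 / 2)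
  have i2 := (log_int h π he0' he1'.le ha').const_mul (1 / 2)
  have i3 : Integrable (fun x => (sm e a x - sm e' a' x) ^ 2 / 8) π := by
    refine Integrable.of_bound
      ((((sm_meas h ha).sub (sm_meas h ha')).pow_const 2).div_const 8).aestronglyMeasurable
      1 (ae_of_all _ (fun x => ?_))
    rw [Real.norm_eq_abs, abs_of_nonneg (by positivity)]
    have p1 := sm_ge h he1.le ha x
    have p2 := sm_ge h he1'.le ha' x
    have p3 := sm_le h he1.le ha x
    have p4 := sm_le h he1'.le ha' x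
    nlinarith
  have e1 : ∫ x, (1 / 2 * Real.log (sm e a x) + 1 / 2 * Real.log (sm e' a' x)
      + (sm e a x - sm e' a' x) ^ 2 / 8) ∂π
      = 1 / 2 * FF π e a + 1 / 2 * FF π e' a' + (∫ x, (sm e a x - sm e' a' x) ^ 2 ∂π) / 8 := by
    have e2 : ∫ x, (1 / 2 * Real.log (sm e a x) + 1 / 2 * Real.log (sm e' a' x)
      + (sm e a x - sm e' a' x) ^ 2 / 8) ∂π
      = (∫ x, (1 / 2 * Real.log (sm e a x) + 1 / 2 * Real.log (sm e' a' x)) ∂π)
        + ∫ x, (sm e a x - sm e' a' x) ^ 2 / 8 ∂π := integral_add (i1.add i2) i3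
    have e3 : (∫ x, (1 / 2 * Real.log (sm e a x) + 1 / 2 * Real.log (sm e' a' x)) ∂π)
        = (∫ x, 1 / 2 * Real.log (sm e a x) ∂π) + ∫ x, 1 / 2 * Real.log (sm e' a' x) ∂π :=
      integral_add i1 i2
    rw [e2, e3, integral_const_mul, integral_const_mul, integral_div]
    rfl
  rw [← e1]
  exact (integral_mono ((i1.add i2).add i3) (log_int h π hE0 hE1.le hmem) hpt).trans
    (FF_le_SS h π hE0 hE1.le hmem)

/-- existence of the limit of smoothed near-maximisers -/
lemma exists_limit {L : ℝ} (hL : ∀ ε, 0 < ε → ε < 1 → -L ≤ SS π 𝓒 ε) :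
    ∃ (a : ℕ → Ω → ℝ) (b : Ω → ℝ), (∀ n, a n ∈ 𝓒) ∧ Measurable b ∧
      (∀ᵐ x ∂π, Tendsto (fun n => a n x) atTop (𝓝 (b x))) ∧ (∀ᵐ x ∂π, 0 < b x) ∧
      ∫⁻ x, negLog (ENNReal.ofReal (b x)) ∂π ≤ ENNReal.ofReal L := by
  set T : Set ℝ := SS π 𝓒 '' Set.Ioo 0 1 with hT
  have hTne : T.Nonempty := ⟨_, 1 / 2, ⟨by norm_num, by norm_num⟩, rfl⟩
  have hTb : BddBelow T := ⟨-L, by rintro _ ⟨ε, hε, rfl⟩; exact hL ε hε.1 hε.2⟩
  set S := sInf T with hS
  have hSle : ∀ ε, 0 < ε → ε < 1 → S ≤ SS π 𝓒 ε := fun ε h0 h1 => csInf_le hTb ⟨ε, ⟨h0, h1⟩, rfl⟩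
  have hex : ∀ n : ℕ, ∃ e : ℝ, 0 < e ∧ e < 1 ∧ e ≤ (1 / 2) ^ (n + 1) ∧
      SS π 𝓒 e ≤ S + (1 / 4) ^ n := by
    intro n
    obtain ⟨_, ⟨ε, hε, rfl⟩, h2⟩ := exists_lt_of_csInf_lt hTne
      (show sInf T < S + (1 / 4) ^ n by rw [← hS]; linarith [show (0 : ℝ) < (1 / 4) ^ n by positivity])
    have hpos : (0 : ℝ) < (1 / 2) ^ (n + 1) := by positivity
    refine ⟨min ε ((1 / 2) ^ (n + 1)), lt_min hε.1 hpos, (min_le_left _ _).trans_lt hε.2,
      min_le_right _ _, ?_⟩
    exact (SS_mono h π (lt_min hε.1 hpos) (min_le_left _ _) hε.2.le).trans h2.le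
  choose e he0 he1 he2 he3 using hex
  have hex2 : ∀ n : ℕ, ∃ f ∈ 𝓒, SS π 𝓒 (e n) - (1 / 4) ^ n ≤ FF π (e n) f :=
    fun n => exists_near h π (by positivity)
  choose a ha hFFa using hex2
  set b : ℕ → Ω → ℝ := fun n => sm (e n) (a n) with hb
  have hbm : ∀ n, Measurable (b n) := fun n => sm_meas h (ha n)
  have hbge : ∀ n x, e n ≤ b n x := fun n x => sm_ge h (he1 n).le (ha n) x
  have hble : ∀ n x, b n x ≤ 1 := fun n x => sm_le h (he1 n).le (ha n) x
  have hpow : ∀ {N n : ℕ}, N ≤ n → ((1 : ℝ) / 4) ^ n ≤ (1 / 4) ^ N := fun hn =>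
    pow_le_pow_of_le_one (by norm_num) (by norm_num) hn
  -- L² closeness
  have hsq : ∀ N n m : ℕ, N ≤ n → N ≤ m → ∫ x, (b n x - b m x) ^ 2 ∂π ≤ 16 * (1 / 4) ^ N := by
    intro N n m hn hm
    have h1 := mid_le h π (he0 n) (he1 n) (he0 m) (he1 m) (ha n) (ha m)
    have h2 : SS π 𝓒 (max (e n) (e m)) ≤ S + (1 / 4) ^ N := by
      rcases max_choice (e n) (e m) with h' | h' <;> rw [h']
      · exact (he3 n).trans (by linarith [hpow hn])
      · exact (he3 m).trans (by linarith [hpow hm])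
    have h3 := hFFa n
    have h4 := hFFa m
    have h5 := hSle (e n) (he0 n) (he1 n)
    have h6 := hSle (e m) (he0 m) (he1 m)
    have h7 := hpow hn
    have h8 := hpow hm
    have h9 : (∫ x, (b n x - b m x) ^ 2 ∂π) / 8 ≤ 2 * (1 / 4) ^ N := by
      simp only [hb]
      linarith
    linarith
  have hd1 : ∀ n m x, |b n x - b m x| ≤ 1 := by
    intro n m x
    rw [abs_le]
    constructor <;> linarith [hbge n x, hbge m x, hble n x, hble m x, he0 n, he0 m]
  have hdi : ∀ n m, Integrable (fun x => b n x - b m x) π := by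
    intro n m
    refine Integrable.of_bound ((hbm n).sub (hbm m)).aestronglyMeasurable 1
      (ae_of_all _ (fun x => ?_))
    rw [Real.norm_eq_abs]; exact hd1 n m x
  have hdi2 : ∀ n m, Integrable (fun x => (b n x - b m x) ^ 2) π := by
    intro n m
    refine Integrable.of_bound (((hbm n).sub (hbm m)).pow_const 2).aestronglyMeasurable 1
      (ae_of_all _ (fun x => ?_))
    rw [Real.norm_eq_abs, abs_of_nonneg (sq_nonneg _), ← sq_abs]
    exact pow_le_one₀ (abs_nonneg _) (hd1 n m x)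
  have hL1 : ∀ N n m : ℕ, N ≤ n → N ≤ m → ∫ x, |b n x - b m x| ∂π ≤ 9 * (1 / 2) ^ N - (1 / 2) ^ (N + 1) := by
    intro N n m hn hm
    set κ : ℝ := (1 / 2) ^ N with hκ
    have hκ0 : 0 < κ := by positivity
    have hκ2 : (1 / 4 : ℝ) ^ N = κ ^ 2 := by
      rw [hκ, ← pow_mul, mul_comm, pow_mul]; norm_num
    have hpt : ∀ x, |b n x - b m x| ≤ κ / 2 + 1 / (2 * κ) * (b n x - b m x) ^ 2 := by
      intro x
      have h1 : 0 ≤ (|b n x - b m x| - κ) ^ 2 := sq_nonneg _
      have h2 : |b n x - b m x| ^ 2 = (b n x - b m x) ^ 2 := sq_abs _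
      have h3 : 2 * κ * |b n x - b m x| ≤ κ ^ 2 + (b n x - b m x) ^ 2 := by nlinarith
      have h4 : κ / 2 + 1 / (2 * κ) * (b n x - b m x) ^ 2
          = (κ ^ 2 + (b n x - b m x) ^ 2) / (2 * κ) := by field_simp
      rw [h4, le_div_iff₀ (by positivity)]
      linarith
    have h5 : ∫ x, (κ / 2 + 1 / (2 * κ) * (b n x - b m x) ^ 2) ∂π
        = κ / 2 + 1 / (2 * κ) * ∫ x, (b n x - b m x) ^ 2 ∂π := by
      have : ∫ x, (κ / 2 + 1 / (2 * κ) * (b n x - b m x) ^ 2) ∂π
          = (∫ _, κ / 2 ∂π) + ∫ x, 1 / (2 * κ) * (b n x - b m x) ^ 2 ∂π :=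
        integral_add (integrable_const _) ((hdi2 n m).const_mul _)
      rw [this, integral_const_mul]
      simp
    have h6 : ∫ x, |b n x - b m x| ∂π ≤ κ / 2 + 1 / (2 * κ) * ∫ x, (b n x - b m x) ^ 2 ∂π := by
      rw [← h5]
      exact integral_mono (hdi n m).abs
        ((integrable_const _).add ((hdi2 n m).const_mul _)) hpt
    have h7 := hsq N n m hn hm
    rw [hκ2] at h7
    have h8 : 1 / (2 * κ) * ∫ x, (b n x - b m x) ^ 2 ∂π ≤ 1 / (2 * κ) * (16 * κ ^ 2) :=
      mul_le_mul_of_nonneg_left h7 (by positivity)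
    have h9 : 1 / (2 * κ) * (16 * κ ^ 2) = 8 * κ := by field_simp; ring
    have h10 : (1 / 2 : ℝ) ^ (N + 1) = κ / 2 := by rw [pow_succ, ← hκ]; ring
    rw [h10]
    linarith
  -- almost everywhere convergence
  have hcau : ∀ᵐ x ∂π, ∃ l : ℝ, Tendsto (fun n => b n x) atTop (𝓝 l) := by
    refine Lp.ae_tendsto_of_cauchy_eLpNorm (p := 1) (fun n => (hbm n).aestronglyMeasurable) le_rfl
      (B := fun N => ENNReal.ofReal (9 * (1 / 2) ^ N)) ?_ ?_
    · rw [← ENNReal.ofReal_tsum_of_nonneg (fun n => by positivity)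
        ((summable_geometric_of_lt_one (by norm_num) (by norm_num)).mul_left 9)]
      exact ENNReal.ofReal_ne_top
    · intro N n m hn hm
      have h1 : eLpNorm (b n - b m) 1 π = ENNReal.ofReal (∫ x, |b n x - b m x| ∂π) := by
        rw [eLpNorm_one_eq_lintegral_enorm]
        have := ofReal_integral_norm_eq_lintegral_enorm (hdi n m)
        simp only [Real.norm_eq_abs] at this
        rw [this]
        rfl
      rw [h1]
      refine (ENNReal.ofReal_lt_ofReal_iff (by positivity)).mpr ?_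
      have := hL1 N n m hn hm
      have h2 : (0 : ℝ) < (1 / 2) ^ (N + 1) := by positivity
      linarith
  obtain ⟨b', hb'm, hb'⟩ := measurable_limit_of_tendsto_metrizable_ae
    (fun n => (hbm n).aemeasurable) hcau
  -- Fatou
  have hnm : ∀ n, Measurable (fun x => negLog (ENNReal.ofReal (b n x))) := fun n =>
    negLog_cont.measurable.comp (hbm n).ennreal_ofReal
  have hval : ∀ n, ∫⁻ x, negLog (ENNReal.ofReal (b n x)) ∂π
      ≤ ENNReal.ofReal (L + (1 / 4) ^ n) := by
    intro n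
    have h1 : ∫⁻ x, negLog (ENNReal.ofReal (b n x)) ∂π
        = ENNReal.ofReal (∫ x, -Real.log (b n x) ∂π) := by
      rw [ofReal_integral_eq_lintegral_ofReal]
      · exact lintegral_congr (fun x => negLog_ofReal ((he0 n).trans_le (hbge n x)))
      · exact (log_int h π (he0 n) (he1 n).le (ha n)).neg
      · refine ae_of_all _ (fun x => ?_)
        have := Real.log_nonpos ((he0 n).le.trans (hbge n x)) (hble n x)
        simp only [Pi.zero_apply]
        linarith
    rw [h1]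
    refine ENNReal.ofReal_le_ofReal ?_
    rw [integral_neg]
    have h2 : ∫ x, Real.log (b n x) ∂π = FF π (e n) (a n) := rfl
    rw [h2]
    linarith [hFFa n, hL (e n) (he0 n) (he1 n)]
  have hfatou : ∫⁻ x, negLog (ENNReal.ofReal (b' x)) ∂π ≤ ENNReal.ofReal L := by
    have h1 : ∫⁻ x, negLog (ENNReal.ofReal (b' x)) ∂π
        = ∫⁻ x, liminf (fun n => negLog (ENNReal.ofReal (b n x))) atTop ∂π := by
      refine lintegral_congr_ae ?_
      filter_upwards [hb'] with x hx
      have : Tendsto (fun n => negLog (ENNReal.ofReal (b n x))) atTop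
          (𝓝 (negLog (ENNReal.ofReal (b' x)))) :=
        (negLog_cont.tendsto _).comp ((ENNReal.continuous_ofReal.tendsto _).comp hx)
      exact this.liminf_eq.symm
    rw [h1]
    refine (lintegral_liminf_le hnm).trans ?_
    have h2 : Tendsto (fun n : ℕ => ENNReal.ofReal (L + (1 / 4) ^ n)) atTop
        (𝓝 (ENNReal.ofReal L)) := by
      refine (ENNReal.continuous_ofReal.tendsto _).comp ?_
      have := (tendsto_pow_atTop_nhds_zero_of_lt_one (r := (1 / 4 : ℝ)) (by norm_num)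
        (by norm_num)).const_add L
      simpa using this
    rw [← h2.liminf_eq]
    exact liminf_le_liminf (Eventually.of_forall hval)
  refine ⟨a, b', ha, hb'm, ?_, ?_, hfatou⟩
  · filter_upwards [hb'] with x hx
    have h1 : Tendsto (fun n => b n x - a n x) atTop (𝓝 0) := by
      refine squeeze_zero (g := fun n : ℕ => (1 / 2 : ℝ) ^ (n + 1)) (fun n => ?_) (fun n => ?_) ?_
      · have := mul_nonneg (he0 n).le (sub_nonneg.mpr (h.le_one (a n) (ha n) x))
        simp only [hb, sm]; linarith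
      · refine le_trans ?_ (he2 n)
        have := mul_nonneg (he0 n).le (h.nonneg (a n) (ha n) x)
        simp only [hb, sm]; linarith
      · exact (tendsto_pow_atTop_nhds_zero_of_lt_one (r := (1 / 2 : ℝ)) (by norm_num)
          (by norm_num)).comp (tendsto_add_atTop_nat 1)
    have h2 := hx.sub h1
    simpa using h2
  · have hfin : ∫⁻ x, negLog (ENNReal.ofReal (b' x)) ∂π ≠ ⊤ :=
      ne_top_of_le_ne_top ENNReal.ofReal_ne_top hfatou
    have hlt := ae_lt_top (negLog_cont.measurable.comp hb'm.ennreal_ofReal) hfin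
    filter_upwards [hlt] with x hx
    by_contra hneg
    rw [not_lt] at hneg
    have : negLog (ENNReal.ofReal (b' x)) = ⊤ := by
      rw [ENNReal.ofReal_of_nonpos hneg, negLog_zero]
    simp only [Function.comp] at hx
    rw [this] at hx
    exact lt_irrefl _ hx

end CovEnt
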