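import Mathlib
import Pool.Agent.Q243.CELimit

/-!
One countable mixture with nearly optimal `-log` integral.
-/

namespace CovEnt

open MeasureTheory ENNReal Filter Topology

variable {Ω : Type*} [MeasurableSpace Ω] {𝓒 : Set (Ω → ℝ)} (h : Good 𝓒)
  (π : Measure Ω) [IsProbabilityMeasure π]

include h

lemma mixture_aux {δ : ℝ} (hδ0 : 0 < δ) (hδ1 : δ < 1)
    {a : ℕ → Ω → ℝ} (ha : ∀ n, a n ∈ 𝓒) {b : Ω → ℝ} {x : Ω} (hbx : 0 < b x) :
    negLog (ENNReal.ofReal (∑' k, (1 - δ) * δ ^ k * a k x)) ≤
      negLog (ENNReal.ofReal (b x)) + ENNReal.ofReal (-(2 * Real.log (1 - δ))) +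
        ENNReal.ofReal (-Real.log δ) *
          ∑' k, ({x | a k x < (1 - δ) * b x} : Set Ω).indicator (1 : Ω → ℝ≥0∞) x := by
  have hδ1' : 0 < 1 - δ := by linarith
  have hlogδ : 0 < -Real.log δ := by linarith [Real.log_neg hδ0 hδ1]
  by_cases hex : ∃ k, (1 - δ) * b x ≤ a k x
  · classical
    set k0 := Nat.find hex with hk0
    have hk0s : (1 - δ) * b x ≤ a k0 x := Nat.find_spec hex
    have hlt : ∀ k < k0, a k x < (1 - δ) * b x := fun k hk => not_le.mp (Nat.find_min hex hk)
    have hsum : (k0 : ℝ≥0∞) ≤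
        ∑' k, ({x | a k x < (1 - δ) * b x} : Set Ω).indicator (1 : Ω → ℝ≥0∞) x := by
      calc (k0 : ℝ≥0∞) = ∑ k ∈ Finset.range k0,
            ({x | a k x < (1 - δ) * b x} : Set Ω).indicator (1 : Ω → ℝ≥0∞) x := by
            rw [Finset.sum_congr rfl (g := fun _ => (1 : ℝ≥0∞))]
            · simp
            · intro k hk
              rw [Set.indicator_of_mem]
              · rfl
              · exact hlt k (Finset.mem_range.mp hk)
        _ ≤ _ := ENNReal.sum_le_tsum _
    have hsm : Summable (fun k => (1 - δ) * δ ^ k * a k x) := by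
      refine Summable.of_nonneg_of_le (fun k => ?_) (fun k => ?_)
        ((summable_geometric_of_lt_one hδ0.le hδ1).mul_left (1 - δ))
      · exact mul_nonneg (by positivity) (h.nonneg _ (ha k) x)
      · exact mul_le_of_le_one_right (by positivity) (h.le_one _ (ha k) x)
    have hlow : (1 - δ) ^ 2 * δ ^ k0 * b x ≤ ∑' k, (1 - δ) * δ ^ k * a k x := by
      have h1 : (1 - δ) * δ ^ k0 * a k0 x ≤ ∑' k, (1 - δ) * δ ^ k * a k x :=
        hsm.le_tsum k0 (fun j _ => mul_nonneg (by positivity) (h.nonneg _ (ha j) x))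
      have h2 : (1 - δ) * δ ^ k0 * ((1 - δ) * b x) ≤ (1 - δ) * δ ^ k0 * a k0 x :=
        mul_le_mul_of_nonneg_left hk0s (by positivity)
      calc _ = (1 - δ) * δ ^ k0 * ((1 - δ) * b x) := by ring
        _ ≤ _ := h2
        _ ≤ _ := h1
    have hpos : 0 < (1 - δ) ^ 2 * δ ^ k0 * b x := by positivity
    refine (negLog_anti (ENNReal.ofReal_le_ofReal hlow)).trans ?_
    rw [negLog_ofReal hpos, negLog_ofReal hbx, Real.log_mul (by positivity) hbx.ne',
      Real.log_mul (by positivity) (by positivity), Real.log_pow, Real.log_pow]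
    have e : -(((2 : ℕ) : ℝ) * Real.log (1 - δ) + (k0 : ℝ) * Real.log δ + Real.log (b x))
        = -Real.log (b x) + -(2 * Real.log (1 - δ)) + (-Real.log δ) * (k0 : ℝ) := by
      push_cast; ring
    rw [e]
    refine ENNReal.ofReal_add_le.trans (add_le_add ENNReal.ofReal_add_le ?_)
    rw [ENNReal.ofReal_mul hlogδ.le, ENNReal.ofReal_natCast]
    exact mul_le_mul_right hsum _
  · push Not at hex
    have : ∑' k, ({x | a k x < (1 - δ) * b x} : Set Ω).indicator (1 : Ω → ℝ≥0∞) x = ⊤ := by
      have e : (fun k => ({x | a k x < (1 - δ) * b x} : Set Ω).indicator (1 : Ω → ℝ≥0∞) x)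
          = fun _ => 1 := by
        funext k
        rw [Set.indicator_of_mem]
        · rfl
        · exact hex k
      rw [e]
      exact ENNReal.tsum_const_eq_top_of_ne_zero one_ne_zero
    rw [this, ENNReal.mul_top (ENNReal.ofReal_pos.mpr hlogδ).ne', add_top]
    exact le_top

/-- If all smoothed suprema are at least `-L`, some member of the family has
`-log` integral at most `L + γ`. -/
theorem exists_good {L : ℝ} (hL : ∀ ε, 0 < ε → ε < 1 → -L ≤ SS π 𝓒 ε) {γ : ℝ} (hγ : 0 < γ) :
    ∃ a ∈ 𝓒, ∫⁻ x, negLog (ENNReal.ofReal (a x)) ∂π ≤ ENNReal.ofReal (L + γ) := by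
  have hL0 : 0 ≤ L := by
    have h1 := hL (1 / 2) (by norm_num) (by norm_num)
    have h2 := SS_le_zero h π (ε := 1 / 2) (by norm_num) (by norm_num)
    linarith
  obtain ⟨a, b, ha, hbm, htend, hbpos, hphi⟩ := exists_limit h π hL
  set δ : ℝ := 1 - Real.exp (-(γ / 4)) with hδ
  have hexp1 : Real.exp (-(γ / 4)) < 1 := by
    rw [Real.exp_lt_one_iff]; linarith
  have hδ0 : 0 < δ := by rw [hδ]; linarith
  have hδ1 : δ < 1 := by rw [hδ]; linarith [Real.exp_pos (-(γ / 4))]
  have hδ1' : 0 < 1 - δ := by linarith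
  have hlog1 : Real.log (1 - δ) = -(γ / 4) := by
    rw [hδ, _root_.sub_sub_cancel, Real.log_exp]
  have hlogδ : 0 < -Real.log δ := by linarith [Real.log_neg hδ0 hδ1]
  set η : ℝ := (γ / 2) / (-Real.log δ) with hη
  have hη0 : 0 < η := by positivity
  -- the bad sets have small measure
  set E : ℕ → Set Ω := fun n => {x | a n x < (1 - δ) * b x} with hE
  have hEm : ∀ n, MeasurableSet (E n) := fun n =>
    measurableSet_lt (h.meas _ (ha n)) (hbm.const_mul _)
  have hE0 : Tendsto (fun n => π (E n)) atTop (𝓝 0) := by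
    have := tendsto_measure_of_ae_tendsto_indicator_of_isFiniteMeasure (μ := π) atTop
      (A := (∅ : Set Ω)) MeasurableSet.empty hEm (by
        filter_upwards [htend, hbpos] with x hx hbx
        have h1 : (1 - δ) * b x < b x := by nlinarith
        filter_upwards [hx.eventually (lt_mem_nhds h1)] with n hn
        refine iff_of_false (fun hmem => ?_) (Set.notMem_empty x)
        exact absurd hn (not_lt.mpr (le_of_lt hmem)))
    simpa using this
  have hj : ∀ k : ℕ, ∃ j, π (E j) ≤ ENNReal.ofReal (η * (1 / 2) ^ (k + 1)) := by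
    intro k
    have hpos : (0 : ℝ≥0∞) < ENNReal.ofReal (η * (1 / 2) ^ (k + 1)) :=
      ENNReal.ofReal_pos.mpr (by positivity)
    obtain ⟨j, hj⟩ := (hE0.eventually_lt_const hpos).exists
    exact ⟨j, hj.le⟩
  choose j hj using hj
  have hw : HasSum (fun k : ℕ => (1 - δ) * δ ^ k) 1 := by
    have := (hasSum_geometric_of_lt_one hδ0.le hδ1).mul_left (1 - δ)
    rwa [mul_inv_cancel₀ hδ1'.ne'] at this
  refine ⟨fun x => ∑' k, (1 - δ) * δ ^ k * a (j k) x,
    h.conv (fun k => a (j k)) (fun k => (1 - δ) * δ ^ k) (fun k => ha _)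
      (fun k => by positivity) hw, ?_⟩
  have hpt : ∀ᵐ x ∂π, negLog (ENNReal.ofReal (∑' k, (1 - δ) * δ ^ k * a (j k) x)) ≤
      negLog (ENNReal.ofReal (b x)) + ENNReal.ofReal (-(2 * Real.log (1 - δ))) +
        ENNReal.ofReal (-Real.log δ) * ∑' k, (E (j k)).indicator (1 : Ω → ℝ≥0∞) x := by
    filter_upwards [hbpos] with x hbx
    exact mixture_aux h hδ0 hδ1 (a := fun k => a (j k)) (fun k => ha _) hbx
  have m1 : Measurable (fun x => negLog (ENNReal.ofReal (b x))) :=
    negLog_cont.measurable.comp hbm.ennreal_ofReal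
  have m3 : ∀ k, Measurable ((E (j k)).indicator (1 : Ω → ℝ≥0∞)) := fun k =>
    measurable_one.indicator (hEm _)
  calc ∫⁻ x, negLog (ENNReal.ofReal (∑' k, (1 - δ) * δ ^ k * a (j k) x)) ∂π
      ≤ ∫⁻ x, (negLog (ENNReal.ofReal (b x)) + ENNReal.ofReal (-(2 * Real.log (1 - δ))) +
        ENNReal.ofReal (-Real.log δ) * ∑' k, (E (j k)).indicator (1 : Ω → ℝ≥0∞) x) ∂π :=
        lintegral_mono_ae hpt
    _ = (∫⁻ x, negLog (ENNReal.ofReal (b x)) ∂π) + ENNReal.ofReal (-(2 * Real.log (1 - δ))) +
        ENNReal.ofReal (-Real.log δ) * ∑' k, π (E (j k)) := by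
        have e1 : ∫⁻ x, (negLog (ENNReal.ofReal (b x)) + ENNReal.ofReal (-(2 * Real.log (1 - δ)))
            + ENNReal.ofReal (-Real.log δ) * ∑' k, (E (j k)).indicator (1 : Ω → ℝ≥0∞) x) ∂π
            = (∫⁻ x, (negLog (ENNReal.ofReal (b x)) + ENNReal.ofReal (-(2 * Real.log (1 - δ)))) ∂π)
            + ∫⁻ x, ENNReal.ofReal (-Real.log δ) * ∑' k, (E (j k)).indicator (1 : Ω → ℝ≥0∞) x ∂π :=
          lintegral_add_left (m1.add measurable_const) _
        have e2 : ∫⁻ x, (negLog (ENNReal.ofReal (b x)) +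
            ENNReal.ofReal (-(2 * Real.log (1 - δ)))) ∂π
            = (∫⁻ x, negLog (ENNReal.ofReal (b x)) ∂π) +
              ∫⁻ _, ENNReal.ofReal (-(2 * Real.log (1 - δ))) ∂π :=
          lintegral_add_left m1 _
        have e3 : ∫⁻ x, ENNReal.ofReal (-Real.log δ) *
            ∑' k, (E (j k)).indicator (1 : Ω → ℝ≥0∞) x ∂π
            = ENNReal.ofReal (-Real.log δ) *
              ∫⁻ x, ∑' k, (E (j k)).indicator (1 : Ω → ℝ≥0∞) x ∂π :=
          lintegral_const_mul _ (Measurable.tsum m3)
        rw [e1, e2, e3, lintegral_const, measure_univ, mul_one,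
          lintegral_tsum (fun k => (m3 k).aemeasurable)]
        congr 2
        refine tsum_congr (fun k => ?_)
        rw [lintegral_indicator_one (hEm _)]
    _ ≤ ENNReal.ofReal L + ENNReal.ofReal (γ / 2) + ENNReal.ofReal (γ / 2) := by
        refine add_le_add (add_le_add hphi ?_) ?_
        · rw [hlog1]
          exact ENNReal.ofReal_le_ofReal (by linarith)
        · have h1 : ∑' k, π (E (j k)) ≤ ENNReal.ofReal η := by
            calc ∑' k, π (E (j k)) ≤ ∑' k : ℕ, ENNReal.ofReal (η * (1 / 2) ^ (k + 1)) :=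
                  ENNReal.tsum_le_tsum hj
              _ = ENNReal.ofReal (∑' k : ℕ, η * (1 / 2) ^ (k + 1)) := by
                  rw [ENNReal.ofReal_tsum_of_nonneg (fun n => by positivity)]
                  have := ((summable_geometric_of_lt_one (r := (1 / 2 : ℝ)) (by norm_num)
                    (by norm_num)).mul_right (1 / 2)).mul_left η
                  simpa [pow_succ] using this
              _ = ENNReal.ofReal η := by
                  congr 1
                  rw [tsum_mul_left]
                  have : ∑' k : ℕ, (1 / 2 : ℝ) ^ (k + 1) = 1 := by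
                    simp_rw [pow_succ]
                    rw [tsum_mul_right, tsum_geometric_of_lt_one (by norm_num) (by norm_num)]
                    norm_num
                  rw [this, mul_one]
          calc ENNReal.ofReal (-Real.log δ) * ∑' k, π (E (j k))
              ≤ ENNReal.ofReal (-Real.log δ) * ENNReal.ofReal η := mul_le_mul_right h1 _
            _ = ENNReal.ofReal (γ / 2) := by
                rw [← ENNReal.ofReal_mul hlogδ.le]
                congr 1
                rw [hη, mul_div_cancel₀ _ hlogδ.ne']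
    _ = ENNReal.ofReal (L + γ) := by
        rw [← ENNReal.ofReal_add hL0 (by positivity), ← ENNReal.ofReal_add (by positivity)
          (by positivity)]
        congr 1; ring

end CovEnt
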