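import Mathlib

/-!
# Peltesohn's difference triples

For every `n ≥ 100` with `n ≡ 1, 3 (mod 6)` there is a function `b` such that every difference
`1 ≤ d < n / 2`, `d ≠ n / 3`, equals `a`, `b a`, `a + b a` or `n - (a + b a)` for some
`1 ≤ a ≤ n / 6`.
-/

namespace Pool.Agent.Q243.CycSTS

/-- The covering property of difference triples. -/
def Covers (n : ℕ) (b : ℕ → ℕ) : Prop :=
  ∀ d : ℕ, 1 ≤ d → 2 * d < n → 3 * d ≠ n →
    ∃ a : ℕ, 1 ≤ a ∧ a ≤ n / 6 ∧ (d = a ∨ d = b a ∨ d = a + b a ∨ d + (a + b a) = n)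

def b1 (s a : ℕ) : ℕ :=
  if a = 3 * s then 3 * s + 1 else if a % 3 = 1 then 4 * s + 1 - a / 3 else
    if a % 3 = 2 then 8 * s - a / 3 else 6 * s + 1 - 2 * (a / 3)

def b7 (s a : ℕ) : ℕ :=
  if a = 3 * s + 1 then 4 * s + 2 else if a % 3 = 1 then 8 * s + 3 - a / 3 else
    if a % 3 = 2 then 6 * s + 1 - 2 * (a / 3) else 4 * s + 2 - a / 3

def b13 (s a : ℕ) : ℕ :=
  if a = 3 * s + 2 then 7 * s + 5 else if a % 3 = 1 then 4 * s + 3 - a / 3 else
    if a % 3 = 2 then 6 * s + 3 - 2 * (a / 3) else 8 * s + 6 - a / 3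

def b3 (s a : ℕ) : ℕ :=
  if a % 3 = 1 then 8 * s + 1 - a / 3 else
    if a % 3 = 2 then 4 * s - a / 3 else 6 * s + 1 - 2 * (a / 3)

def b9 (s a : ℕ) : ℕ :=
  if a = 2 then 8 * s + 3 else if a = 3 then 8 * s + 1 else if a = 5 then 8 * s + 2 else
    if a = 3 * s - 1 then 3 * s + 2 else if a = 3 * s then 7 * s + 3 else
    if a % 3 = 1 then 4 * s + 3 - a / 3 else
    if a % 3 = 2 then 8 * s + 2 - a / 3 else 6 * s + 3 - 2 * (a / 3)

def b15 (s a : ℕ) : ℕ :=
  if a % 3 = 1 then 4 * s + 3 - a / 3 else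
    if a % 3 = 2 then 8 * s + 6 - a / 3 else 6 * s + 5 - 2 * (a / 3)

lemma covers1 (s : ℕ) (hs : 5 ≤ s) : Covers (18 * s + 1) (b1 s) := by
  intro d h1 h2 h3
  have hk : (18 * s + 1) / 6 = 3 * s := by omega
  rw [hk]
  rcases Nat.lt_or_ge d (3 * s + 1) with h | h
  · exact ⟨d, by omega, by omega, Or.inl rfl⟩
  rcases Nat.lt_or_ge d (3 * s + 2) with h' | h'
  · refine ⟨3 * s, by omega, by omega, Or.inr (Or.inl ?_)⟩
    simp only [b1]; split_ifs <;> omega
  rcases Nat.lt_or_ge d (4 * s + 2) with h4 | h4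
  · refine ⟨3 * (4 * s + 1 - d) + 1, by omega, by omega, Or.inr (Or.inl ?_)⟩
    simp only [b1]; split_ifs <;> omega
  rcases Nat.lt_or_ge d (6 * s + 1) with h5 | h5
  · rcases Nat.even_or_odd' d with ⟨e, he | he⟩
    · refine ⟨3 * ((d - 4 * s - 2) / 2) + 1, by omega, by omega, Or.inr (Or.inr (Or.inl ?_))⟩
      simp only [b1]; split_ifs <;> omega
    · refine ⟨3 * ((6 * s - 1 - d) / 2) + 3, by omega, by omega, Or.inr (Or.inl ?_)⟩
      simp only [b1]; split_ifs <;> omega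
  rcases Nat.lt_or_ge d (6 * s + 2) with h6 | h6
  · refine ⟨3 * s, by omega, by omega, Or.inr (Or.inr (Or.inl ?_))⟩
    simp only [b1]; split_ifs <;> omega
  rcases Nat.lt_or_ge d (7 * s + 1) with h7 | h7
  · refine ⟨3 * (d - 6 * s - 2) + 3, by omega, by omega, Or.inr (Or.inr (Or.inl ?_))⟩
    simp only [b1]; split_ifs <;> omega
  rcases Nat.lt_or_ge d (8 * s + 1) with h8 | h8
  · refine ⟨3 * (8 * s - d) + 2, by omega, by omega, Or.inr (Or.inl ?_)⟩
    simp only [b1]; split_ifs <;> omega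
  · rcases Nat.even_or_odd' d with ⟨e, he | he⟩
    · refine ⟨3 * ((d - 8 * s - 2) / 2) + 2, by omega, by omega, Or.inr (Or.inr (Or.inl ?_))⟩
      simp only [b1]; split_ifs <;> omega
    · refine ⟨3 * ((10 * s - 1 - d) / 2) + 2, by omega, by omega, Or.inr (Or.inr (Or.inr ?_))⟩
      simp only [b1]; split_ifs <;> omega

lemma covers7 (s : ℕ) (hs : 5 ≤ s) : Covers (18 * s + 7) (b7 s) := by
  intro d h1 h2 h3
  have hk : (18 * s + 7) / 6 = 3 * s + 1 := by omega
  rw [hk]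
  rcases Nat.lt_or_ge d (3 * s + 1 + 1) with h | h
  · exact ⟨d, by omega, by omega, Or.inl rfl⟩
  rcases Nat.lt_or_ge d (4 * s + 1 + 1) with g1 | g1
  · refine ⟨3 * (4 * s + 1 - d) + 3, by omega, by omega, Or.inr (Or.inl ?_)⟩
    simp only [b7]; split_ifs <;> omega
  rcases Nat.lt_or_ge d (4 * s + 2 + 1) with g2 | g2
  · refine ⟨3 * s + 1, by omega, by omega, Or.inr (Or.inl ?_)⟩
    simp only [b7]; split_ifs <;> omega
  rcases Nat.lt_or_ge d (6 * s + 2 + 1) with g3 | g3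
  · rcases Nat.even_or_odd' d with ⟨e, he | he⟩
    · refine ⟨3 * ((d - 4 * s - 4) / 2) + 3, by omega, by omega, Or.inr (Or.inr (Or.inl ?_))⟩
      simp only [b7]; split_ifs <;> omega
    · refine ⟨3 * ((6 * s + 1 - d) / 2) + 2, by omega, by omega, Or.inr (Or.inl ?_)⟩
      simp only [b7]; split_ifs <;> omega
  rcases Nat.lt_or_ge d (7 * s + 2 + 1) with g4 | g4
  · refine ⟨3 * (d - 6 * s - 3) + 2, by omega, by omega, Or.inr (Or.inr (Or.inl ?_))⟩
    simp only [b7]; split_ifs <;> omega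
  rcases Nat.lt_or_ge d (7 * s + 3 + 1) with g5 | g5
  · refine ⟨3 * s + 1, by omega, by omega, Or.inr (Or.inr (Or.inl ?_))⟩
    simp only [b7]; split_ifs <;> omega
  rcases Nat.lt_or_ge d (8 * s + 3 + 1) with g6 | g6
  · refine ⟨3 * (8 * s + 3 - d) + 1, by omega, by omega, Or.inr (Or.inl ?_)⟩
    simp only [b7]; split_ifs <;> omega
  · rcases Nat.even_or_odd' d with ⟨e, he | he⟩
    · refine ⟨3 * ((d - 8 * s - 4) / 2) + 1, by omega, by omega, Or.inr (Or.inr (Or.inl ?_))⟩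
      simp only [b7]; split_ifs <;> omega
    · refine ⟨3 * ((10 * s + 3 - d) / 2) + 1, by omega, by omega, Or.inr (Or.inr (Or.inr ?_))⟩
      simp only [b7]; split_ifs <;> omega

lemma covers13 (s : ℕ) (hs : 5 ≤ s) : Covers (18 * s + 13) (b13 s) := by
  intro d h1 h2 h3
  have hk : (18 * s + 13) / 6 = 3 * s + 2 := by omega
  rw [hk]
  rcases Nat.lt_or_ge d (3 * s + 2 + 1) with h | h
  · exact ⟨d, by omega, by omega, Or.inl rfl⟩
  rcases Nat.lt_or_ge d (4 * s + 3 + 1) with g1 | g1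
  · refine ⟨3 * (4 * s + 3 - d) + 1, by omega, by omega, Or.inr (Or.inl ?_)⟩
    simp only [b13]; split_ifs <;> omega
  rcases Nat.lt_or_ge d (6 * s + 4 + 1) with g2 | g2
  · rcases Nat.even_or_odd' d with ⟨e, he | he⟩
    · refine ⟨3 * ((d - 4 * s - 4) / 2) + 1, by omega, by omega, Or.inr (Or.inr (Or.inl ?_))⟩
      simp only [b13]; split_ifs <;> omega
    · refine ⟨3 * ((6 * s + 3 - d) / 2) + 2, by omega, by omega, Or.inr (Or.inl ?_)⟩
      simp only [b13]; split_ifs <;> omega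
  rcases Nat.lt_or_ge d (7 * s + 4 + 1) with g3 | g3
  · refine ⟨3 * (d - 6 * s - 5) + 2, by omega, by omega, Or.inr (Or.inr (Or.inl ?_))⟩
    simp only [b13]; split_ifs <;> omega
  rcases Nat.lt_or_ge d (7 * s + 5 + 1) with g4 | g4
  · refine ⟨3 * s + 2, by omega, by omega, Or.inr (Or.inl ?_)⟩
    simp only [b13]; split_ifs <;> omega
  rcases Nat.lt_or_ge d (8 * s + 5 + 1) with g5 | g5
  · refine ⟨3 * (8 * s + 5 - d) + 3, by omega, by omega, Or.inr (Or.inl ?_)⟩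
    simp only [b13]; split_ifs <;> omega
  rcases Nat.lt_or_ge d (8 * s + 6 + 1) with g6 | g6
  · refine ⟨3 * s + 2, by omega, by omega, Or.inr (Or.inr (Or.inr ?_))⟩
    simp only [b13]; split_ifs <;> omega
  · rcases Nat.even_or_odd' d with ⟨e, he | he⟩
    · refine ⟨3 * ((d - 8 * s - 8) / 2) + 3, by omega, by omega, Or.inr (Or.inr (Or.inl ?_))⟩
      simp only [b13]; split_ifs <;> omega
    · refine ⟨3 * ((10 * s + 5 - d) / 2) + 3, by omega, by omega, Or.inr (Or.inr (Or.inr ?_))⟩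
      simp only [b13]; split_ifs <;> omega

lemma covers3 (s : ℕ) (hs : 5 ≤ s) : Covers (18 * s + 3) (b3 s) := by
  intro d h1 h2 h3
  have hk : (18 * s + 3) / 6 = 3 * s := by omega
  rw [hk]
  rcases Nat.lt_or_ge d (3 * s + 1) with h | h
  · exact ⟨d, by omega, by omega, Or.inl rfl⟩
  rcases Nat.lt_or_ge d (4 * s + 1) with g1 | g1
  · refine ⟨3 * (4 * s - d) + 2, by omega, by omega, Or.inr (Or.inl ?_)⟩
    simp only [b3]; split_ifs <;> omega
  rcases Nat.lt_or_ge d (6 * s + 1) with g2 | g2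
  · rcases Nat.even_or_odd' d with ⟨e, he | he⟩
    · refine ⟨3 * ((d - 4 * s - 2) / 2) + 2, by omega, by omega, Or.inr (Or.inr (Or.inl ?_))⟩
      simp only [b3]; split_ifs <;> omega
    · refine ⟨3 * ((6 * s - 1 - d) / 2) + 3, by omega, by omega, Or.inr (Or.inl ?_)⟩
      simp only [b3]; split_ifs <;> omega
  rcases Nat.lt_or_ge d (6 * s + 1 + 1) with g3 | g3
  · omega
  rcases Nat.lt_or_ge d (7 * s + 1 + 1) with g4 | g4
  · refine ⟨3 * (d - 6 * s - 2) + 3, by omega, by omega, Or.inr (Or.inr (Or.inl ?_))⟩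
    simp only [b3]; split_ifs <;> omega
  rcases Nat.lt_or_ge d (8 * s + 1 + 1) with g5 | g5
  · refine ⟨3 * (8 * s + 1 - d) + 1, by omega, by omega, Or.inr (Or.inl ?_)⟩
    simp only [b3]; split_ifs <;> omega
  · rcases Nat.even_or_odd' d with ⟨e, he | he⟩
    · refine ⟨3 * ((d - 8 * s - 2) / 2) + 1, by omega, by omega, Or.inr (Or.inr (Or.inl ?_))⟩
      simp only [b3]; split_ifs <;> omega
    · refine ⟨3 * ((10 * s + 1 - d) / 2) + 1, by omega, by omega, Or.inr (Or.inr (Or.inr ?_))⟩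
      simp only [b3]; split_ifs <;> omega

set_option maxHeartbeats 4000000 in
lemma covers9 (s : ℕ) (hs : 5 ≤ s) : Covers (18 * s + 9) (b9 s) := by
  intro d h1 h2 h3
  have hk : (18 * s + 9) / 6 = 3 * s + 1 := by omega
  rw [hk]
  rcases Nat.lt_or_ge d (3 * s + 1 + 1) with h | h
  · exact ⟨d, by omega, by omega, Or.inl rfl⟩
  rcases Nat.lt_or_ge d (3 * s + 2 + 1) with g1 | g1
  · refine ⟨3 * s - 1, by omega, by omega, Or.inr (Or.inl ?_)⟩
    simp only [b9]; split_ifs <;> omega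
  rcases Nat.lt_or_ge d (4 * s + 3 + 1) with g2 | g2
  · refine ⟨3 * (4 * s + 3 - d) + 1, by omega, by omega, Or.inr (Or.inl ?_)⟩
    simp only [b9]; split_ifs <;> omega
  rcases Nat.lt_or_ge d (6 * s + 1) with g3 | g3
  · rcases Nat.even_or_odd' d with ⟨e, he | he⟩
    · refine ⟨3 * ((d - 4 * s - 4) / 2) + 1, by omega, by omega, Or.inr (Or.inr (Or.inl ?_))⟩
      simp only [b9]; split_ifs <;> omega
    · refine ⟨3 * ((6 * s + 1 - d) / 2) + 3, by omega, by omega, Or.inr (Or.inl ?_)⟩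
      simp only [b9]; split_ifs <;> omega
  rcases Nat.lt_or_ge d (6 * s + 1 + 1) with g4 | g4
  · refine ⟨3 * s - 1, by omega, by omega, Or.inr (Or.inr (Or.inl ?_))⟩
    simp only [b9]; split_ifs <;> omega
  rcases Nat.lt_or_ge d (6 * s + 2 + 1) with g5 | g5
  · refine ⟨3 * ((d - 4 * s - 4) / 2) + 1, by omega, by omega, Or.inr (Or.inr (Or.inl ?_))⟩
    simp only [b9]; split_ifs <;> omega
  rcases Nat.lt_or_ge d (6 * s + 3 + 1) with g6 | g6
  · omega
  rcases Nat.lt_or_ge d (6 * s + 4 + 1) with g7 | g7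
  · refine ⟨3 * ((d - 4 * s - 4) / 2) + 1, by omega, by omega, Or.inr (Or.inr (Or.inl ?_))⟩
    simp only [b9]; split_ifs <;> omega
  rcases Nat.lt_or_ge d (7 * s + 2 + 1) with g8 | g8
  · refine ⟨3 * (d - 6 * s - 4) + 3, by omega, by omega, Or.inr (Or.inr (Or.inl ?_))⟩
    simp only [b9]; split_ifs <;> omega
  rcases Nat.lt_or_ge d (7 * s + 3 + 1) with g9 | g9
  · refine ⟨3 * s, by omega, by omega, Or.inr (Or.inl ?_)⟩
    simp only [b9]; split_ifs <;> omega
  rcases Nat.lt_or_ge d (8 * s + 1) with g10 | g10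
  · refine ⟨3 * (8 * s + 2 - d) + 2, by omega, by omega, Or.inr (Or.inl ?_)⟩
    simp only [b9]; split_ifs <;> omega
  rcases Nat.lt_or_ge d (8 * s + 1 + 1) with g11 | g11
  · refine ⟨3, by omega, by omega, Or.inr (Or.inl ?_)⟩
    simp only [b9]; split_ifs <;> omega
  rcases Nat.lt_or_ge d (8 * s + 2 + 1) with g12 | g12
  · refine ⟨5, by omega, by omega, Or.inr (Or.inl ?_)⟩
    simp only [b9]; split_ifs <;> omega
  rcases Nat.lt_or_ge d (8 * s + 3 + 1) with g13 | g13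
  · refine ⟨2, by omega, by omega, Or.inr (Or.inl ?_)⟩
    simp only [b9]; split_ifs <;> omega
  rcases Nat.lt_or_ge d (8 * s + 4 + 1) with g14 | g14
  · refine ⟨3, by omega, by omega, Or.inr (Or.inr (Or.inl ?_))⟩
    simp only [b9]; split_ifs <;> omega
  rcases Nat.lt_or_ge d (8 * s + 5 + 1) with g15 | g15
  · refine ⟨2, by omega, by omega, Or.inr (Or.inr (Or.inl ?_))⟩
    simp only [b9]; split_ifs <;> omega
  rcases Nat.lt_or_ge d (8 * s + 6 + 1) with g16 | g16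
  · refine ⟨3 * s, by omega, by omega, Or.inr (Or.inr (Or.inr ?_))⟩
    simp only [b9]; split_ifs <;> omega
  rcases Nat.lt_or_ge d (8 * s + 7 + 1) with g17 | g17
  · refine ⟨5, by omega, by omega, Or.inr (Or.inr (Or.inl ?_))⟩
    simp only [b9]; split_ifs <;> omega
  · rcases Nat.even_or_odd' d with ⟨e, he | he⟩
    · refine ⟨3 * ((d - 8 * s - 4) / 2) + 2, by omega, by omega, Or.inr (Or.inr (Or.inl ?_))⟩
      simp only [b9]; split_ifs <;> omega
    · refine ⟨3 * ((10 * s + 5 - d) / 2) + 2, by omega, by omega, Or.inr (Or.inr (Or.inr ?_))⟩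
      simp only [b9]; split_ifs <;> omega

lemma covers15 (s : ℕ) (hs : 5 ≤ s) : Covers (18 * s + 15) (b15 s) := by
  intro d h1 h2 h3
  have hk : (18 * s + 15) / 6 = 3 * s + 2 := by omega
  rw [hk]
  rcases Nat.lt_or_ge d (3 * s + 2 + 1) with h | h
  · exact ⟨d, by omega, by omega, Or.inl rfl⟩
  rcases Nat.lt_or_ge d (4 * s + 3 + 1) with g1 | g1
  · refine ⟨3 * (4 * s + 3 - d) + 1, by omega, by omega, Or.inr (Or.inl ?_)⟩
    simp only [b15]; split_ifs <;> omega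
  rcases Nat.lt_or_ge d (6 * s + 4 + 1) with g2 | g2
  · rcases Nat.even_or_odd' d with ⟨e, he | he⟩
    · refine ⟨3 * ((d - 4 * s - 4) / 2) + 1, by omega, by omega, Or.inr (Or.inr (Or.inl ?_))⟩
      simp only [b15]; split_ifs <;> omega
    · refine ⟨3 * ((6 * s + 3 - d) / 2) + 3, by omega, by omega, Or.inr (Or.inl ?_)⟩
      simp only [b15]; split_ifs <;> omega
  rcases Nat.lt_or_ge d (6 * s + 5 + 1) with g3 | g3
  · omega
  rcases Nat.lt_or_ge d (7 * s + 5 + 1) with g4 | g4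
  · refine ⟨3 * (d - 6 * s - 6) + 3, by omega, by omega, Or.inr (Or.inr (Or.inl ?_))⟩
    simp only [b15]; split_ifs <;> omega
  rcases Nat.lt_or_ge d (8 * s + 6 + 1) with g5 | g5
  · refine ⟨3 * (8 * s + 6 - d) + 2, by omega, by omega, Or.inr (Or.inl ?_)⟩
    simp only [b15]; split_ifs <;> omega
  · rcases Nat.even_or_odd' d with ⟨e, he | he⟩
    · refine ⟨3 * ((d - 8 * s - 8) / 2) + 2, by omega, by omega, Or.inr (Or.inr (Or.inl ?_))⟩
      simp only [b15]; split_ifs <;> omega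
    · refine ⟨3 * ((10 * s + 7 - d) / 2) + 2, by omega, by omega, Or.inr (Or.inr (Or.inr ?_))⟩
      simp only [b15]; split_ifs <;> omega

/-- Peltesohn's theorem (for large orders). -/
theorem exists_covers (n : ℕ) (hn : 108 ≤ n) (h : n % 6 = 1 ∨ n % 6 = 3) :
    ∃ b : ℕ → ℕ, Covers n b := by
  have h2 : n % 18 = 1 ∨ n % 18 = 7 ∨ n % 18 = 13 ∨ n % 18 = 3 ∨ n % 18 = 9 ∨ n % 18 = 15 := by
    omega
  have hs : 5 ≤ n / 18 := by omega
  rcases h2 with h2 | h2 | h2 | h2 | h2 | h2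
  · refine ⟨b1 (n / 18), ?_⟩
    have := covers1 (n / 18) hs
    rwa [show 18 * (n / 18) + 1 = n by omega] at this
  · refine ⟨b7 (n / 18), ?_⟩
    have := covers7 (n / 18) hs
    rwa [show 18 * (n / 18) + 7 = n by omega] at this
  · refine ⟨b13 (n / 18), ?_⟩
    have := covers13 (n / 18) hs
    rwa [show 18 * (n / 18) + 13 = n by omega] at this
  · refine ⟨b3 (n / 18), ?_⟩
    have := covers3 (n / 18) hs
    rwa [show 18 * (n / 18) + 3 = n by omega] at this
  · refine ⟨b9 (n / 18), ?_⟩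
    have := covers9 (n / 18) hs
    rwa [show 18 * (n / 18) + 9 = n by omega] at this
  · refine ⟨b15 (n / 18), ?_⟩
    have := covers15 (n / 18) hs
    rwa [show 18 * (n / 18) + 15 = n by omega] at this

end Pool.Agent.Q243.CycSTS
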