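import Mathlib
import Pool.Agent.Q243.CycSTSPelt

/-!
# Cyclic Steiner triple systems from difference triples, and the number of isomorphism classes
-/

set_option linter.unusedSectionVars false

namespace Pool.Agent.Q243.CycSTS

open Finset

/-- The differences of the short orbit. -/
def IsShort (n : ℕ) (x : ZMod n) : Prop :=
  n % 6 = 3 ∧ (x = ((n / 3 : ℕ) : ZMod n) ∨ x = -((n / 3 : ℕ) : ZMod n))

lemma isShort_neg {n : ℕ} {x : ZMod n} : IsShort n (-x) ↔ IsShort n x := by
  unfold IsShort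
  constructor
  · rintro ⟨h, h1 | h1⟩
    · exact ⟨h, Or.inr (by rw [← h1, neg_neg])⟩
    · exact ⟨h, Or.inl (neg_injective h1)⟩
  · rintro ⟨h, h1 | h1⟩
    · exact ⟨h, Or.inr (by rw [h1])⟩
    · exact ⟨h, Or.inl (by rw [h1, neg_neg])⟩

/-- A cyclic difference family with blocks of size three. -/
structure DF (n : ℕ) (w : Fin (n / 6) → Fin 3 → ZMod n) : Prop where
  inj : ∀ j p q j' p' q', p ≠ q → p' ≠ q' → w j q - w j p = w j' q' - w j' p' →
    j = j' ∧ p = p' ∧ q = q'
  surj : ∀ x : ZMod n, x ≠ 0 → ¬ IsShort n x → ∃ j p q, p ≠ q ∧ w j q - w j p = x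
  avoid : ∀ j p q, p ≠ q → w j q - w j p ≠ 0 ∧ ¬ IsShort n (w j q - w j p)

/-- The base blocks. -/
def base (n : ℕ) (b : ℕ → ℕ) (j : Fin (n / 6)) (p : Fin 3) : ZMod n :=
  ![0, ((j.val + 1 : ℕ) : ZMod n), (((j.val + 1) + b (j.val + 1) : ℕ) : ZMod n)] p

lemma base_surj (n : ℕ) (b : ℕ → ℕ) (hn : 108 ≤ n) (h : n % 6 = 1 ∨ n % 6 = 3)
    (hb : Covers n b) (x : ZMod n) (hx : x ≠ 0) (hs : ¬ IsShort n x) :
    ∃ j p q, p ≠ q ∧ base n b j q - base n b j p = x := by
  have : NeZero n := ⟨by omega⟩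
  have hX := ZMod.val_lt x
  have hX0 : x.val ≠ 0 := by
    intro h0
    exact hx ((ZMod.val_eq_zero x).1 h0)
  have hxv : ((x.val : ℕ) : ZMod n) = x := ZMod.natCast_zmod_val x
  -- the folded difference
  have hd : ∃ d : ℕ, 1 ≤ d ∧ 2 * d < n ∧ 3 * d ≠ n ∧ (x = (d : ZMod n) ∨ x = -(d : ZMod n)) := by
    rcases Nat.lt_or_ge (2 * x.val) n with h1 | h1
    · refine ⟨x.val, by omega, h1, ?_, Or.inl hxv.symm⟩
      intro h3
      apply hs
      refine ⟨by omega, Or.inl ?_⟩
      rw [← hxv]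
      congr 1
      omega
    · have e : -(((n - x.val : ℕ)) : ZMod n) = x := by
        rw [Nat.cast_sub hX.le, ZMod.natCast_self, hxv]
        ring
      refine ⟨n - x.val, by omega, by omega, ?_, Or.inr e.symm⟩
      intro h3
      apply hs
      refine ⟨by omega, Or.inr ?_⟩
      rw [← e]
      congr 2
      omega
  obtain ⟨d, hd1, hd2, hd3, hdx⟩ := hd
  obtain ⟨a, ha1, ha2, hcase⟩ := hb d hd1 hd2 hd3
  have key : ∃ j p q, p ≠ q ∧ base n b j q - base n b j p = (d : ZMod n) := by
    refine ⟨⟨a - 1, by omega⟩, ?_⟩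
    have e1 : a - 1 + 1 = a := by omega
    rcases hcase with h1 | h1 | h1 | h1
    · refine ⟨0, 1, by decide, ?_⟩
      simp [base, e1, h1]
    · refine ⟨1, 2, by decide, ?_⟩
      simp only [base, e1, h1]
      simp
    · refine ⟨0, 2, by decide, ?_⟩
      simp only [base, e1, h1]
      simp
    · refine ⟨2, 0, by decide, ?_⟩
      have e2 : ((d + (a + b a) : ℕ) : ZMod n) = 0 := by
        rw [h1]
        exact ZMod.natCast_self n
      simp only [base, e1]
      simp only [Matrix.cons_val_zero, Matrix.cons_val_two, Matrix.tail_cons, Matrix.head_cons]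
      push_cast at e2 ⊢
      linear_combination -e2
  obtain ⟨j, p, q, hpq, hj⟩ := key
  rcases hdx with h1 | h1
  · exact ⟨j, p, q, hpq, by rw [hj, h1]⟩
  · refine ⟨j, q, p, hpq.symm, ?_⟩
    rw [h1, ← hj]
    ring

open Classical in
lemma base_df (n : ℕ) (b : ℕ → ℕ) (hn : 108 ≤ n) (h : n % 6 = 1 ∨ n % 6 = 3)
    (hb : Covers n b) : DF n (base n b) := by
  have : NeZero n := ⟨by omega⟩
  let P : Finset (Fin (n / 6) × Fin 3 × Fin 3) := univ ×ˢ (univ.filter fun pq => pq.1 ≠ pq.2)
  have hP : P.card = n / 6 * 6 := by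
    rw [Finset.card_product, Finset.card_univ, Fintype.card_fin]
    congr 1
  let δ : Fin (n / 6) × Fin 3 × Fin 3 → ZMod n :=
    fun t => base n b t.1 t.2.2 - base n b t.1 t.2.1
  let X : Finset (ZMod n) := univ.filter fun x => x ≠ 0 ∧ ¬ IsShort n x
  have hX : n / 6 * 6 ≤ X.card := by
    have hX' : univ.filter (fun x : ZMod n => ¬ (x ≠ 0 ∧ ¬ IsShort n x)) ⊆
        if n % 6 = 3 then {0, ((n / 3 : ℕ) : ZMod n), -((n / 3 : ℕ) : ZMod n)} else {0} := by
      intro x hx
      rw [Finset.mem_filter] at hx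
      have hx2 : x = 0 ∨ IsShort n x := by
        by_contra hcon
        push Not at hcon
        exact hx.2 hcon
      split_ifs with h3
      · rcases hx2 with rfl | ⟨_, rfl | rfl⟩ <;> simp
      · rcases hx2 with rfl | ⟨h4, _⟩
        · simp
        · exact absurd h4 h3
    have h1 := Finset.card_filter_add_card_filter_not (s := (univ : Finset (ZMod n)))
      (fun x : ZMod n => x ≠ 0 ∧ ¬ IsShort n x)
    rw [Finset.card_univ, ZMod.card] at h1
    have h2 := Finset.card_le_card hX'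
    have h4 : (if n % 6 = 3 then ({0, ((n / 3 : ℕ) : ZMod n), -((n / 3 : ℕ) : ZMod n)} :
        Finset (ZMod n)) else {0}).card ≤ n % 6 := by
      rcases h with h | h
      · rw [if_neg (by omega), Finset.card_singleton, h]
      · rw [if_pos h, h]
        exact Finset.card_le_three
    have h5 : (univ.filter fun x : ZMod n => x ≠ 0 ∧ ¬ IsShort n x).card + n % 6 ≥ n := by omega
    change n / 6 * 6 ≤ (univ.filter fun x : ZMod n => x ≠ 0 ∧ ¬ IsShort n x).card
    omega
  have hsub : X ⊆ P.image δ := by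
    intro x hx
    rw [Finset.mem_filter] at hx
    obtain ⟨j, p, q, hpq, hj⟩ := base_surj n b hn h hb x hx.2.1 hx.2.2
    rw [Finset.mem_image]
    exact ⟨(j, p, q), by simp [P, hpq], hj⟩
  have hc1 : (P.image δ).card ≤ P.card := Finset.card_image_le
  have hc2 := Finset.card_le_card hsub
  have hcard : (P.image δ).card = P.card := by omega
  have hinj := Finset.card_image_iff.1 hcard
  have hXeq : X = P.image δ := Finset.eq_of_subset_of_card_le hsub (by omega)
  refine ⟨?_, ?_, ?_⟩
  · intro j p q j' p' q' hpq hpq' heq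
    have m1 : (j, p, q) ∈ (P : Set (Fin (n / 6) × Fin 3 × Fin 3)) := by simp [P, hpq]
    have m2 : (j', p', q') ∈ (P : Set (Fin (n / 6) × Fin 3 × Fin 3)) := by simp [P, hpq']
    have := hinj m1 m2 heq
    simpa using this
  · exact base_surj n b hn h hb
  · intro j p q hpq
    have hm : δ (j, p, q) ∈ P.image δ := Finset.mem_image_of_mem _ (by simp [P, hpq])
    rw [← hXeq, Finset.mem_filter] at hm
    exact hm.2

/-- The sign of a Boolean. -/
def sg (n : ℕ) (e : Bool) : ZMod n := if e then 1 else -1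

lemma sg_mul_self (n : ℕ) (e : Bool) : sg n e * sg n e = 1 := by
  cases e <;> simp [sg]

/-- Base blocks with signs. -/
def sw {n : ℕ} (w : Fin (n / 6) → Fin 3 → ZMod n) (ε : Fin (n / 6) → Bool) (j : Fin (n / 6))
    (p : Fin 3) : ZMod n := sg n (ε j) * w j p

lemma sw_df {n : ℕ} {w : Fin (n / 6) → Fin 3 → ZMod n} (hw : DF n w) (ε : Fin (n / 6) → Bool) :
    DF n (sw w ε) := by
  have hdiff : ∀ j p q, sw w ε j q - sw w ε j p = sg n (ε j) * (w j q - w j p) := by
    intro j p q
    simp only [sw]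
    ring
  refine ⟨?_, ?_, ?_⟩
  · intro j p q j' p' q' hpq hpq' heq
    rw [hdiff, hdiff] at heq
    have hcases : ∀ (j : Fin (n / 6)) (p q : Fin 3), p ≠ q → ∃ p₁ q₁ : Fin 3, p₁ ≠ q₁ ∧
        sg n (ε j) * (w j q - w j p) = w j q₁ - w j p₁ ∧
        (p₁ = if ε j then p else q) ∧ (q₁ = if ε j then q else p) := by
      intro j p q hpq
      cases he : ε j
      · exact ⟨q, p, hpq.symm, by simp [sg], by simp, by simp⟩
      · exact ⟨p, q, hpq, by simp [sg], by simp, by simp⟩
    obtain ⟨p₁, q₁, hpq₁, e1, hp₁, hq₁⟩ := hcases j p q hpq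
    obtain ⟨p₂, q₂, hpq₂, e2, hp₂, hq₂⟩ := hcases j' p' q' hpq'
    rw [e1, e2] at heq
    obtain ⟨hj, h1, h2⟩ := hw.inj _ _ _ _ _ _ hpq₁ hpq₂ heq
    subst hj
    refine ⟨rfl, ?_⟩
    cases he : ε j
    · simp only [he, Bool.false_eq_true, if_false] at hp₁ hq₁ hp₂ hq₂
      exact ⟨by rw [← hq₁, ← hq₂, h2], by rw [← hp₁, ← hp₂, h1]⟩
    · simp only [he, if_true] at hp₁ hq₁ hp₂ hq₂
      exact ⟨by rw [← hp₁, ← hp₂, h1], by rw [← hq₁, ← hq₂, h2]⟩
  · intro x hx hs
    obtain ⟨j, p, q, hpq, hj⟩ := hw.surj x hx hs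
    cases he : ε j
    · refine ⟨j, q, p, hpq.symm, ?_⟩
      rw [hdiff, he, ← hj]
      simp [sg]
    · refine ⟨j, p, q, hpq, ?_⟩
      rw [hdiff, he, ← hj]
      simp [sg]
  · intro j p q hpq
    rw [hdiff]
    have h := hw.avoid j p q hpq
    cases he : ε j
    · simp only [sg, Bool.false_eq_true, if_false, neg_mul, one_mul]
      refine ⟨neg_ne_zero.2 h.1, ?_⟩
      rw [isShort_neg]
      exact h.2
    · simp only [sg, if_true, one_mul]
      exact h

/-- A translate of a base block. -/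
def blk {n : ℕ} (w : Fin (n / 6) → Fin 3 → ZMod n) (j : Fin (n / 6)) (t : ZMod n) :
    Finset (ZMod n) := univ.image fun p => w j p + t

/-- The blocks of the short orbit. -/
def sblk {n : ℕ} (t : ZMod n) : Finset (ZMod n) :=
  {t, t + ((n / 3 : ℕ) : ZMod n), t - ((n / 3 : ℕ) : ZMod n)}

/-- The cyclic triple system of a difference family. -/
def fam {n : ℕ} [NeZero n] (w : Fin (n / 6) → Fin 3 → ZMod n) : Finset (Finset (ZMod n)) :=
  (univ.image fun jt : Fin (n / 6) × ZMod n => blk w jt.1 jt.2) ∪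
    (if n % 6 = 3 then univ.image sblk else ∅)

variable {n : ℕ} [NeZero n]

lemma mem_fam (w : Fin (n / 6) → Fin 3 → ZMod n) (c : Finset (ZMod n)) :
    c ∈ fam w ↔ (∃ j t, c = blk w j t) ∨ (n % 6 = 3 ∧ ∃ t, c = sblk t) := by
  unfold fam
  rw [Finset.mem_union, Finset.mem_image]
  constructor
  · rintro (⟨⟨j, t⟩, _, h⟩ | h)
    · exact Or.inl ⟨j, t, h.symm⟩
    · split_ifs at h with h3
      · rw [Finset.mem_image] at h
        obtain ⟨t, _, ht⟩ := h
        exact Or.inr ⟨h3, t, ht.symm⟩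
      · exact absurd h (Finset.notMem_empty _)
  · rintro (⟨j, t, h⟩ | ⟨h3, t, h⟩)
    · exact Or.inl ⟨(j, t), Finset.mem_univ _, h.symm⟩
    · right
      rw [if_pos h3, Finset.mem_image]
      exact ⟨t, Finset.mem_univ _, h.symm⟩

lemma mem_blk (w : Fin (n / 6) → Fin 3 → ZMod n) (j : Fin (n / 6)) (t x : ZMod n) :
    x ∈ blk w j t ↔ ∃ p, w j p + t = x := by
  unfold blk
  simp

lemma mem_sblk (t x : ZMod n) :
    x ∈ sblk t ↔ x = t ∨ x = t + ((n / 3 : ℕ) : ZMod n) ∨ x = t - ((n / 3 : ℕ) : ZMod n) := by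
  unfold sblk
  simp

/-- Facts on `m = n / 3`. -/
lemma three_m (h3 : n % 6 = 3) : ((n / 3 : ℕ) : ZMod n) + ((n / 3 : ℕ) : ZMod n)
    = - ((n / 3 : ℕ) : ZMod n) := by
  have e : ((3 * (n / 3) : ℕ) : ZMod n) = 0 := by
    rw [show 3 * (n / 3) = n by omega]
    exact ZMod.natCast_self n
  push_cast at e
  linear_combination e

lemma m_ne_zero (h3 : n % 6 = 3) : ((n / 3 : ℕ) : ZMod n) ≠ 0 := by
  intro h
  rw [ZMod.natCast_eq_zero_iff] at h
  have := Nat.le_of_dvd (by omega) h
  omega

lemma short_diff (h3 : n % 6 = 3) {t x y : ZMod n} (hx : x ∈ sblk t) (hy : y ∈ sblk t)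
    (hxy : x ≠ y) : IsShort n (y - x) := by
  rw [mem_sblk] at hx hy
  have e := three_m h3
  refine ⟨h3, ?_⟩
  rcases hx with rfl | rfl | rfl <;> rcases hy with rfl | rfl | rfl
  · exact absurd rfl hxy
  · left; ring
  · right; ring
  · right; ring
  · exact absurd rfl hxy
  · left; linear_combination -e
  · left; ring
  · right; linear_combination e
  · exact absurd rfl hxy

lemma short_of_diff {x y : ZMod n} (h : IsShort n (y - x)) : y ∈ sblk x := by
  rw [mem_sblk]
  rcases h.2 with h | h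
  · right; left; linear_combination h
  · right; right; linear_combination h

lemma sblk_eq (h3 : n % 6 = 3) {t x : ZMod n} (hx : x ∈ sblk t) : sblk t = sblk x := by
  have e := three_m h3
  rw [mem_sblk] at hx
  rcases hx with rfl | rfl | rfl
  · rfl
  · ext y
    rw [mem_sblk, mem_sblk]
    constructor
    · rintro (h | h | h)
      · right; right; rw [h]; ring
      · left; exact h
      · right; left; rw [h]; linear_combination -e
    · rintro (h | h | h)
      · right; left; exact h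
      · right; right; rw [h]; linear_combination e
      · left; rw [h]; ring
  · ext y
    rw [mem_sblk, mem_sblk]
    constructor
    · rintro (h | h | h)
      · right; left; rw [h]; ring
      · right; right; rw [h]; linear_combination e
      · left; exact h
    · rintro (h | h | h)
      · right; right; exact h
      · left; rw [h]; ring
      · right; left; rw [h]; linear_combination -e

/-- In a block of a difference family the pair of a given difference determines the block. -/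
lemma blk_unique {w : Fin (n / 6) → Fin 3 → ZMod n} (hw : DF n w) {j j' : Fin (n / 6)}
    {t t' x y : ZMod n} (hxy : x ≠ y) {p q p' q' : Fin 3} (h1 : w j p + t = x) (h2 : w j q + t = y)
    (h1' : w j' p' + t' = x) (h2' : w j' q' + t' = y) : j = j' ∧ t = t' ∧ p = p' ∧ q = q' := by
  have hpq : p ≠ q := by
    rintro rfl
    exact hxy (h1.symm.trans h2)
  have hpq' : p' ≠ q' := by
    rintro rfl
    exact hxy (h1'.symm.trans h2')
  obtain ⟨hj, hp, hq⟩ := hw.inj j p q j' p' q' hpq hpq' (by linear_combination h2 - h1 - h2' + h1')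
  subst hj hp hq
  exact ⟨rfl, by linear_combination h1 - h1', rfl, rfl⟩

lemma fam_unique {w : Fin (n / 6) → Fin 3 → ZMod n} (hw : DF n w) (x y : ZMod n) (hxy : x ≠ y) :
    ∃! c : Finset (ZMod n), c ∈ fam w ∧ x ∈ c ∧ y ∈ c := by
  have hyx : y - x ≠ 0 := sub_ne_zero.2 hxy.symm
  by_cases hs : IsShort n (y - x)
  · have h3 : n % 6 = 3 := hs.1
    refine ⟨sblk x, ⟨(mem_fam w _).2 (Or.inr ⟨h3, x, rfl⟩), ?_, short_of_diff hs⟩, ?_⟩
    · rw [mem_sblk]
      exact Or.inl rfl
    · rintro c ⟨hc, hxc, hyc⟩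
      rcases (mem_fam w _).1 hc with ⟨j, t, rfl⟩ | ⟨_, t, rfl⟩
      · exfalso
        obtain ⟨p, hp⟩ := (mem_blk _ _ _ _).1 hxc
        obtain ⟨q, hq⟩ := (mem_blk _ _ _ _).1 hyc
        have hpq : p ≠ q := by
          rintro rfl
          exact hxy (hp.symm.trans hq)
        apply (hw.avoid j p q hpq).2
        have : w j q - w j p = y - x := by linear_combination hq - hp
        rw [this]
        exact hs
      · exact sblk_eq h3 hxc
  · obtain ⟨j, p, q, hpq, hj⟩ := hw.surj (y - x) hyx hs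
    refine ⟨blk w j (x - w j p), ⟨(mem_fam w _).2 (Or.inl ⟨j, _, rfl⟩), ?_, ?_⟩, ?_⟩
    · exact (mem_blk _ _ _ _).2 ⟨p, by ring⟩
    · exact (mem_blk _ _ _ _).2 ⟨q, by linear_combination hj⟩
    · rintro c ⟨hc, hxc, hyc⟩
      rcases (mem_fam w _).1 hc with ⟨j', t, rfl⟩ | ⟨h3, t, rfl⟩
      · obtain ⟨p', hp'⟩ := (mem_blk _ _ _ _).1 hxc
        obtain ⟨q', hq'⟩ := (mem_blk _ _ _ _).1 hyc
        have h1 : w j p + (x - w j p) = x := by ring
        have h2 : w j q + (x - w j p) = y := by linear_combination hj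
        obtain ⟨hj', ht, _, _⟩ := blk_unique hw hxy hp' hq' h1 h2
        rw [hj', ht]
      · exact absurd (short_diff h3 hxc hyc hxy) hs

lemma fam_card {w : Fin (n / 6) → Fin 3 → ZMod n} (hw : DF n w) (c : Finset (ZMod n))
    (hc : c ∈ fam w) : c.card = 3 := by
  rcases (mem_fam w _).1 hc with ⟨j, t, rfl⟩ | ⟨h3, t, rfl⟩
  · unfold blk
    rw [Finset.card_image_of_injective, Finset.card_univ, Fintype.card_fin]
    intro p q hpq
    by_contra hne
    have := (hw.avoid j p q hne).1
    apply this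
    have hpq' : w j p + t = w j q + t := hpq
    linear_combination -hpq'
  · unfold sblk
    have h0 := m_ne_zero h3
    have e := three_m h3
    rw [Finset.card_eq_three]
    refine ⟨_, _, _, ?_, ?_, ?_, rfl⟩
    · intro h
      apply h0
      linear_combination -h
    · intro h
      apply h0
      linear_combination h
    · intro h
      apply h0
      linear_combination e - h

lemma fam_shift (w : Fin (n / 6) → Fin 3 → ZMod n) (c : Finset (ZMod n))
    (hc : c ∈ fam w) : c.image (fun x => x + 1) ∈ fam w := by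
  rcases (mem_fam w _).1 hc with ⟨j, t, rfl⟩ | ⟨h3, t, rfl⟩
  · refine (mem_fam w _).2 (Or.inl ⟨j, t + 1, ?_⟩)
    unfold blk
    rw [Finset.image_image]
    congr 1
    funext p
    simp only [Function.comp]
    ring
  · refine (mem_fam w _).2 (Or.inr ⟨h3, t + 1, ?_⟩)
    ext x
    simp only [Finset.mem_image, mem_sblk]
    constructor
    · rintro ⟨y, rfl | rfl | rfl, rfl⟩
      · left; rfl
      · right; left; ring
      · right; right; ring
    · rintro (rfl | rfl | rfl)
      · exact ⟨t, Or.inl rfl, rfl⟩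
      · exact ⟨t + _, Or.inr (Or.inl rfl), by ring⟩
      · exact ⟨t - _, Or.inr (Or.inr rfl), by ring⟩

/-- Different sign vectors give different triple systems. -/
lemma fam_injective {w : Fin (n / 6) → Fin 3 → ZMod n} (hw : DF n w) :
    Function.Injective fun ε : Fin (n / 6) → Bool => fam (sw w ε) := by
  -- it suffices to exclude a sign `true` against `false`
  have key : ∀ ε ε' : Fin (n / 6) → Bool, ∀ j, ε j = true → ε' j = false →
      fam (sw w ε) ≠ fam (sw w ε') := by
    intro ε ε' j h1 h2 heq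
    have hd := sw_df hw ε
    have hd' := sw_df hw ε'
    have hmem : blk (sw w ε) j 0 ∈ fam (sw w ε') := by
      rw [← heq]
      exact (mem_fam _ _).2 (Or.inl ⟨j, 0, rfl⟩)
    have hv : ∀ p, sw w ε j p = w j p := by
      intro p
      simp [sw, sg, h1]
    have hv' : ∀ p, sw w ε' j p = - w j p := by
      intro p
      simp [sw, sg, h2]
    have hne : w j 0 ≠ w j 1 := by
      intro h
      exact (hw.avoid j 0 1 (by decide)).1 (by rw [h]; ring)
    -- the block of `fam (sw w ε')` through `w j 0` and `w j 1`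
    have hb2 : blk (sw w ε') j (w j 0 + w j 1) ∈ fam (sw w ε') :=
      (mem_fam _ _).2 (Or.inl ⟨j, _, rfl⟩)
    have hu := (fam_unique hd' (w j 0) (w j 1) hne).unique
      (y₁ := blk (sw w ε) j 0) (y₂ := blk (sw w ε') j (w j 0 + w j 1))
      ⟨hmem, (mem_blk _ _ _ _).2 ⟨0, by rw [hv]; ring⟩, (mem_blk _ _ _ _).2 ⟨1, by rw [hv]; ring⟩⟩
      ⟨hb2, (mem_blk _ _ _ _).2 ⟨1, by rw [hv']; ring⟩, (mem_blk _ _ _ _).2 ⟨0, by rw [hv']; ring⟩⟩
    have h2mem : w j 2 ∈ blk (sw w ε') j (w j 0 + w j 1) := by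
      rw [← hu]
      exact (mem_blk _ _ _ _).2 ⟨2, by rw [hv]; ring⟩
    obtain ⟨p, hp⟩ := (mem_blk _ _ _ _).1 h2mem
    rw [hv'] at hp
    fin_cases p
    · -- `w 2 = w 1`
      have hp' : -w j 0 + (w j 0 + w j 1) = w j 2 := hp
      exact (hw.avoid j 1 2 (by decide)).1 (by linear_combination -hp')
    · have hp' : -w j 1 + (w j 0 + w j 1) = w j 2 := hp
      exact (hw.avoid j 0 2 (by decide)).1 (by linear_combination -hp')
    · have hp' : -w j 2 + (w j 0 + w j 1) = w j 2 := hp
      have := hw.inj j 0 2 j 2 1 (by decide) (by decide) (by linear_combination -hp')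
      exact absurd this.2.1 (by decide)
  intro ε ε' heq
  funext j
  by_contra hne
  cases h1 : ε j <;> cases h2 : ε' j
  · exact hne (h1.trans h2.symm)
  · exact key ε' ε j h2 h1 heq.symm
  · exact key ε ε' j h1 h2 heq
  · exact hne (h1.trans h2.symm)

/-! ### Isomorphism classes -/

/-- The image of a block. -/
def mv (σ : Equiv.Perm (ZMod n)) (b : Finset (ZMod n)) : Finset (ZMod n) := b.map σ.toEmbedding

lemma mv_mul (σ τ : Equiv.Perm (ZMod n)) (b : Finset (ZMod n)) : mv (σ * τ) b = mv σ (mv τ b) := by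
  unfold mv
  rw [Finset.map_map]
  rfl

lemma mv_one (b : Finset (ZMod n)) : mv (1 : Equiv.Perm (ZMod n)) b = b := by
  unfold mv
  rw [Finset.map_eq_image]
  exact Finset.image_id

lemma mv_inv_mv (σ : Equiv.Perm (ZMod n)) (b : Finset (ZMod n)) : mv σ⁻¹ (mv σ b) = b := by
  rw [← mv_mul, inv_mul_cancel, mv_one]

lemma mv_mv_inv (σ : Equiv.Perm (ZMod n)) (b : Finset (ZMod n)) : mv σ (mv σ⁻¹ b) = b := by
  rw [← mv_mul, mul_inv_cancel, mv_one]

/-- The translation by one. -/
def tau (n : ℕ) : Equiv.Perm (ZMod n) := Equiv.addRight 1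

lemma tau_iff {B : Finset (Finset (ZMod n))} (hB : ∀ b ∈ B, b.image (fun x => x + 1) ∈ B)
    (b : Finset (ZMod n)) : b ∈ B ↔ mv (tau n) b ∈ B := by
  have hτ : ∀ b : Finset (ZMod n), mv (tau n) b = b.image (fun x => x + 1) := by
    intro b
    unfold mv
    rw [Finset.map_eq_image]
    rfl
  have hinj : Function.Injective (mv (tau n)) := by
    intro b b' h
    rw [← mv_inv_mv (tau n) b, h, mv_inv_mv]
  have himg : B.image (mv (tau n)) = B := by
    apply Finset.eq_of_subset_of_card_le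
    · intro c hc
      obtain ⟨b, hb, rfl⟩ := Finset.mem_image.1 hc
      rw [hτ]
      exact hB b hb
    · rw [Finset.card_image_of_injective _ hinj]
  constructor
  · intro h
    rw [hτ]
    exact hB b h
  · intro h
    rw [← himg, Finset.mem_image] at h
    obtain ⟨b', hb', h'⟩ := h
    rwa [← hinj h']

/-- The isomorphism relation. -/
def Iso (B B' : Finset (Finset (ZMod n))) : Prop :=
  ∃ σ : Equiv.Perm (ZMod n), ∀ b : Finset (ZMod n), b ∈ B ↔ b.map σ.toEmbedding ∈ B'

lemma iso_refl (B : Finset (Finset (ZMod n))) : Iso B B :=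
  ⟨1, fun b => by
    have := mv_one b
    unfold mv at this
    rw [this]⟩

lemma iso_symm {B B' : Finset (Finset (ZMod n))} (h : Iso B B') : Iso B' B := by
  obtain ⟨σ, hσ⟩ := h
  refine ⟨σ⁻¹, fun b => ?_⟩
  have := hσ (mv σ⁻¹ b)
  change mv σ⁻¹ b ∈ B ↔ mv σ (mv σ⁻¹ b) ∈ B' at this
  rw [mv_mv_inv] at this
  exact this.symm

lemma iso_trans {B B' B'' : Finset (Finset (ZMod n))} (h : Iso B B') (h' : Iso B' B'') :
    Iso B B'' := by
  obtain ⟨σ, hσ⟩ := h
  obtain ⟨τ, hτ⟩ := h'
  refine ⟨τ * σ, fun b => ?_⟩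
  change _ ↔ mv (τ * σ) b ∈ B''
  rw [mv_mul, hσ]
  exact hτ _

/-- The setoid of isomorphism. -/
def isoSetoid (n : ℕ) [NeZero n] : Setoid (Finset (Finset (ZMod n))) where
  r := Iso
  iseqv := ⟨iso_refl, iso_symm, iso_trans⟩

/-- A permutation commuting with the translation and fixing a point is the identity. -/
lemma eq_one_of_commute (c : Equiv.Perm (ZMod n)) (hc : c * tau n = tau n * c) (x₀ : ZMod n)
    (hx : c x₀ = x₀) : c = 1 := by
  have hstep : ∀ x, c (x + 1) = c x + 1 := fun x => DFunLike.congr_fun hc x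
  have hk : ∀ k : ℕ, c (x₀ + k) = x₀ + k := by
    intro k
    induction k with
    | zero => simp [hx]
    | succ k ih =>
      push_cast
      rw [← add_assoc, hstep, ih]
  ext x
  have := hk (x - x₀).val
  rw [ZMod.natCast_zmod_val, add_sub_cancel] at this
  rw [this]
  rfl

open Classical in
/-- At most `n` of the cyclic systems on `ZMod n` are isomorphic to a given one. -/
lemma class_bound (L : Finset (Finset (Finset (ZMod n))))
    (hL : ∀ B ∈ L, ∀ b ∈ B, b.image (fun x => x + 1) ∈ B) (B₀ : Finset (Finset (ZMod n))) :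
    (L.filter fun B => Iso B₀ B).card ≤ n := by
  set S := L.filter fun B => Iso B₀ B with hS
  let H : Finset (Equiv.Perm (ZMod n)) := univ.filter fun α => ∀ b, b ∈ B₀ ↔ mv α b ∈ B₀
  have hHpos : 0 < H.card := by
    apply Finset.card_pos.2
    refine ⟨1, ?_⟩
    rw [Finset.mem_filter]
    exact ⟨Finset.mem_univ _, fun b => by rw [mv_one]⟩
  have hch : ∀ B, ∃ σ : Equiv.Perm (ZMod n), B ∈ S → ∀ b, b ∈ B₀ ↔ mv σ b ∈ B := by
    intro B
    by_cases hB : B ∈ S
    · obtain ⟨σ, hσ⟩ := (Finset.mem_filter.1 hB).2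
      exact ⟨σ, fun _ => hσ⟩
    · exact ⟨1, fun h => absurd h hB⟩
  choose σ hσ using hch
  have hcard : (S ×ˢ H).card ≤ ((univ : Finset (ZMod n)) ×ˢ H).card := by
    apply Finset.card_le_card_of_injOn
      (fun Bα => ((σ Bα.1 * Bα.2) 0, (σ Bα.1 * Bα.2)⁻¹ * tau n * (σ Bα.1 * Bα.2)))
    · rintro ⟨B, α⟩ h
      rw [Finset.mem_coe, Finset.mem_product] at h
      rw [Finset.mem_coe, Finset.mem_product]
      refine ⟨Finset.mem_univ _, ?_⟩
      rw [Finset.mem_filter]
      refine ⟨Finset.mem_univ _, fun b => ?_⟩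
      have hB : B ∈ S := h.1
      have hα := (Finset.mem_filter.1 h.2).2
      have hg : ∀ b, b ∈ B₀ ↔ mv (σ B * α) b ∈ B := by
        intro b
        rw [mv_mul, ← hσ B hB]
        exact hα b
      have hBL : B ∈ L := (Finset.mem_filter.1 hB).1
      change b ∈ B₀ ↔ mv ((σ B * α)⁻¹ * tau n * (σ B * α)) b ∈ B₀
      generalize hgd : σ B * α = g at hg ⊢
      rw [hg b, tau_iff (hL B hBL), mul_assoc, mv_mul g⁻¹, hg (mv g⁻¹ _), mv_mv_inv, mv_mul]
    · rintro ⟨B, α⟩ h ⟨B', α'⟩ h' heq
      rw [Finset.mem_coe, Finset.mem_product] at h h'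
      have hB : B ∈ S := h.1
      have hB' : B' ∈ S := h'.1
      have hα := (Finset.mem_filter.1 h.2).2
      have hα' := (Finset.mem_filter.1 h'.2).2
      have hg : ∀ b, b ∈ B₀ ↔ mv (σ B * α) b ∈ B := by
        intro b
        rw [mv_mul, ← hσ B hB]
        exact hα b
      have hg' : ∀ b, b ∈ B₀ ↔ mv (σ B' * α') b ∈ B' := by
        intro b
        rw [mv_mul, ← hσ B' hB']
        exact hα' b
      simp only [Prod.mk.injEq] at heq
      obtain ⟨h0, h1⟩ := heq
      set g := σ B * α with hgdef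
      set g' := σ B' * α' with hgdef'
      have hone : g' * g⁻¹ = 1 := by
        apply eq_one_of_commute (g' * g⁻¹) _ (g 0)
        · rw [Equiv.Perm.mul_apply, ← Equiv.Perm.mul_apply g⁻¹ g, inv_mul_cancel,
            Equiv.Perm.one_apply, ← h0]
        · have e1 : g⁻¹ * tau n = (g'⁻¹ * tau n * g') * g⁻¹ := by
            rw [← h1]
            group
          rw [mul_assoc, e1]
          group
      have hgg : g' = g := mul_inv_eq_one.1 hone
      have hBB : B = B' := by
        ext b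
        have e1 := hg (mv g⁻¹ b)
        have e2 := hg' (mv g⁻¹ b)
        rw [hgg, mv_mv_inv] at e2
        rw [mv_mv_inv] at e1
        rw [← e1, e2]
      subst hBB
      have hαα : α' = α := by
        rw [hgdef, hgdef'] at hgg
        exact mul_left_cancel hgg
      rw [hαα]
  rw [Finset.card_product, Finset.card_product, Finset.card_univ, ZMod.card] at hcard
  exact Nat.le_of_mul_le_mul_right hcard hHpos

open Classical in
/-- The number of isomorphism classes. -/
theorem many (M n : ℕ) [NeZero n] (w : Fin (n / 6) → Fin 3 → ZMod n) (hw : DF n w)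
    (hM : M * n ≤ 2 ^ (n / 6)) :
    ∃ B : Fin M → Finset (Finset (ZMod n)),
      (∀ i, (∀ b ∈ B i, b.card = 3) ∧
        (∀ x y : ZMod n, x ≠ y → ∃! b : Finset (ZMod n), b ∈ B i ∧ x ∈ b ∧ y ∈ b) ∧
        (∀ b ∈ B i, b.image (fun x => x + 1) ∈ B i)) ∧
      (∀ i j, i ≠ j → ¬ ∃ σ : Equiv.Perm (ZMod n),
        ∀ b : Finset (ZMod n), b ∈ B i ↔ b.map σ.toEmbedding ∈ B j) := by
  let L : Finset (Finset (Finset (ZMod n))) :=
    univ.image fun ε : Fin (n / 6) → Bool => fam (sw w ε)
  have hLcard : L.card = 2 ^ (n / 6) := by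
    rw [Finset.card_image_of_injective _ (fam_injective hw), Finset.card_univ]
    simp
  have hLmem : ∀ B ∈ L, ∃ ε : Fin (n / 6) → Bool, B = fam (sw w ε) := by
    intro B hB
    obtain ⟨ε, _, h⟩ := Finset.mem_image.1 hB
    exact ⟨ε, h.symm⟩
  have hLsh : ∀ B ∈ L, ∀ b ∈ B, b.image (fun x => x + 1) ∈ B := by
    intro B hB
    obtain ⟨ε, rfl⟩ := hLmem B hB
    exact fam_shift _
  let f : Finset (Finset (ZMod n)) → Quotient (isoSetoid n) := fun B => Quotient.mk _ B
  have hfib : L.card ≤ n * (L.image f).card := by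
    apply Finset.card_le_mul_card_image
    intro a ha
    obtain ⟨B₀, _, rfl⟩ := Finset.mem_image.1 ha
    refine le_trans (Finset.card_le_card ?_) (class_bound L hLsh B₀)
    intro B hB
    rw [Finset.mem_filter] at hB ⊢
    exact ⟨hB.1, iso_symm (Quotient.exact hB.2)⟩
  have hMle : M ≤ (L.image f).card := by
    rw [hLcard] at hfib
    have hn : 0 < n := Nat.pos_of_ne_zero (NeZero.ne n)
    apply Nat.le_of_mul_le_mul_right _ hn
    calc M * n ≤ 2 ^ (n / 6) := hM
      _ ≤ n * (L.image f).card := hfib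
      _ = (L.image f).card * n := Nat.mul_comm _ _
  obtain ⟨e⟩ : Nonempty (Fin M ↪ {x // x ∈ L.image f}) := by
    apply Function.Embedding.nonempty_of_card_le
    rw [Fintype.card_fin, Fintype.card_coe]
    exact hMle
  have hrep : ∀ i, ∃ B ∈ L, f B = e i := by
    intro i
    exact Finset.mem_image.1 (e i).2
  choose B hBL hBe using hrep
  refine ⟨B, ?_, ?_⟩
  · intro i
    obtain ⟨ε, hε⟩ := hLmem _ (hBL i)
    rw [hε]
    exact ⟨fam_card (sw_df hw ε), fam_unique (sw_df hw ε), fam_shift _⟩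
  · intro i j hij hiso
    apply hij
    apply e.injective
    apply Subtype.ext
    rw [← hBe, ← hBe]
    exact Quotient.sound hiso

end Pool.Agent.Q243.CycSTS
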