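import Mathlib

/-!
# Continuum many freely independent unit quaternions

For every index type `Ω` of cardinality at most the continuum there are unit quaternions `u ω`,
`ω : Ω`, such that no nonempty reduced word in them equals `1`.
-/

namespace Pool.Agent.Q243.FreeQuat

open Quaternion Cardinal MvPolynomial

noncomputable section

/-- There is an algebraically independent family of reals indexed by any type of size at most the
continuum. -/
lemma exists_algInd (Ω : Type) (h : #Ω ≤ 𝔠) : ∃ x : Ω → ℝ, AlgebraicIndependent ℤ x := by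
  obtain ⟨s, hs⟩ := exists_isTranscendenceBasis ℤ ℝ
  have halg : Algebra.IsAlgebraic (Algebra.adjoin ℤ (Set.range ((↑) : s → ℝ))) ℝ := hs.isAlgebraic
  have h1 : #ℝ ≤ max #(Algebra.adjoin ℤ (Set.range ((↑) : s → ℝ))) ℵ₀ :=
    Algebra.IsAlgebraic.cardinalMk_le_max _ _
  have h2 : #(Algebra.adjoin ℤ (Set.range ((↑) : s → ℝ))) = #(MvPolynomial s ℤ) :=
    Cardinal.mk_congr hs.1.aevalEquiv.toEquiv.symm
  have h3 : #(MvPolynomial s ℤ) ≤ max (max #ℤ #s) ℵ₀ := MvPolynomial.cardinalMk_le_max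
  have h4 : 𝔠 ≤ max (max #ℤ #s) ℵ₀ := by
    rw [← Cardinal.mk_real]
    refine h1.trans (max_le ?_ (le_max_right _ _))
    rw [h2]
    exact h3
  have h5 : 𝔠 ≤ #s := by
    rcases le_max_iff.1 h4 with h5 | h5
    · rcases le_max_iff.1 h5 with h6 | h6
      · exfalso
        rw [Cardinal.mk_int] at h6
        exact absurd Cardinal.aleph0_lt_continuum (not_lt.2 h6)
      · exact h6
    · exact absurd Cardinal.aleph0_lt_continuum (not_lt.2 h5)
  obtain ⟨e⟩ := Cardinal.le_def _ _ |>.1 (h.trans h5)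
  exact ⟨fun ω => ((e ω : s) : ℝ), hs.1.comp e e.injective⟩

variable {Ω : Type}

/-- The word product of a family in a star ring. -/
def wp {A : Type*} [Monoid A] [Star A] (Q : Ω → A) (L : List (Ω × Bool)) : A :=
  (L.map fun a => if a.2 then Q a.1 else star (Q a.1)).prod

lemma wp_cons {A : Type*} [Monoid A] [Star A] (Q : Ω → A) (a : Ω × Bool) (L : List (Ω × Bool)) :
    wp Q (a :: L) = (if a.2 then Q a.1 else star (Q a.1)) * wp Q L := by
  simp [wp]

lemma wp_nil {A : Type*} [Monoid A] [Star A] (Q : Ω → A) : wp Q [] = 1 := rfl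

/-- The polynomial ring of coefficients. -/
abbrev Pol (Ω : Type) := MvPolynomial (Ω × Fin 2) ℤ

/-- The generic quaternion `1 + x i + y j`. -/
def gen (ω : Ω) : Quaternion (Pol Ω) := ⟨1, X (ω, 0), X (ω, 1), 0⟩

@[simp] lemma gen_re (ω : Ω) : (gen ω).re = 1 := rfl

@[simp] lemma gen_imI (ω : Ω) : (gen ω).imI = X (ω, 0) := rfl

@[simp] lemma gen_imJ (ω : Ω) : (gen ω).imJ = X (ω, 1) := rfl

@[simp] lemma gen_imK (ω : Ω) : (gen ω).imK = 0 := rfl

/-- The quaternion with given coefficients. -/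
def spec (x : Ω × Fin 2 → ℝ) (ω : Ω) : ℍ[ℝ] := ⟨1, x (ω, 0), x (ω, 1), 0⟩

/-- Coefficientwise evaluation of quaternions. -/
def evq (x : Ω × Fin 2 → ℝ) (q : Quaternion (Pol Ω)) : ℍ[ℝ] :=
  ⟨aeval x q.re, aeval x q.imI, aeval x q.imJ, aeval x q.imK⟩

@[simp] lemma evq_re (x : Ω × Fin 2 → ℝ) (q : Quaternion (Pol Ω)) :
    (evq x q).re = aeval x q.re := rfl

@[simp] lemma evq_imI (x : Ω × Fin 2 → ℝ) (q : Quaternion (Pol Ω)) :
    (evq x q).imI = aeval x q.imI := rfl

@[simp] lemma evq_imJ (x : Ω × Fin 2 → ℝ) (q : Quaternion (Pol Ω)) :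
    (evq x q).imJ = aeval x q.imJ := rfl

@[simp] lemma evq_imK (x : Ω × Fin 2 → ℝ) (q : Quaternion (Pol Ω)) :
    (evq x q).imK = aeval x q.imK := rfl

lemma evq_one (x : Ω × Fin 2 → ℝ) : evq x 1 = 1 := by
  ext <;> simp

lemma evq_mul (x : Ω × Fin 2 → ℝ) (p q : Quaternion (Pol Ω)) :
    evq x (p * q) = evq x p * evq x q := by
  ext <;> simp

lemma evq_star (x : Ω × Fin 2 → ℝ) (p : Quaternion (Pol Ω)) : evq x (star p) = star (evq x p) := by
  ext <;> simp

lemma evq_gen (x : Ω × Fin 2 → ℝ) (ω : Ω) : evq x (gen ω) = spec x ω := by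
  ext <;> simp [evq, gen, spec]

lemma evq_wp (x : Ω × Fin 2 → ℝ) (L : List (Ω × Bool)) :
    evq x (wp gen L) = wp (spec x) L := by
  induction L with
  | nil => exact evq_one x
  | cons a L ih =>
    rw [wp_cons, wp_cons, evq_mul, ih]
    split_ifs
    · rw [evq_gen]
    · rw [evq_star, evq_gen]

/-- The specialization to two by two matrices over the complex numbers. -/
def mat (f : Pol Ω →+* ℂ) (q : Quaternion (Pol Ω)) : Matrix (Fin 2) (Fin 2) ℂ :=
  !![f q.re + Complex.I * f q.imK, Complex.I * f q.imI - f q.imJ;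
    Complex.I * f q.imI + f q.imJ, f q.re - Complex.I * f q.imK]

lemma mat_one (f : Pol Ω →+* ℂ) : mat f 1 = 1 := by
  ext i j
  fin_cases i <;> fin_cases j <;> simp [mat]

lemma mat_mul (f : Pol Ω →+* ℂ) (p q : Quaternion (Pol Ω)) :
    mat f (p * q) = mat f p * mat f q := by
  have hI : Complex.I * Complex.I = -1 := Complex.I_mul_I
  ext i j
  fin_cases i <;> fin_cases j <;>
    simp [mat, Matrix.mul_apply, Fin.sum_univ_two]
  · linear_combination (-(f p.imK) * f q.imK - f p.imI * f q.imI) * hI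
  · linear_combination (-(f p.imK) * f q.imI + f p.imI * f q.imK) * hI
  · linear_combination (f p.imK * f q.imI - f p.imI * f q.imK) * hI
  · linear_combination (-(f p.imK) * f q.imK - f p.imI * f q.imI) * hI

/-- The idempotent (up to a factor) matrices of rank one. -/
def em (t : ℂ) : Matrix (Fin 2) (Fin 2) ℂ := !![1, t; t⁻¹, 1]

/-- The values of the specialization. -/
def val (σ : Ω → ℝ) (a : Ω × Fin 2) : ℂ :=
  if a.2 = 0 then -Complex.I * ((σ a.1 : ℂ) + (σ a.1 : ℂ)⁻¹) / 2
  else ((σ a.1 : ℂ)⁻¹ - (σ a.1 : ℂ)) / 2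

lemma mat_gen (σ : Ω → ℝ) (ω : Ω) :
    mat (eval₂Hom (Int.castRingHom ℂ) (val σ)) (gen ω) = em (σ ω) := by
  have hI : Complex.I * Complex.I = -1 := Complex.I_mul_I
  ext i j
  fin_cases i <;> fin_cases j <;> simp [mat, em, val]
  · linear_combination (-((σ ω : ℂ) + (σ ω : ℂ)⁻¹) / 2) * hI
  · linear_combination (-((σ ω : ℂ) + (σ ω : ℂ)⁻¹) / 2) * hI

lemma mat_star_gen (σ : Ω → ℝ) (ω : Ω) :
    mat (eval₂Hom (Int.castRingHom ℂ) (val σ)) (star (gen ω)) = em (-(σ ω)) := by
  have hI : Complex.I * Complex.I = -1 := Complex.I_mul_I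
  ext i j
  fin_cases i <;> fin_cases j <;> simp [mat, em, val, inv_neg]
  · linear_combination (((σ ω : ℂ) + (σ ω : ℂ)⁻¹) / 2) * hI
  · linear_combination (((σ ω : ℂ) + (σ ω : ℂ)⁻¹) / 2) * hI

/-- The parameter of a letter. -/
def par (σ : Ω → ℝ) (a : Ω × Bool) : ℂ := if a.2 then (σ a.1 : ℂ) else -(σ a.1 : ℂ)

lemma mat_wp (σ : Ω → ℝ) (L : List (Ω × Bool)) :
    mat (eval₂Hom (Int.castRingHom ℂ) (val σ)) (wp gen L) = (L.map fun a => em (par σ a)).prod := by
  induction L with
  | nil => rw [wp_nil, mat_one, List.map_nil, List.prod_nil]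
  | cons a L ih =>
    rw [wp_cons, mat_mul, ih, List.map_cons, List.prod_cons]
    congr 1
    unfold par
    split_ifs
    · exact mat_gen σ a.1
    · exact mat_star_gen σ a.1

lemma par_ne_zero (σ : Ω → ℝ) (hσ : ∀ ω, 0 < σ ω) (a : Ω × Bool) : par σ a ≠ 0 := by
  unfold par
  have : (σ a.1 : ℂ) ≠ 0 := by exact_mod_cast (hσ a.1).ne'
  split_ifs
  · exact this
  · exact neg_ne_zero.2 this

lemma par_add_ne (σ : Ω → ℝ) (hσ : ∀ ω, 0 < σ ω) (hinj : Function.Injective σ) (a b : Ω × Bool)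
    (h : a.1 = b.1 → a.2 = b.2) : par σ a + par σ b ≠ 0 := by
  intro h0
  by_cases h1 : a.1 = b.1
  · have h2 : a = b := Prod.ext h1 (h h1)
    subst h2
    have := par_ne_zero σ hσ a
    apply this
    linear_combination h0 / 2
  · unfold par at h0
    have hne : σ a.1 ≠ σ b.1 := fun h => h1 (hinj h)
    have ha := hσ a.1
    have hb := hσ b.1
    split_ifs at h0
    · have h2 : σ a.1 + σ b.1 = 0 := by exact_mod_cast h0
      linarith
    · have h2 : σ a.1 + -σ b.1 = 0 := by exact_mod_cast h0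
      apply hne
      linarith
    · have h2 : -σ a.1 + σ b.1 = 0 := by exact_mod_cast h0
      apply hne
      linarith
    · have h2 : -σ a.1 + -σ b.1 = 0 := by exact_mod_cast h0
      linarith

/-- The first column of the product of a nonempty reduced word. -/
lemma col (σ : Ω → ℝ) (hσ : ∀ ω, 0 < σ ω) (hinj : Function.Injective σ) (L : List (Ω × Bool)) :
    ∀ a : Ω × Bool, FreeGroup.IsReduced (a :: L) →
      ∃ b : ℂ, b ≠ 0 ∧ ((a :: L).map fun a => em (par σ a)).prod 0 0 = b ∧
        ((a :: L).map fun a => em (par σ a)).prod 1 0 = b * (par σ a)⁻¹ := by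
  induction L with
  | nil =>
    intro a _
    refine ⟨1, one_ne_zero, ?_, ?_⟩ <;> simp [em]
  | cons c L ih =>
    intro a hred
    rw [FreeGroup.isReduced_cons_cons] at hred
    obtain ⟨b, hb, h0, h1⟩ := ih c hred.2
    have hpc := par_ne_zero σ hσ c
    have hpa := par_ne_zero σ hσ a
    have hadd := par_add_ne σ hσ hinj a c hred.1
    rw [List.map_cons, List.prod_cons]
    generalize hM : ((c :: L).map fun a => em (par σ a)).prod = M at h0 h1 ⊢
    refine ⟨b * ((par σ a + par σ c) / par σ c), ?_, ?_, ?_⟩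
    · exact mul_ne_zero hb (div_ne_zero hadd hpc)
    · simp only [Matrix.mul_apply, Fin.sum_univ_two, em, Matrix.of_apply, Matrix.cons_val_zero,
        Matrix.cons_val_one, h0, h1, Matrix.cons_val', Matrix.cons_val_fin_one]
      field_simp
      ring
    · simp only [Matrix.mul_apply, Fin.sum_univ_two, em, Matrix.of_apply, Matrix.cons_val_zero,
        Matrix.cons_val_one, h0, h1, Matrix.cons_val', Matrix.cons_val_fin_one]
      field_simp
      ring

lemma em_det (t : ℂ) (ht : t ≠ 0) : (em t).det = 0 := by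
  simp [em, Matrix.det_fin_two, mul_inv_cancel₀ ht]

/-- Reduced words in the generic quaternions are not scalar. -/
lemma not_scalar (σ : Ω → ℝ) (hσ : ∀ ω, 0 < σ ω) (hinj : Function.Injective σ)
    (L : List (Ω × Bool)) (hL : L ≠ []) (hred : FreeGroup.IsReduced L)
    (hI : (wp gen L : Quaternion (Pol Ω)).imI = 0) (hJ : (wp gen L : Quaternion (Pol Ω)).imJ = 0)
    (hK : (wp gen L : Quaternion (Pol Ω)).imK = 0) : False := by
  set f := eval₂Hom (Int.castRingHom ℂ) (val σ) with hf
  have h1 := mat_wp σ L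
  rw [← hf] at h1
  have h2 : mat f (wp gen L) = (f (wp gen L).re) • (1 : Matrix (Fin 2) (Fin 2) ℂ) := by
    unfold mat
    rw [hI, hJ, hK]
    ext i j
    fin_cases i <;> fin_cases j <;> simp
  cases L with
  | nil => exact hL rfl
  | cons a L =>
    have hdet : (((a :: L).map fun a => em (par σ a)).prod).det = 0 := by
      rw [List.map_cons, List.prod_cons, Matrix.det_mul, em_det _ (par_ne_zero σ hσ a), zero_mul]
    rw [← h1, h2, Matrix.det_smul, Matrix.det_one, mul_one, Fintype.card_fin] at hdet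
    have h3 : f (wp gen (a :: L)).re = 0 := by
      exact pow_eq_zero_iff (two_ne_zero) |>.1 hdet
    obtain ⟨b, hb, h4, _⟩ := col σ hσ hinj L a hred
    rw [← h1, h2, h3, zero_smul] at h4
    exact hb h4.symm

/-- **Continuum many freely independent unit quaternions.** -/
theorem exists_free (Ω : Type) (hΩ : #Ω ≤ 𝔠) : ∃ u : Ω → ℍ[ℝ], (∀ ω, ‖u ω‖ = 1) ∧
    ∀ L : List (Ω × Bool), L ≠ [] → FreeGroup.IsReduced L → wp u L ≠ 1 := by
  have hΩ2 : #(Ω × Fin 2) ≤ 𝔠 := by
    rw [Cardinal.mk_prod]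
    simp only [Cardinal.lift_id, Cardinal.mk_fin]
    refine (mul_le_mul' hΩ (le_refl _)).trans ?_
    exact (Cardinal.mul_le_max_of_aleph0_le_left Cardinal.aleph0_le_continuum).trans
      (max_le le_rfl (Cardinal.nat_lt_continuum 2).le)
  obtain ⟨x, hx⟩ := exists_algInd (Ω × Fin 2) hΩ2
  have hnorm : ∀ ω, 0 < ‖spec x ω‖ := by
    intro ω
    rw [norm_pos_iff]
    intro h
    have := congrArg QuaternionAlgebra.re h
    simp [spec] at this
  refine ⟨fun ω => ((‖spec x ω‖⁻¹ : ℝ) : ℍ[ℝ]) * spec x ω, ?_, ?_⟩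
  · intro ω
    rw [norm_mul, Quaternion.norm_coe, norm_inv, norm_norm, inv_mul_cancel₀ (hnorm ω).ne']
  · intro L hL hred h1
    -- the word in `spec x` is a real scalar
    have hsc : ∀ L : List (Ω × Bool), ∃ r : ℝ, 0 < r ∧
        wp (fun ω => ((‖spec x ω‖⁻¹ : ℝ) : ℍ[ℝ]) * spec x ω) L = (r : ℍ[ℝ]) * wp (spec x) L := by
      intro L
      induction L with
      | nil => exact ⟨1, one_pos, by simp [wp_nil]⟩
      | cons a L ih =>
        obtain ⟨r, hr, h⟩ := ih
        refine ⟨‖spec x a.1‖⁻¹ * r, mul_pos (inv_pos.2 (hnorm _)) hr, ?_⟩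
        rw [wp_cons, wp_cons, h]
        split_ifs
        · push_cast
          rw [mul_assoc, ← mul_assoc (spec x a.1), ← Quaternion.coe_commutes r (spec x a.1)]
          simp only [mul_assoc]
        · rw [star_mul, Quaternion.star_coe]
          push_cast
          have e := Quaternion.coe_commutes r (star (spec x a.1))
          have e' := Quaternion.coe_commutes (‖spec x a.1‖⁻¹) (star (spec x a.1))
          push_cast at e'
          rw [← e', mul_assoc, ← mul_assoc (star (spec x a.1)), ← e]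
          simp only [mul_assoc]
    obtain ⟨r, hr, h2⟩ := hsc L
    rw [h1] at h2
    have h3 : wp (spec x) L = ((r⁻¹ : ℝ) : ℍ[ℝ]) := by
      have hr0 : (r : ℍ[ℝ]) ≠ 0 := by
        intro h
        exact hr.ne' (congrArg QuaternionAlgebra.re h)
      have h4 : (r : ℍ[ℝ]) * wp (spec x) L = (r : ℍ[ℝ]) * ((r⁻¹ : ℝ) : ℍ[ℝ]) := by
        rw [← h2]
        push_cast
        rw [mul_inv_cancel₀ hr0]
      exact mul_left_cancel₀ hr0 h4
    rw [← evq_wp] at h3
    have hinj : Function.Injective (aeval x : MvPolynomial (Ω × Fin 2) ℤ →ₐ[ℤ] ℝ) := hx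
    have hzero : ∀ p : Pol Ω, aeval x p = 0 → p = 0 := by
      intro p hp
      apply hinj
      rw [hp, map_zero]
    have hI : (wp gen L : Quaternion (Pol Ω)).imI = 0 := by
      apply hzero
      exact congrArg QuaternionAlgebra.imI h3
    have hJ : (wp gen L : Quaternion (Pol Ω)).imJ = 0 := by
      apply hzero
      exact congrArg QuaternionAlgebra.imJ h3
    have hK : (wp gen L : Quaternion (Pol Ω)).imK = 0 := by
      apply hzero
      exact congrArg QuaternionAlgebra.imK h3
    have hxinj : Function.Injective x := hx.injective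
    refine not_scalar (fun ω => Real.exp (x (ω, 0))) (fun ω => Real.exp_pos _) ?_ L hL hred hI hJ hK
    intro ω ω' h
    have := hxinj (Real.exp_injective h)
    simpa using this

end

end Pool.Agent.Q243.FreeQuat
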