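import Mathlib

/-!
# Embeddings of the affine plane of order three into Desarguesian planes

The incidence graph of `AG(2,3)` and its injective homomorphisms into the incidence graph of
`PG(2,F)`.
-/

set_option linter.unusedSectionVars false

namespace Pool.Agent.Q243.HessePlane

open Matrix

/-- A finite bipartite graph with labelled vertex classes. -/
structure Bip where
  V₁ : Type
  V₂ : Type
  fin₁ : Finite V₁
  fin₂ : Finite V₂
  E : V₁ → V₂ → Prop

/-- The number of label-preserving homomorphisms `H → G` which are injective on vertices. -/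
noncomputable def inj (H G : Bip) : ℕ :=
  Nat.card {f : (H.V₁ → G.V₁) × (H.V₂ → G.V₂) //
    (∀ x y, H.E x y → G.E (f.1 x) (f.2 y)) ∧ Function.Injective f.1 ∧ Function.Injective f.2}

instance {F : Type} [Field F] [Finite F] : Finite (Projectivization F (Fin 3 → F)) :=
  inferInstance

/-- The point-line incidence graph of the projective plane over `F`: points are the
one-dimensional subspaces, lines are the two-dimensional subspaces of `F³`. -/
noncomputable def plane (F : Type) [Field F] [Finite F] : Bip where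
  V₁ := Projectivization F (Fin 3 → F)
  V₂ := {W : Submodule F (Fin 3 → F) // Module.finrank F W = 2}
  fin₁ := inferInstance
  fin₂ := inferInstance
  E P ℓ := P.submodule ≤ ℓ.1

/-- Incidences of the affine plane of order three, in the form of the Hesse configuration: there
are nine points `(t, k)`, three lines `inl t` and nine lines `inr (b, c)` which contain the points
`(0, -b-c)`, `(1, b)`, `(2, c)`. -/
def inc (x : Fin 3 × ZMod 3) (y : Fin 3 ⊕ ZMod 3 × ZMod 3) : Prop :=
  match y with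
  | Sum.inl s => x.1 = s
  | Sum.inr z => (x.1 = 0 ∧ x.2 + z.1 + z.2 = 0) ∨ (x.1 = 1 ∧ x.2 = z.1) ∨ (x.1 = 2 ∧ x.2 = z.2)

instance : DecidableRel inc := by
  intro x y
  unfold inc
  rcases y with s | z
  · exact inferInstanceAs (Decidable (x.1 = s))
  · exact inferInstanceAs (Decidable ((x.1 = 0 ∧ x.2 + z.1 + z.2 = 0) ∨ (x.1 = 1 ∧ x.2 = z.1) ∨
      (x.1 = 2 ∧ x.2 = z.2)))

/-- The incidence graph of the affine plane of order three. -/
def hesse : Bip where
  V₁ := Fin 3 × ZMod 3
  V₂ := Fin 3 ⊕ ZMod 3 × ZMod 3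
  fin₁ := inferInstance
  fin₂ := inferInstance
  E := inc

/-! ### Non-existence -/

section coords

variable {F : Type} [Field F]

/-- The determinant of three vectors. -/
def D (u v w : Fin 3 → F) : F := (Matrix.of ![u, v, w]).det

lemma D_eq (u v w : Fin 3 → F) : D u v w =
    u 0 * (v 1 * w 2 - v 2 * w 1) - u 1 * (v 0 * w 2 - v 2 * w 0) + u 2 * (v 0 * w 1 - v 1 * w 0) := by
  unfold D
  rw [Matrix.det_fin_three]
  simp [Matrix.cons_val_zero, Matrix.cons_val_one]
  ring

/-- The coordinate computation: nine vectors with the incidences of `AG(2,3)` in a frame. -/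
lemma coord (A B C : ZMod 3 → (Fin 3 → F))
    (hA0 : A 0 = ![1, 0, 0]) (hA1 : A 1 = ![0, 1, 0]) (hB0 : B 0 = ![0, 0, 1])
    (hA : D (A 0) (A 1) (A 2) = 0) (hB : D (B 0) (B 1) (B 2) = 0)
    (hABC : ∀ b c, D (A (-b-c)) (B b) (C c) = 0)
    (h02 : D (A 0) (A 2) (B 0) ≠ 0) (h12 : D (A 1) (A 2) (B 0) ≠ 0)
    (hC : ∀ c, D (A 0) (A 1) (C c) ≠ 0) (hBn : ∀ c, D (A 0) (A 1) (B c) ≠ 0)
    (hBC : D (A 1) (B 0) (C 0) ≠ 0) :
    ∃ x y : F, x ≠ 0 ∧ x ^ 2 + x * y + y ^ 2 = 0 := by
  have h1 := hABC 0 0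
  have h2 := hABC 0 2
  have h3 := hABC 0 1
  have h4 := hABC 1 2
  have h5 := hABC 1 1
  have h6 := hABC 1 0
  have h7 := hABC 2 1
  have h8 := hABC 2 0
  have h9 := hABC 2 2
  have e1 : (-0 - 0 : ZMod 3) = 0 := by decide
  have e2 : (-0 - 2 : ZMod 3) = 1 := by decide
  have e3 : (-0 - 1 : ZMod 3) = 2 := by decide
  have e4 : (-1 - 2 : ZMod 3) = 0 := by decide
  have e5 : (-1 - 1 : ZMod 3) = 1 := by decide
  have e6 : (-1 - 0 : ZMod 3) = 2 := by decide
  have e7 : (-2 - 1 : ZMod 3) = 0 := by decide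
  have e8 : (-2 - 0 : ZMod 3) = 1 := by decide
  have e9 : (-2 - 2 : ZMod 3) = 2 := by decide
  rw [e1] at h1
  rw [e2] at h2
  rw [e3] at h3
  rw [e4] at h4
  rw [e5] at h5
  rw [e6] at h6
  rw [e7] at h7
  rw [e8] at h8
  rw [e9] at h9
  have hC0 := hC 0
  have hC1 := hC 1
  have hC2 := hC 2
  have hB1 := hBn 1
  have hB2 := hBn 2
  clear hABC hC hBn
  generalize A 2 = a at *
  generalize B 1 = b at *
  generalize B 2 = b' at *
  generalize C 0 = c0 at *
  generalize C 1 = c1 at *
  generalize C 2 = c2 at *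
  rw [hA0, hA1, hB0] at *
  rw [D_eq] at *
  simp only [Matrix.cons_val_zero, Matrix.cons_val_one, Matrix.cons_val] at *
  simp only [zero_mul, one_mul, mul_zero, mul_one, sub_zero, zero_sub, add_zero, zero_add, sub_self,
    neg_eq_zero, ne_eq, neg_neg] at *
  generalize a 0 = p at *
  generalize a 1 = q at *
  generalize a 2 = r at *
  generalize b 0 = f1 at *
  generalize b 1 = f2 at *
  generalize b 2 = f3 at *
  generalize b' 0 = g1 at *
  generalize b' 1 = g2 at *
  generalize b' 2 = g3 at *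
  generalize c0 0 = P at *
  generalize c0 1 = P' at *
  generalize c0 2 = R at *
  generalize c1 0 = U at *
  generalize c1 1 = V at *
  generalize c1 2 = W at *
  generalize c2 0 = S' at *
  generalize c2 1 = S at *
  generalize c2 2 = T at *
  subst hA
  subst h1
  subst h2
  have hVW : V = q * (U / (p * W)) * W := by
    field_simp
    linear_combination (-1 : F) * h3
  have hf1 : f1 = p * (U / (p * W)) * f3 := by
    field_simp
    linear_combination h5
  have hf2 : f2 = q * (S / (q * T)) * f3 := by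
    field_simp
    linear_combination h4
  have hg1 : g1 = p * (P / (p * R)) * g3 := by
    field_simp
    linear_combination h8
  have hg2 : g2 = q * (U / (p * W)) * g3 := by
    have e : g2 = V / W * g3 := by
      field_simp
      linear_combination h7
    rw [e, hVW]
    field_simp
  have hz : U / (p * W) = P / (p * R) + S / (q * T) := by
    rw [hf1, hf2] at h6
    have e : P = p * (P / (p * R)) * R := by field_simp
    have h6' : p * q * f3 * R * (S / (q * T) - (U / (p * W)) + P / (p * R)) = 0 := by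
      linear_combination h6 - q * f3 * e
    have := (mul_eq_zero.1 h6').resolve_left (by simp [h12, h02, hB1, hC0])
    linear_combination (-1 : F) * this
  refine ⟨P / (p * R), S / (q * T), ?_, ?_⟩
  · exact div_ne_zero hBC (mul_ne_zero h12 hC0)
  · rw [hf1, hf2, hg1, hg2, hz] at hB
    have h' : p * q * f3 * g3 * ((P / (p * R)) ^ 2 + P / (p * R) * (S / (q * T))
        + (S / (q * T)) ^ 2) = 0 := by
      rw [← hB]
      ring
    exact (mul_eq_zero.1 h').resolve_left (by simp [h12, h02, hB1, hB2])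

/-- Three vectors in a two-dimensional subspace have determinant zero. -/
lemma D_eq_zero {W : Submodule F (Fin 3 → F)} (hW : Module.finrank F W = 2) {u v w : Fin 3 → F}
    (hu : u ∈ W) (hv : v ∈ W) (hw : w ∈ W) : D u v w = 0 := by
  by_contra h
  have hli := Matrix.linearIndependent_rows_of_det_ne_zero h
  let f : Fin 3 → W := ![⟨u, hu⟩, ⟨v, hv⟩, ⟨w, hw⟩]
  have hf : (W.subtype ∘ f) = (Matrix.of ![u, v, w]).row := by
    funext i
    fin_cases i <;> rfl
  have hlf : LinearIndependent F f := by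
    apply LinearIndependent.of_comp W.subtype
    rw [hf]
    exact hli
  have := hlf.fintype_card_le_finrank
  rw [hW, Fintype.card_fin] at this
  omega

/-- If the determinant vanishes, the third vector is in any subspace containing the first two,
provided these are independent. -/
lemma mem_of_D {W : Submodule F (Fin 3 → F)} {u v w : Fin 3 → F}
    (hu : u ∈ W) (hv : v ∈ W) (huv : LinearIndependent F ![u, v]) (h : D u v w = 0) : w ∈ W := by
  obtain ⟨c, hc, h0⟩ := Matrix.exists_vecMul_eq_zero_iff.2 h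
  have h1 : c 0 • u + c 1 • v + c 2 • w = 0 := by
    rw [← h0]
    funext i
    simp [Matrix.vecMul, dotProduct, Fin.sum_univ_three]
  have hc2 : c 2 ≠ 0 := by
    intro hc2
    rw [hc2, zero_smul, add_zero] at h1
    rw [LinearIndependent.pair_iff] at huv
    obtain ⟨h3, h4⟩ := huv _ _ h1
    apply hc
    funext i
    fin_cases i
    · exact h3
    · exact h4
    · exact hc2
  have h2 : w = (c 2)⁻¹ • (-(c 0 • u + c 1 • v)) := by
    rw [eq_inv_smul_iff₀ hc2]
    exact eq_neg_of_add_eq_zero_right h1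
  rw [h2]
  exact W.smul_mem _ (W.neg_mem (W.add_mem (W.smul_mem _ hu) (W.smul_mem _ hv)))

lemma D_mul (u v w : Fin 3 → F) (N : Matrix (Fin 3) (Fin 3) F) :
    D (u ᵥ* N) (v ᵥ* N) (w ᵥ* N) = D u v w * N.det := by
  unfold D
  rw [← Matrix.det_mul]
  congr 1
  ext i j
  fin_cases i <;> rfl

/-- The frame version of `coord`. -/
lemma frame (v : Fin 3 × ZMod 3 → (Fin 3 → F))
    (hcol : ∀ x y z ℓ, inc x ℓ → inc y ℓ → inc z ℓ → D (v x) (v y) (v z) = 0)
    (hnc : ∀ x y z, x ≠ y → x ≠ z → (∀ ℓ, ¬ (inc x ℓ ∧ inc y ℓ ∧ inc z ℓ)) →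
      D (v x) (v y) (v z) ≠ 0) :
    ∃ x y : F, x ≠ 0 ∧ x ^ 2 + x * y + y ^ 2 = 0 := by
  set M : Matrix (Fin 3) (Fin 3) F := Matrix.of ![v (0, 0), v (0, 1), v (1, 0)] with hM
  have hdet : M.det ≠ 0 := hnc (0, 0) (0, 1) (1, 0) (by decide) (by decide) (by decide)
  have hMu : IsUnit M.det := hdet.isUnit
  have hN : M⁻¹.det ≠ 0 := by
    rw [Matrix.det_nonsing_inv]
    simpa using hdet
  have hrow : ∀ i, (M i) ᵥ* M⁻¹ = (1 : Matrix (Fin 3) (Fin 3) F) i := by
    intro i
    rw [← Matrix.mul_nonsing_inv M hMu]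
    rfl
  have key : ∀ x y z, D (v x ᵥ* M⁻¹) (v y ᵥ* M⁻¹) (v z ᵥ* M⁻¹) = D (v x) (v y) (v z) * M⁻¹.det :=
    fun x y z => D_mul _ _ _ _
  refine coord (fun k => v (0, k) ᵥ* M⁻¹) (fun k => v (1, k) ᵥ* M⁻¹) (fun k => v (2, k) ᵥ* M⁻¹)
    ?_ ?_ ?_ ?_ ?_ ?_ ?_ ?_ ?_ ?_ ?_
  · have := hrow 0
    change v (0, 0) ᵥ* M⁻¹ = _ at this
    rw [this]
    funext i
    fin_cases i <;> rfl
  · have := hrow 1
    change v (0, 1) ᵥ* M⁻¹ = _ at this
    rw [this]
    funext i
    fin_cases i <;> rfl
  · have := hrow 2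
    change v (1, 0) ᵥ* M⁻¹ = _ at this
    rw [this]
    funext i
    fin_cases i <;> rfl
  · rw [key, hcol _ _ _ (Sum.inl 0) (by decide) (by decide) (by decide), zero_mul]
  · rw [key, hcol _ _ _ (Sum.inl 1) (by decide) (by decide) (by decide), zero_mul]
  · intro b c
    rw [key, hcol _ _ _ (Sum.inr (b, c)) (by revert b c; decide) (by revert b c; decide)
      (by revert b c; decide), zero_mul]
  · rw [key]
    exact mul_ne_zero (hnc _ _ _ (by decide) (by decide) (by decide)) hN
  · rw [key]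
    exact mul_ne_zero (hnc _ _ _ (by decide) (by decide) (by decide)) hN
  · intro c
    rw [key]
    exact mul_ne_zero (hnc _ _ _ (by decide) (by revert c; decide) (by revert c; decide)) hN
  · intro c
    rw [key]
    exact mul_ne_zero (hnc _ _ _ (by decide) (by revert c; decide) (by revert c; decide)) hN
  · rw [key]
    exact mul_ne_zero (hnc _ _ _ (by decide) (by decide) (by decide)) hN

end coords

section embed

variable {F : Type} [Field F] [Finite F]

/-- An embedding of `AG(2,3)` in `PG(2,F)` gives a solution of `x² + x y + y² = 0`. -/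
lemma solution_of_embedding (f : (hesse.V₁ → (plane F).V₁) × (hesse.V₂ → (plane F).V₂))
    (hE : ∀ x y, hesse.E x y → (plane F).E (f.1 x) (f.2 y)) (h1 : Function.Injective f.1)
    (h2 : Function.Injective f.2) : ∃ x y : F, x ≠ 0 ∧ x ^ 2 + x * y + y ^ 2 = 0 := by
  let pt : Fin 3 × ZMod 3 → Projectivization F (Fin 3 → F) := f.1
  let ln : Fin 3 ⊕ ZMod 3 × ZMod 3 → {W : Submodule F (Fin 3 → F) // Module.finrank F W = 2} := f.2
  have hpt : Function.Injective pt := h1
  have hln : Function.Injective ln := h2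
  have hinc : ∀ x ℓ, inc x ℓ → (pt x).rep ∈ (ln ℓ).1 := by
    intro x ℓ h
    have h3 : (pt x).submodule ≤ (ln ℓ).1 := hE x ℓ h
    rw [Projectivization.submodule_eq] at h3
    exact h3 (Submodule.mem_span_singleton_self _)
  have hline : ∀ x y : Fin 3 × ZMod 3, x ≠ y → ∃ ℓ, inc x ℓ ∧ inc y ℓ := by decide
  refine frame (fun x => (pt x).rep) ?_ ?_
  · intro x y z ℓ hx hy hz
    exact D_eq_zero (ln ℓ).2 (hinc x ℓ hx) (hinc y ℓ hy) (hinc z ℓ hz)
  · intro x y z hxy hxz hno h0
    obtain ⟨ℓ, hxℓ, hyℓ⟩ := hline x y hxy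
    obtain ⟨m, hxm, hzm⟩ := hline x z hxz
    have hi1 : LinearIndependent F ![(pt x).rep, (pt y).rep] :=
      Projectivization.linearIndependent_pair_iff_ne.2 (hpt.ne hxy)
    have hi2 : LinearIndependent F ![(pt x).rep, (pt z).rep] :=
      Projectivization.linearIndependent_pair_iff_ne.2 (hpt.ne hxz)
    have hz : (pt z).rep ∈ (ln ℓ).1 := mem_of_D (hinc x ℓ hxℓ) (hinc y ℓ hyℓ) hi1 h0
    have hspan : ∀ W : {W : Submodule F (Fin 3 → F) // Module.finrank F W = 2},
        (pt x).rep ∈ W.1 → (pt z).rep ∈ W.1 →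
        Submodule.span F (Set.range ![(pt x).rep, (pt z).rep]) = W.1 := by
      intro W hx hz
      apply Submodule.eq_of_le_of_finrank_eq
      · rw [Submodule.span_le]
        rintro _ ⟨i, rfl⟩
        fin_cases i
        · exact hx
        · exact hz
      · rw [finrank_span_eq_card hi2, W.2, Fintype.card_fin]
    have hlm : ln ℓ = ln m := by
      apply Subtype.ext
      rw [← hspan _ (hinc x ℓ hxℓ) hz, hspan _ (hinc x m hxm) (hinc z m hzm)]
    have := hln hlm
    subst this
    exact hno ℓ ⟨hxℓ, hyℓ, hzm⟩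

end embed

/-! ### Existence -/

section exist

variable {F : Type} [Field F] [Finite F]

/-- The functional `x ↦ v · x`. -/
def dotl (v : Fin 3 → F) : (Fin 3 → F) →ₗ[F] F where
  toFun x := v ⬝ᵥ x
  map_add' := dotProduct_add v
  map_smul' := by
    intro c x
    rw [dotProduct_smul]
    rfl

lemma finrank_ker_dotl {v : Fin 3 → F} (hv : v ≠ 0) :
    Module.finrank F (LinearMap.ker (dotl v)) = 2 := by
  have hne : dotl v ≠ 0 := by
    intro h
    apply hv
    funext i
    have := LinearMap.congr_fun h (Pi.single i 1)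
    simpa [dotl] using this
  have := Module.Dual.finrank_ker_add_one_of_ne_zero (f := dotl v) hne
  rw [Module.finrank_fin_fun] at this
  omega

/-- The powers of the root of unity. -/
def chi (ω : F) (k : ZMod 3) : F := ω ^ k.val

lemma chi_add {ω : F} (h : ω ^ 3 = 1) (a b : ZMod 3) : chi ω (a + b) = chi ω a * chi ω b := by
  unfold chi
  rw [ZMod.val_add, ← pow_add, ← pow_eq_pow_mod _ h]

lemma chi_inj {ω : F} (h : IsPrimitiveRoot ω 3) {a b : ZMod 3} (hab : chi ω a = chi ω b) :
    a = b :=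
  ZMod.val_injective 3 (h.pow_inj (ZMod.val_lt a) (ZMod.val_lt b) hab)

lemma chi_ne {ω : F} (h : IsPrimitiveRoot ω 3) (a : ZMod 3) : chi ω a ≠ 0 :=
  pow_ne_zero _ (h.ne_zero (by norm_num))

/-- Coordinates of the points. -/
def pvec (ω : F) (x : Fin 3 × ZMod 3) : Fin 3 → F :=
  if x.1 = 0 then ![0, 1, -chi ω x.2] else
    if x.1 = 1 then ![-chi ω x.2, 0, 1] else ![1, -chi ω x.2, 0]

/-- Coordinates of the lines. -/
def lvec (ω : F) : Fin 3 ⊕ ZMod 3 × ZMod 3 → (Fin 3 → F)
  | Sum.inl s => Pi.single s 1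
  | Sum.inr z => ![1, chi ω (-z.2), chi ω z.1]

lemma pvec_ne (ω : F) (x : Fin 3 × ZMod 3) : pvec ω x ≠ 0 := by
  obtain ⟨t, k⟩ := x
  unfold pvec
  fin_cases t
  · intro h
    have := congrFun h 1
    simp at this
  · intro h
    have := congrFun h 2
    simp at this
  · intro h
    have := congrFun h 0
    simp at this

lemma lvec_ne (ω : F) (y : Fin 3 ⊕ ZMod 3 × ZMod 3) : lvec ω y ≠ 0 := by
  rcases y with s | z
  · intro h
    have := congrFun h s
    simp [lvec] at this
  · intro h
    have := congrFun h 0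
    simp [lvec] at this

lemma dot_iff {ω : F} (h : IsPrimitiveRoot ω 3) (x : Fin 3 × ZMod 3)
    (y : Fin 3 ⊕ ZMod 3 × ZMod 3) : lvec ω y ⬝ᵥ pvec ω x = 0 ↔ inc x y := by
  obtain ⟨t, k⟩ := x
  have hk := chi_ne h k
  rcases y with s | ⟨b, c⟩
  · fin_cases t <;> fin_cases s <;>
      simp [lvec, pvec, inc, dotProduct, Pi.single_apply, hk]
  · fin_cases t
    · have e : lvec ω (Sum.inr (b, c)) ⬝ᵥ pvec ω ((0 : Fin 3), k)
          = chi ω (-c) - chi ω (k + b) := by
        rw [chi_add h.pow_eq_one]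
        simp [lvec, pvec, dotProduct, Fin.sum_univ_three]
        ring
      change lvec ω (Sum.inr (b, c)) ⬝ᵥ pvec ω ((0 : Fin 3), k) = 0 ↔ _
      rw [e, sub_eq_zero]
      constructor
      · intro h1
        have h2 := chi_inj h h1
        left
        refine ⟨rfl, ?_⟩
        change k + b + c = 0
        rw [← h2]
        ring
      · rintro (⟨_, h1⟩ | ⟨h1, _⟩ | ⟨h1, _⟩)
        · congr 1
          change k + b + c = 0 at h1
          exact (eq_neg_of_add_eq_zero_left h1).symm
        · exact absurd (show (0 : Fin 3) = 1 from h1) (by decide)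
        · exact absurd (show (0 : Fin 3) = 2 from h1) (by decide)
    · have e : lvec ω (Sum.inr (b, c)) ⬝ᵥ pvec ω ((1 : Fin 3), k) = chi ω b - chi ω k := by
        simp [lvec, pvec, dotProduct, Fin.sum_univ_three]
        ring
      change lvec ω (Sum.inr (b, c)) ⬝ᵥ pvec ω ((1 : Fin 3), k) = 0 ↔ _
      rw [e, sub_eq_zero]
      constructor
      · intro h1
        exact Or.inr (Or.inl ⟨rfl, (chi_inj h h1).symm⟩)
      · rintro (⟨h1, _⟩ | ⟨_, h1⟩ | ⟨h1, _⟩)
        · exact absurd (show (1 : Fin 3) = 0 from h1) (by decide)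
        · exact congrArg _ (show k = b from h1).symm
        · exact absurd (show (1 : Fin 3) = 2 from h1) (by decide)
    · have e : lvec ω (Sum.inr (b, c)) ⬝ᵥ pvec ω ((2 : Fin 3), k)
          = chi ω 0 - chi ω (k + -c) := by
        rw [chi_add h.pow_eq_one]
        simp [lvec, pvec, dotProduct, Fin.sum_univ_three, chi]
        ring
      change lvec ω (Sum.inr (b, c)) ⬝ᵥ pvec ω ((2 : Fin 3), k) = 0 ↔ _
      rw [e, sub_eq_zero]
      constructor
      · intro h1
        have h2 := chi_inj h h1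
        refine Or.inr (Or.inr ⟨rfl, ?_⟩)
        change k = c
        have h3 : k + -c = 0 := h2.symm
        rwa [← sub_eq_add_neg, sub_eq_zero] at h3
      · rintro (⟨h1, _⟩ | ⟨h1, _⟩ | ⟨_, h1⟩)
        · exact absurd (show (2 : Fin 3) = 0 from h1) (by decide)
        · exact absurd (show (2 : Fin 3) = 1 from h1) (by decide)
        · rw [show k = c from h1, add_neg_cancel]

/-- If `F` contains a primitive third root of unity then `AG(2,3)` embeds in `PG(2,F)`. -/
lemma inj_pos {ω : F} (h : IsPrimitiveRoot ω 3) : 0 < inj hesse (plane F) := by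
  let f1 : hesse.V₁ → (plane F).V₁ := fun x => Projectivization.mk F (pvec ω x) (pvec_ne ω x)
  let f2 : hesse.V₂ → (plane F).V₂ := fun y =>
    ⟨LinearMap.ker (dotl (lvec ω y)), finrank_ker_dotl (lvec_ne ω y)⟩
  have key : ∀ x y, (plane F).E (f1 x) (f2 y) ↔ inc x y := by
    intro x y
    change (Projectivization.mk F (pvec ω x) (pvec_ne ω x)).submodule
      ≤ LinearMap.ker (dotl (lvec ω y)) ↔ _
    rw [Projectivization.submodule_mk, Submodule.span_singleton_le_iff_mem, LinearMap.mem_ker]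
    exact dot_iff h x y
  have hs1 : ∀ x y : Fin 3 × ZMod 3, x ≠ y → ∃ ℓ, inc x ℓ ∧ ¬ inc y ℓ := by decide
  have hs2 : ∀ l m : Fin 3 ⊕ ZMod 3 × ZMod 3, l ≠ m → ∃ x, inc x l ∧ ¬ inc x m := by decide
  have hi1 : Function.Injective f1 := by
    intro x y hxy
    by_contra hne
    obtain ⟨ℓ, hx, hy⟩ := hs1 x y hne
    exact hy ((key y ℓ).1 (hxy ▸ (key x ℓ).2 hx))
  have hi2 : Function.Injective f2 := by
    intro l m hlm
    by_contra hne
    obtain ⟨x, hx, hy⟩ := hs2 l m hne
    exact hy ((key x m).1 (hlm ▸ (key x l).2 hx))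
  have hfin : Finite {f : (hesse.V₁ → (plane F).V₁) × (hesse.V₂ → (plane F).V₂) //
      (∀ x y, hesse.E x y → (plane F).E (f.1 x) (f.2 y)) ∧ Function.Injective f.1 ∧
        Function.Injective f.2} := by
    have := hesse.fin₁
    have := hesse.fin₂
    have := (plane F).fin₁
    have := (plane F).fin₂
    infer_instance
  unfold inj
  rw [Nat.card_pos_iff]
  exact ⟨⟨⟨(f1, f2), fun x y hxy => (key x y).2 hxy, hi1, hi2⟩⟩, hfin⟩

end exist

/-! ### Prime fields -/

lemma inj_pos_of_one_mod (p : ℕ) [Fact p.Prime] (hp : p % 3 = 1) :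
    0 < inj hesse (plane (ZMod p)) := by
  have h3 : 3 ∣ Fintype.card (ZMod p)ˣ := by
    rw [ZMod.card_units p]
    omega
  obtain ⟨x, hx⟩ := exists_prime_orderOf_dvd_card 3 h3
  have h : IsPrimitiveRoot (x : ZMod p) 3 := by
    rw [IsPrimitiveRoot.coe_units_iff]
    rw [← hx]
    exact IsPrimitiveRoot.orderOf x
  exact inj_pos h

lemma inj_zero_of_two_mod (p : ℕ) [Fact p.Prime] (hp : p % 3 = 2) :
    inj hesse (plane (ZMod p)) = 0 := by
  unfold inj
  rw [Nat.card_eq_zero]
  left
  constructor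
  rintro ⟨f, hE, h1, h2⟩
  obtain ⟨x, y, hx, hxy⟩ := solution_of_embedding f hE h1 h2
  have hcube : y ^ 3 = x ^ 3 := by linear_combination (y - x) * hxy
  have hy : y ≠ 0 := by
    intro hy
    rw [hy] at hcube
    apply hx
    have : x ^ 3 = 0 := by rw [← hcube]; ring
    exact pow_eq_zero_iff (by norm_num) |>.1 this
  have hfx := ZMod.pow_card_sub_one_eq_one hx
  have hfy := ZMod.pow_card_sub_one_eq_one hy
  obtain ⟨m, hm⟩ : ∃ m, p - 1 = 3 * m + 1 := ⟨(p - 2) / 3, by omega⟩
  rw [hm, pow_add, pow_mul, pow_one] at hfx hfy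
  rw [hcube] at hfy
  have hxy' : y = x := by
    have hne : (x ^ 3) ^ m ≠ 0 := pow_ne_zero _ (pow_ne_zero _ hx)
    exact mul_left_cancel₀ hne (hfy.trans hfx.symm)
  rw [hxy'] at hxy
  have h3 : (3 : ZMod p) * x ^ 2 = 0 := by linear_combination hxy
  rcases mul_eq_zero.1 h3 with h | h
  · have h' : ((3 : ℕ) : ZMod p) = 0 := by exact_mod_cast h
    rw [ZMod.natCast_eq_zero_iff] at h'
    have := (Nat.prime_dvd_prime_iff_eq (Fact.out : p.Prime) Nat.prime_three).1 h'
    omega
  · exact hx (pow_eq_zero_iff (by norm_num) |>.1 h)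

end Pool.Agent.Q243.HessePlane
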