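import Mathlib.Order.Atoms
import Mathlib.Data.Set.Card
import Mathlib.Order.Interval.Set.Nat
import Mathlib.Tactic

/-!
Completary multifuncoids of the form `(𝒫 Ω)^n`.
-/

set_option autoImplicit false

namespace Pool.Agent.Q243.Multifuncoid

/-- A completary multifuncoid of the form `(𝒫 Ω)^n`: a set `f` of families `n → Set Ω` such that
`L₀ ∪ L₁ ∈ f` iff some mixture `(L_{c(i)} i)` lies in `f`, and containing no family with an empty
member. -/
def IsCMF {Ω n : Type*} (f : Set (n → Set Ω)) : Prop :=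
  (∀ L : Fin 2 → n → Set Ω, (fun i => L 0 i ∪ L 1 i) ∈ f ↔ ∃ c : n → Fin 2, (fun i => L (c i) i) ∈ f) ∧
    ∀ L : n → Set Ω, (∃ i, L i = ∅) → L ∉ f

/-- The poset of completary multifuncoids of the form `(𝒫 Ω)^n`, ordered by inclusion. -/
def CMF (Ω n : Type*) := {f : Set (n → Set Ω) // IsCMF f}

instance (Ω n : Type*) : PartialOrder (CMF Ω n) := Subtype.partialOrder _

theorem isCMF_empty (Ω n : Type*) : IsCMF (∅ : Set (n → Set Ω)) :=
  ⟨fun L => by simp, fun L _ h => h⟩

instance (Ω n : Type*) : OrderBot (CMF Ω n) where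
  bot := ⟨∅, isCMF_empty Ω n⟩
  bot_le f := Set.empty_subset f.1

theorem le_def {Ω n : Type*} (f g : CMF Ω n) : f ≤ g ↔ f.1 ⊆ g.1 := Iff.rfl

theorem bot_def (Ω n : Type*) : (⊥ : CMF Ω n).1 = ∅ := rfl

theorem IsCMF.mono {Ω n : Type*} {f : Set (n → Set Ω)} (hf : IsCMF f) {L M : n → Set Ω}
    (hL : L ∈ f) (h : ∀ i, L i ⊆ M i) : M ∈ f := by
  have := (hf.1 ![L, M]).2 ⟨fun _ => 0, by simpa using hL⟩
  have e : (fun i => (![L, M] : Fin 2 → n → Set Ω) 0 i ∪ (![L, M] : Fin 2 → n → Set Ω) 1 i) = M := by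
    funext i
    simpa using h i
  rwa [e] at this

/-- The part of `f` below `L`. -/
def cut {Ω n : Type*} (f : Set (n → Set Ω)) (L : n → Set Ω) : Set (n → Set Ω) :=
  {M | (fun i => M i ∩ L i) ∈ f}

theorem isCMF_cut {Ω n : Type*} {f : Set (n → Set Ω)} (hf : IsCMF f) (L : n → Set Ω) :
    IsCMF (cut f L) := by
  refine ⟨fun M => ?_, fun M ⟨i, hi⟩ hM => ?_⟩
  · have := hf.1 (fun k i => M k i ∩ L i)
    simp only [cut, Set.mem_ofPred_eq, Set.union_inter_distrib_right]
    exact this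
  · exact hf.2 _ ⟨i, by simp [hi]⟩ hM

/-- In an atom, componentwise intersections of members are members. -/
theorem atom_inter {Ω n : Type*} {a : CMF Ω n} (ha : IsAtom a) {L M : n → Set Ω}
    (hL : L ∈ a.1) (hM : M ∈ a.1) : (fun i => M i ∩ L i) ∈ a.1 := by
  obtain ⟨g, hg⟩ : ∃ g : CMF Ω n, g.1 = cut a.1 L := ⟨⟨cut a.1 L, isCMF_cut a.2 L⟩, rfl⟩
  have h1 : g ≤ a := by
    intro N hN
    rw [hg] at hN
    exact a.2.mono hN fun i => Set.inter_subset_left
  have h2 : g ≠ ⊥ := by
    intro h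
    have h3 : cut a.1 L = ∅ := by rw [← hg, h]; rfl
    have h4 : L ∈ cut a.1 L := by
      show (fun i => L i ∩ L i) ∈ a.1
      simpa using hL
    rw [h3] at h4
    exact h4
  have h3 := (ha.le_iff_eq h2).1 h1
  have h4 : M ∈ cut a.1 L := by
    rw [← hg, h3]; exact hM
  exact h4

/-- The multifuncoid of all `L : ℕ → Set ℕ` such that `L i` meets `[0,i]` for all `i`, and the
sizes of `L i ∩ [0,i]` are unbounded. -/
def big : Set (ℕ → Set ℕ) :=
  {L | (∀ i, (L i ∩ Set.Iic i).Nonempty) ∧ ∀ N : ℕ, ∃ i, N ≤ (L i ∩ Set.Iic i).ncard}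

theorem fin_cap (s : Set ℕ) (i : ℕ) : (s ∩ Set.Iic i).Finite :=
  (Set.finite_Iic i).subset Set.inter_subset_right

theorem isCMF_big : IsCMF big := by
  classical
  refine ⟨fun L => ⟨fun h => ?_, fun ⟨c, hc⟩ => ?_⟩, ?_⟩
  · refine ⟨fun i => if (L 0 i ∩ Set.Iic i).ncard < (L 1 i ∩ Set.Iic i).ncard then 1 else 0, ?_⟩
    set c : ℕ → Fin 2 :=
      fun i => if (L 0 i ∩ Set.Iic i).ncard < (L 1 i ∩ Set.Iic i).ncard then 1 else 0 with hc
    have key : ∀ i, ((L 0 i ∪ L 1 i) ∩ Set.Iic i).ncard ≤ 2 * (L (c i) i ∩ Set.Iic i).ncard := by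
      intro i
      have h1 : ((L 0 i ∪ L 1 i) ∩ Set.Iic i).ncard ≤
          (L 0 i ∩ Set.Iic i).ncard + (L 1 i ∩ Set.Iic i).ncard := by
        rw [Set.union_inter_distrib_right]
        exact Set.ncard_union_le _ _
      rw [hc]
      dsimp only
      split_ifs with h2 <;> omega
    refine ⟨fun i => ?_, fun N => ?_⟩
    · have h1 := h.1 i
      have h2 : 0 < ((L 0 i ∪ L 1 i) ∩ Set.Iic i).ncard := (Set.ncard_pos (fin_cap _ i)).2 h1
      have h3 := key i
      show (L (c i) i ∩ Set.Iic i).Nonempty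
      exact (Set.ncard_pos (fin_cap _ i)).1 (by omega)
    · obtain ⟨i, hi⟩ := h.2 (2 * N)
      refine ⟨i, ?_⟩
      have h3 := key i
      have h4 : 2 * N ≤ ((L 0 i ∪ L 1 i) ∩ Set.Iic i).ncard := hi
      show N ≤ (L (c i) i ∩ Set.Iic i).ncard
      omega
  · have hsub : ∀ i, L (c i) i ∩ Set.Iic i ⊆ (L 0 i ∪ L 1 i) ∩ Set.Iic i := by
      intro i
      refine Set.inter_subset_inter_left _ ?_
      rcases Fin.exists_fin_two.1 ⟨c i, rfl⟩ with h | h
      · rw [← h]; exact Set.subset_union_left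
      · rw [← h]; exact Set.subset_union_right
    refine ⟨fun i => (hc.1 i).mono (hsub i), fun N => ?_⟩
    obtain ⟨i, hi⟩ := hc.2 N
    exact ⟨i, hi.trans (Set.ncard_le_ncard (hsub i) (fin_cap _ i))⟩
  · rintro L ⟨i, hi⟩ hL
    have := hL.1 i
    rw [hi] at this
    simp at this

/-- The element `big` of the poset. -/
def bigElt : CMF ℕ ℕ := ⟨big, isCMF_big⟩

theorem univ_mem_big : (fun _ => Set.univ : ℕ → Set ℕ) ∈ big := by
  refine ⟨fun i => ⟨0, by simp⟩, fun N => ⟨N, ?_⟩⟩
  rw [Set.univ_inter, Set.ncard_eq_toFinset_card']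
  simp

theorem bigElt_ne_bot : bigElt ≠ ⊥ := by
  intro h
  have h1 : big = ∅ := congrArg Subtype.val h
  have h2 := univ_mem_big
  rw [h1] at h2
  exact h2

/-- There is no atom below `big`. -/
theorem no_atom {a : CMF ℕ ℕ} (ha : IsAtom a) : ¬ a ≤ bigElt := by
  classical
  intro hle
  have hne : ∃ L, L ∈ a.1 := by
    by_contra h
    push Not at h
    apply ha.1
    apply Subtype.ext
    exact Set.eq_empty_of_forall_notMem h
  obtain ⟨L0, hL0⟩ := hne
  have hempty : ∀ L : ℕ → Set ℕ, ∀ i, L i = ∅ → L ∉ a.1 := fun L i hi => a.2.2 L ⟨i, hi⟩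
  -- members may be cut down to `[0,i]`
  have hcut : ∀ L ∈ a.1, (fun i => L i ∩ Set.Iic i) ∈ a.1 := by
    intro L hL
    have h1 := (a.2.1 ![fun i => L i ∩ Set.Iic i, fun i => L i \ Set.Iic i]).1 (by
      have e : (fun i => (![fun i => L i ∩ Set.Iic i, fun i => L i \ Set.Iic i] :
          Fin 2 → ℕ → Set ℕ) 0 i ∪ (![fun i => L i ∩ Set.Iic i, fun i => L i \ Set.Iic i] :
          Fin 2 → ℕ → Set ℕ) 1 i) = L := by
        funext i
        simp
      rw [e]; exact hL)
    obtain ⟨c, hc⟩ := h1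
    have hc0 : ∀ i, c i = 0 := by
      intro i
      by_contra hne
      have hc1 : c i = 1 := by omega
      have := (hle hc).1 i
      beta_reduce at this
      rw [hc1] at this
      simp only [Matrix.cons_val_one, Matrix.cons_val_fin_one] at this
      obtain ⟨x, hx⟩ := this
      exact hx.1.2 hx.2
    have e : (fun i => (![fun i => L i ∩ Set.Iic i, fun i => L i \ Set.Iic i] :
          Fin 2 → ℕ → Set ℕ) (c i) i) = (fun i => L i ∩ Set.Iic i) := by
      funext i
      rw [hc0 i]; rfl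
    rwa [e] at hc
  -- the family of `i`-th components
  have hsingle : ∀ i, ∃ x, ∃ L ∈ a.1, L i = {x} := by
    intro i
    have hex : ∃ k, ∃ L ∈ a.1, (L i).Finite ∧ (L i).ncard = k :=
      ⟨_, _, hcut L0 hL0, fin_cap _ i, rfl⟩
    obtain ⟨L, hL, hfin, hk⟩ := Nat.find_spec hex
    have hmin := fun m (hm : m < Nat.find hex) => Nat.find_min hex hm
    have hLne : (L i).Nonempty := by
      rw [Set.nonempty_iff_ne_empty]
      intro h
      exact hempty L i h hL
    obtain ⟨x, hx⟩ := hLne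
    refine ⟨x, ?_⟩
    -- split the i-th component
    have h1 := (a.2.1 ![fun j => if j = i then {x} else L j, fun j => if j = i then L i \ {x} else L j]).1 (by
      have e : (fun j => (![fun j => if j = i then {x} else L j,
          fun j => if j = i then L i \ {x} else L j] : Fin 2 → ℕ → Set ℕ) 0 j ∪
          (![fun j => if j = i then {x} else L j,
          fun j => if j = i then L i \ {x} else L j] : Fin 2 → ℕ → Set ℕ) 1 j) = L := by
        funext j
        by_cases hj : j = i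
        · subst hj
          simpa using hx
        · simp [hj]
      rw [e]; exact hL)
    obtain ⟨c, hc⟩ := h1
    rcases (show c i = 0 ∨ c i = 1 by omega) with h0 | h1
    · refine ⟨_, hc, ?_⟩
      simp [h0]
    · exfalso
      have hci : (![fun j => if j = i then {x} else L j,
          fun j => if j = i then L i \ {x} else L j] : Fin 2 → ℕ → Set ℕ) (c i) i = L i \ {x} := by
        simp [h1]
      have hlt : (L i \ {x}).ncard < Nat.find hex := by
        rw [← hk]
        exact Set.ncard_sdiff_singleton_lt_of_mem hx hfin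
      exact hmin _ hlt ⟨_, hc, by rw [hci]; exact hfin.subset Set.sdiff_subset, by rw [hci]⟩
  choose x L hL hLx using hsingle
  -- the family of singletons is in `a`
  have hx : (fun i => ({x i} : Set ℕ)) ∈ a.1 := by
    have h1 := (a.2.1 ![fun i => {x i}, fun i => {x i}ᶜ]).1 (by
      have e : (fun i => (![fun i => {x i}, fun i => {x i}ᶜ] : Fin 2 → ℕ → Set ℕ) 0 i ∪
          (![fun i => {x i}, fun i => {x i}ᶜ] : Fin 2 → ℕ → Set ℕ) 1 i) = fun _ => Set.univ := by
        funext i
        simp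
      rw [e]
      exact a.2.mono hL0 fun i => Set.subset_univ _)
    obtain ⟨c, hc⟩ := h1
    have hc0 : ∀ i, c i = 0 := by
      intro i
      by_contra hne
      have hc1 : c i = 1 := by omega
      have h2 := atom_inter ha (hL i) hc
      refine hempty _ i ?_ h2
      show (![fun i => {x i}, fun i => {x i}ᶜ] : Fin 2 → ℕ → Set ℕ) (c i) i ∩ L i i = ∅
      rw [hc1, hLx i]
      simp
    have e : (fun i => (![fun i => {x i}, fun i => {x i}ᶜ] : Fin 2 → ℕ → Set ℕ) (c i) i) =
        fun i => ({x i} : Set ℕ) := by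
      funext i
      rw [hc0 i]; rfl
    rwa [e] at hc
  obtain ⟨i, hi⟩ := (hle hx).2 2
  beta_reduce at hi
  have h3 : (({x i} : Set ℕ) ∩ Set.Iic i).ncard ≤ 1 := by
    have := Set.ncard_le_ncard (Set.inter_subset_left (s := ({x i} : Set ℕ)) (t := Set.Iic i))
      (Set.finite_singleton _)
    rwa [Set.ncard_singleton] at this
  omega

end Pool.Agent.Q243.Multifuncoid
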